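import Pool.Agent.J6H18.SL.Stm
import Pool.Agent.Y989.SD.Main

/-!
Items DAP, DA2: the probability of a closed dual arm, and the independence of disjoint dual arms.
-/

set_option autoImplicit false

namespace Pool.Agent.J6H18.SL

open Finset H974
open H973 (ES EV BX mem_BX mem_ES okhalf)
open Pool.Agent.Y989.SD (hf Win XT S_WIN m_WIN)

namespace DAP

/-! ### the lattice of faces -/

theorem mem_Pq {T : Finset Vtx} {x : Vtx} : x ∈ Pq T ↔ x ∈ T ∨ (x.1 + 1, x.2) ∈ T ∨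
    (x.1, x.2 + 1) ∈ T ∨ (x.1 + 1, x.2 + 1) ∈ T := by
  unfold Pq
  simp only [Finset.mem_union, Finset.mem_image]
  constructor
  · rintro (((h | ⟨y, h, rfl⟩) | ⟨y, h, rfl⟩) | ⟨y, h, rfl⟩)
    · exact Or.inl h
    · right; left; simpa using h
    · right; right; left; simpa using h
    · right; right; right; simpa using h
  · rintro (h | h | h | h)
    · exact Or.inl (Or.inl (Or.inl h))
    · exact Or.inl (Or.inl (Or.inr ⟨_, h, by simp⟩))
    · exact Or.inl (Or.inr ⟨_, h, by simp⟩)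
    · exact Or.inr ⟨_, h, by simp⟩

theorem dmp_sub (T : Finset Vtx) : dmp (ES T) ⊆ ES (Pq T) := by
  rintro ⟨x, y, _ | _⟩ h
  · rw [mem_dmp, dls_f, mem_ES, src_mk, tgt_true] at h
    rw [mem_ES, src_mk, tgt_false, mem_Pq, mem_Pq]
    exact ⟨Or.inr (Or.inr (Or.inl h.1)), Or.inl h.1⟩
  · rw [mem_dmp, dls_t, mem_ES, src_mk, tgt_false] at h
    rw [mem_ES, src_mk, tgt_true, mem_Pq, mem_Pq]
    exact ⟨Or.inr (Or.inl h.1), Or.inl h.1⟩

theorem XT_incr (S : Finset Edg) (T : Finset Vtx) (v : Vtx) (r R : ℤ) : IncrE S (XT T v r R) := by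
  rintro F G hFG _ ⟨u, hu, hur, w, hw, hwR, h⟩
  exact ⟨u, hu, hur, w, hw, hwR, h.mono (by exact_mod_cast hFG)⟩

/-- a dual arm is an arm in the lattice of faces -/
theorem XT_of_DA {T : Finset Vtx} {v v' : Vtx} {r R : ℤ} {F : Finset Edg} (hrR : r ≤ R)
    (hv : v' ∈ BX v 5) (h : DA T v r R F) : XT (Pq T) v' (r + 5) (R - 4) (dmp (ES T \ F)) := by
  obtain ⟨f, g, hf', hg, h⟩ := h
  have hne : f ≠ g := by
    rintro rfl
    apply hg
    rw [mem_BX] at hf' ⊢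
    omega
  have h1 : Reach (↑(dmp (ES T \ F)) : Set Edg) f g := by
    rw [coe_dmp, reach_dl, Finset.coe_sdiff]
    exact h
  have hsub : dmp (ES T \ F) ⊆ ES (Pq T) := by
    refine Finset.Subset.trans ?_ (dmp_sub T)
    intro e he
    rw [mem_dmp] at he ⊢
    exact (Finset.mem_sdiff.1 he).1
  have hmem : ∀ {a b : Vtx}, Adj (↑(dmp (ES T \ F)) : Set Edg) a b → a ∈ Pq T ∧ b ∈ Pq T := by
    rintro a b ⟨e, he, hc⟩
    have he' := mem_ES.1 (hsub (Finset.mem_coe.1 he))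
    rcases hc with ⟨rfl, rfl⟩ | ⟨rfl, rfl⟩
    · exact he'
    · exact ⟨he'.2, he'.1⟩
  have hfP : f ∈ Pq T := by
    rcases Relation.ReflTransGen.cases_head h1 with h2 | ⟨c, h2, -⟩
    · exact absurd h2 hne
    · exact (hmem h2).1
  have hgP : g ∈ Pq T := by
    rcases Relation.ReflTransGen.cases_tail h1 with h2 | ⟨c, -, h2⟩
    · exact absurd h2.symm hne
    · exact (hmem h2).2
  rw [mem_BX] at hv
  refine ⟨f, hfP, ?_, g, hgP, ?_, h1⟩
  · rw [mem_BX] at hf' ⊢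
    omega
  · intro hc
    apply hg
    rw [mem_BX] at hc ⊢
    omega

theorem pr_dual {T : Finset Vtx} {A : Finset Edg → Prop} (hA : IncrE (ES (Pq T)) A) :
    Pr hf (ES T) (fun F => A (dmp (ES T \ F))) ≤ Pr hf (ES (Pq T)) A := by
  have h1 := Pr_compl hf (ES T) (fun F => A (dmp F))
  have h2 : (fun e : Edg => 1 - hf e) = hf := by
    funext e
    show (1 : ℝ) - 1 / 2 = 1 / 2
    norm_num
  rw [h2] at h1
  rw [← h1, ← pr_dmp]
  exact Pr_mono_set okhalf (dmp_sub T) hA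

theorem pr_DA_le {T : Finset Vtx} {v v' : Vtx} {r R : ℤ} (hrR : r ≤ R) (hv : v' ∈ BX v 5) :
    Pr hf (ES T) (DA T v r R) ≤ Pr hf (ES (Pq T)) (XT (Pq T) v' (r + 5) (R - 4)) := by
  refine le_trans ?_ (pr_dual (T := T) (A := XT (Pq T) v' (r + 5) (R - 4)) (XT_incr _ _ _ _ _))
  exact Pr_mono okhalf fun F _ h => XT_of_DA hrR hv h

/-! ### localization -/

/-- the corners of a face are close to it -/
theorem side_close {e : Edg} {w : Vtx} (h : dsrc e = w ∨ dtgt e = w) :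
    (w.1 ≤ (src e).1 ∧ (src e).1 ≤ w.1 + 1 ∧ w.2 ≤ (src e).2 ∧ (src e).2 ≤ w.2 + 1) ∧
      (w.1 ≤ (tgt e).1 ∧ (tgt e).1 ≤ w.1 + 1 ∧ w.2 ≤ (tgt e).2 ∧ (tgt e).2 ≤ w.2 + 1) := by
  obtain ⟨x, y, _ | _⟩ := e
  · rw [dsrc_false, dtgt_mk] at h
    rw [src_mk, tgt_false]
    rcases h with rfl | rfl <;> simp
  · rw [dsrc_true, dtgt_mk] at h
    rw [src_mk, tgt_true]
    rcases h with rfl | rfl <;> simp

theorem DA_loc {T : Finset Vtx} {v : Vtx} {r R : ℤ} (hrR : r ≤ R) {G : Set Edg} {f g : Vtx}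
    (hf' : f ∈ BX v r) (hg : g ∉ BX v R) (h : DReach G f g) :
    ∃ g', g' ∉ BX v R ∧ DReach (G ∩ {e | src e ∈ BX v (R + 3) ∧ tgt e ∈ BX v (R + 3)}) f g' := by
  set H : Set Edg := G ∩ {e | src e ∈ BX v (R + 3) ∧ tgt e ∈ BX v (R + 3)} with hH
  have key : ∀ w, DReach G f w → (∃ g', g' ∉ BX v R ∧ DReach H f g') ∨
      (w ∈ BX v R ∧ DReach H f w) := by
    intro w hw
    induction hw with
    | refl =>
      right
      refine ⟨?_, DReach.refl _ _⟩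
      rw [mem_BX] at hf' ⊢
      omega
    | @tail b c _ hs ih =>
      rcases ih with ih | ⟨hb, hr⟩
      · exact Or.inl ih
      · obtain ⟨e, he, hc⟩ := hs
        have h1 : dsrc e = b ∨ dtgt e = b := by
          rcases hc with ⟨h, -⟩ | ⟨-, h⟩
          · exact Or.inl h
          · exact Or.inr h
        have h2 := side_close h1
        rw [mem_BX] at hb
        have h3 : e ∈ H := by
          refine ⟨he, ?_, ?_⟩ <;> rw [mem_BX] <;> omega
        have h4 : DReach H f c := hr.trans (DAdj.reach ⟨e, h3, hc⟩)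
        by_cases hcR : c ∈ BX v R
        · exact Or.inr ⟨hcR, h4⟩
        · exact Or.inl ⟨c, hcR, h4⟩
  rcases key g h with h | h
  · exact h
  · exact absurd h.1 hg

theorem DA_iff {T : Finset Vtx} {v : Vtx} {r R : ℤ} (hrR : r ≤ R) (F : Finset Edg) :
    DA T v r R F ↔ DA T v r R (F ∩ ES (T ∩ BX v (R + 3))) := by
  constructor
  · rintro ⟨f, g, h1, h2, h⟩
    refine ⟨f, g, h1, h2, h.mono ?_⟩
    rintro e ⟨he, he'⟩
    exact ⟨he, fun hc => he' (Finset.mem_coe.2 (Finset.mem_inter.1 (Finset.mem_coe.1 hc)).1)⟩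
  · rintro ⟨f, g, h1, h2, h⟩
    obtain ⟨g', h3, h4⟩ := DA_loc (T := T) hrR h1 h2 h
    refine ⟨f, g', h1, h3, h4.mono ?_⟩
    rintro e ⟨⟨he, he'⟩, hs, ht⟩
    refine ⟨he, fun hc => he' (Finset.mem_coe.2 (Finset.mem_inter.2 ⟨Finset.mem_coe.1 hc, ?_⟩))⟩
    have h5 := mem_ES.1 (Finset.mem_coe.1 he)
    rw [mem_ES]
    exact ⟨Finset.mem_inter.2 ⟨h5.1, hs⟩, Finset.mem_inter.2 ⟨h5.2, ht⟩⟩

end DAP

/-- Item DA2. -/
theorem t_DA2 : S_DA2 := by
  intro T v v' r r' R _ _ hr hr' hd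
  have h2 : Disjoint (ES (T ∩ BX v (R + 3))) (ES (T ∩ BX v' (R + 3))) := by
    rw [Finset.disjoint_left]
    intro e he he'
    rw [mem_ES, Finset.mem_inter] at he he'
    exact hd _ he.1.2 he'.1.2
  refine le_of_eq (Pr_indep (H973.ES_mono Finset.inter_subset_left)
    (H973.ES_mono Finset.inter_subset_left) h2 (fun F _ => DAP.DA_iff hr F)
    (fun F _ => DAP.DA_iff hr' F))

/-- Item DAP. -/
theorem t_DAP : S_WRP → S_DAP := by
  intro hW B α hα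
  obtain ⟨B', hB'⟩ := hW B α hα
  obtain ⟨c, C, hc, hC, hwin⟩ := m_WIN B' α hα
  refine ⟨200 ^ (1 / 3 : ℝ) + C * 12 ^ (1 / 3 : ℝ), by positivity, ?_⟩
  intro T v L hT r R hr hrR hRL
  have hr0 : (1 : ℝ) ≤ r := by exact_mod_cast hr
  have hR0 : (0 : ℝ) < R := by
    have : (r : ℝ) ≤ R := by exact_mod_cast hrR
    linarith
  have hq : 0 ≤ (r : ℝ) / R := by positivity
  have hq3 : 0 ≤ ((r : ℝ) / R) ^ (1 / 3 : ℝ) := Real.rpow_nonneg hq _
  have h12 : (0 : ℝ) ≤ C * 12 ^ (1 / 3 : ℝ) := by positivity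
  have h200 : (0 : ℝ) ≤ 200 ^ (1 / 3 : ℝ) := by positivity
  rcases lt_or_ge R (200 * r) with h | h
  · have h1 : (1 : ℝ) ≤ 200 * ((r : ℝ) / R) := by
      rw [← mul_div_assoc, le_div_iff₀ hR0, one_mul]
      exact_mod_cast h.le
    have h2 : (1 : ℝ) ≤ 200 ^ (1 / 3 : ℝ) * ((r : ℝ) / R) ^ (1 / 3 : ℝ) := by
      rw [← Real.mul_rpow (by norm_num) hq]
      exact Real.one_le_rpow h1 (by norm_num)
    have h3 := Pr_le_one okhalf (ES T) (DA T v r R)
    have h4 := mul_nonneg h12 hq3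
    calc Pr hf (ES T) (DA T v r R) ≤ 1 := h3
      _ ≤ _ := by rw [add_mul]; linarith
  · obtain ⟨v', hv', hP⟩ := hB' T v L (by omega) hT
    obtain ⟨h1, -⟩ := hwin (Pq T) v' (L - 50) hP (r + 5) (R - 4) (by omega) (by omega) (by omega)
    refine (DAP.pr_DA_le hrR hv').trans (h1.trans ?_)
    have h2 : (((r + 5 : ℤ) : ℝ)) / ((R - 4 : ℤ) : ℝ) ≤ 12 * ((r : ℝ) / R) := by
      have h3 : (200 : ℝ) * r ≤ R := by exact_mod_cast h
      push_cast
      rw [← mul_div_assoc, div_le_div_iff₀ (by linarith) hR0]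
      nlinarith
    have h3 : 0 ≤ (((r + 5 : ℤ) : ℝ)) / ((R - 4 : ℤ) : ℝ) := by
      have h3 : (200 : ℝ) * r ≤ R := by exact_mod_cast h
      push_cast
      exact div_nonneg (by linarith) (by linarith)
    have h4 : ((((r + 5 : ℤ) : ℝ)) / ((R - 4 : ℤ) : ℝ)) ^ (1 / 3 : ℝ) ≤
        12 ^ (1 / 3 : ℝ) * ((r : ℝ) / R) ^ (1 / 3 : ℝ) := by
      rw [← Real.mul_rpow (by norm_num) hq]
      exact Real.rpow_le_rpow h3 h2 (by norm_num)
    have h5 := mul_nonneg h200 hq3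
    calc C * ((((r + 5 : ℤ) : ℝ)) / ((R - 4 : ℤ) : ℝ)) ^ (1 / 3 : ℝ) ≤
          C * (12 ^ (1 / 3 : ℝ) * ((r : ℝ) / R) ^ (1 / 3 : ℝ)) :=
          mul_le_mul_of_nonneg_left h4 hC.le
      _ ≤ _ := by rw [add_mul]; nlinarith

end Pool.Agent.J6H18.SL
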