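import Pool.Agent.J6H18.SL.Stm
import Pool.Agent.Y989.SD.T_AUP
import Pool.Agent.Y989.SD.Main

/-!
Project SL (helper18), item DU (helper94): upper bound for the probability of the complement.
-/

set_option autoImplicit false

namespace Pool.Agent.J6H18.SL

open Finset H974 H973
open Pool.Agent.Y989.SD (disc cir pos TD SmW near hf btT Win)

namespace DU

theorem near1 {ε x K A : ℝ} {u v : Vtx} {p q : ℂ} (hε : 0 < ε) (hu : ‖pos ε u - p‖ ≤ 2 * ε)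
    (hv : ‖pos ε v - q‖ ≤ 2 * ε) (hpq : ‖p - q‖ ≤ A) (hA : A + 4 * ε ≤ K * x) :
    u ∈ BX v ⌈K * x / ε⌉ := by
  have h2 : ‖pos ε u - pos ε v‖ ≤ K * x := by
    have e : pos ε u - pos ε v = (pos ε u - p) + (p - q) - (pos ε v - q) := by ring
    rw [e]
    refine (norm_sub_le _ _).trans ?_
    have := norm_add_le (pos ε u - p) (p - q)
    linarith
  obtain ⟨h3, h4⟩ := Pool.Agent.Y989.SD.AUP.pos_low hε u v
  have h5 : ∀ a b : ℤ, ε * |(a : ℝ) - b| ≤ ‖pos ε u - pos ε v‖ →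
      b - ⌈K * x / ε⌉ ≤ a ∧ a ≤ b + ⌈K * x / ε⌉ := by
    intro a b hab
    have h6 : |(a : ℝ) - b| ≤ K * x / ε := by
      rw [le_div_iff₀ hε, mul_comm]
      exact hab.trans h2
    have h7 : |(a : ℝ) - b| ≤ ((⌈K * x / ε⌉ : ℤ) : ℝ) := h6.trans (Int.le_ceil _)
    rw [abs_le] at h7
    obtain ⟨h8, h9⟩ := h7
    constructor
    · have : ((b - ⌈K * x / ε⌉ : ℤ) : ℝ) ≤ (a : ℝ) := by push_cast; linarith
      exact_mod_cast this
    · have : (a : ℝ) ≤ ((b + ⌈K * x / ε⌉ : ℤ) : ℝ) := by push_cast; linarith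
      exact_mod_cast this
  rw [mem_BX]
  exact ⟨h5 _ _ h3, h5 _ _ h4⟩

theorem far1 {ε D : ℝ} {u v : Vtx} {p q : ℂ} (hε : 0 < ε) (hu : ‖pos ε u - p‖ ≤ 2 * ε)
    (hv : ‖pos ε v - q‖ ≤ 2 * ε) (hpq : D ≤ ‖p - q‖) {R : ℤ}
    (hR : 2 * ((R : ℝ) * ε) + 4 * ε < D) : u ∉ BX v R := by
  have h4 : ‖p - q‖ ≤ ‖pos ε u - pos ε v‖ + 4 * ε := by
    have e : p - q = (pos ε u - pos ε v) - (pos ε u - p) + (pos ε v - q) := by ring
    rw [e]
    refine (norm_add_le _ _).trans ?_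
    have := norm_sub_le (pos ε u - pos ε v) (pos ε u - p)
    linarith
  have h5 := Pool.Agent.Y989.SD.AUP.pos_up hε u v
  have key : ¬ (|(u.1 : ℝ) - v.1| ≤ R ∧ |(u.2 : ℝ) - v.2| ≤ R) := by
    rintro ⟨h6, h7⟩
    have h8 := mul_le_mul_of_nonneg_left h6 hε.le
    have h9 := mul_le_mul_of_nonneg_left h7 hε.le
    nlinarith
  intro hx
  rw [mem_BX] at hx
  refine key ⟨?_, ?_⟩
  · have i1 : ((v.1 - R : ℤ) : ℝ) ≤ (u.1 : ℝ) := by exact_mod_cast hx.1.1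
    have i2 : (u.1 : ℝ) ≤ ((v.1 + R : ℤ) : ℝ) := by exact_mod_cast hx.1.2
    push_cast at i1 i2
    rw [abs_le]
    constructor <;> linarith
  · have i1 : ((v.2 - R : ℤ) : ℝ) ≤ (u.2 : ℝ) := by exact_mod_cast hx.2.1
    have i2 : (u.2 : ℝ) ≤ ((v.2 + R : ℤ) : ℝ) := by exact_mod_cast hx.2.2
    push_cast at i1 i2
    rw [abs_le]
    constructor <;> linarith

theorem small2 {ε x d K κ : ℝ} (hε : 0 < ε) (hx : ε ≤ x) (hd : 0 < d) (hK : 4 ≤ K) (hκ : 0 < κ)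
    (hκ1 : κ ≤ 1) (h : 20 * ⌈K * x / ε⌉ ≤ ⌊κ * d / ε⌋ / 20) :
    (((20 * ⌈K * x / ε⌉ : ℤ) : ℝ) / ((⌊κ * d / ε⌋ / 20 : ℤ) : ℝ) ≤
      6400 * K / κ * (x / (x + d))) ∧
      800 * x ≤ d ∧ 200 * ε ≤ κ * d ∧ 1 ≤ ⌈K * x / ε⌉ ∧
      ((⌊κ * d / ε⌋ : ℤ) : ℝ) * ε ≤ κ * d := by
  have hx0 : 0 < x := by linarith
  have e1 : K ≤ K * x / ε := by
    rw [le_div_iff₀ hε]
    nlinarith
  have e2 : K * x / ε ≤ ((⌈K * x / ε⌉ : ℤ) : ℝ) := Int.le_ceil _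
  have e3 : ((⌈K * x / ε⌉ : ℤ) : ℝ) < K * x / ε + 1 := Int.ceil_lt_add_one _
  have e4 : ((⌊κ * d / ε⌋ : ℤ) : ℝ) ≤ κ * d / ε := Int.floor_le _
  have e5 : κ * d / ε < ((⌊κ * d / ε⌋ : ℤ) : ℝ) + 1 := Int.lt_floor_add_one _
  set p := K * x / ε with hp
  set q := κ * d / ε with hq
  have hr1 : 1 ≤ ⌈p⌉ := by
    have : (1 : ℝ) ≤ ((⌈p⌉ : ℤ) : ℝ) := by linarith
    exact_mod_cast this
  have i1 : 20 * (⌊q⌋ / 20) ≤ ⌊q⌋ := by omega
  have i2 : ⌊q⌋ < 20 * (⌊q⌋ / 20) + 20 := by omega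
  have i3 : 400 * ⌈p⌉ ≤ ⌊q⌋ := by omega
  have j1 : (20 : ℝ) * ((⌊q⌋ / 20 : ℤ) : ℝ) ≤ ((⌊q⌋ : ℤ) : ℝ) := by exact_mod_cast i1
  have j2 : ((⌊q⌋ : ℤ) : ℝ) < 20 * ((⌊q⌋ / 20 : ℤ) : ℝ) + 20 := by exact_mod_cast i2
  have j3 : (400 : ℝ) * ((⌈p⌉ : ℤ) : ℝ) ≤ ((⌊q⌋ : ℤ) : ℝ) := by exact_mod_cast i3
  have e7 : 400 * (K * x) ≤ κ * d := by
    have : 400 * p ≤ q := by linarith
    rw [hp, hq, ← mul_div_assoc] at this
    exact (div_le_div_iff_of_pos_right hε).1 this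
  have g1 : 4 * x ≤ K * x := mul_le_mul_of_nonneg_right hK hx0.le
  have g2 : κ * d ≤ 1 * d := mul_le_mul_of_nonneg_right hκ1 hd.le
  have g3 : 800 * x ≤ d := by linarith
  refine ⟨?_, g3, by nlinarith, hr1, ?_⟩
  · have f1 : ((20 * ⌈p⌉ : ℤ) : ℝ) ≤ 40 * p := by push_cast; linarith
    have f0 : (0 : ℝ) ≤ 40 * p := by linarith
    have f2 : q / 80 ≤ ((⌊q⌋ / 20 : ℤ) : ℝ) := by linarith
    have f3 : 0 < q / 80 := by linarith
    have f4 : ((20 * ⌈p⌉ : ℤ) : ℝ) / ((⌊q⌋ / 20 : ℤ) : ℝ) ≤ 40 * p / (q / 80) :=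
      div_le_div₀ f0 f1 f3 f2
    refine f4.trans ?_
    have f5 : 40 * p / (q / 80) = 3200 * K / κ * (x / d) := by
      rw [hp, hq]
      field_simp
      ring
    rw [f5]
    have f6 : x / d ≤ 2 * (x / (x + d)) := by
      rw [div_le_iff₀ hd, mul_assoc, div_mul_eq_mul_div, ← mul_div_assoc,
        le_div_iff₀ (by linarith)]
      nlinarith
    have f7 : 0 ≤ 3200 * K / κ := by positivity
    calc 3200 * K / κ * (x / d) ≤ 3200 * K / κ * (2 * (x / (x + d))) :=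
          mul_le_mul_of_nonneg_left f6 f7
      _ = 6400 * K / κ * (x / (x + d)) := by ring
  · rw [hq, le_div_iff₀ hε] at e4
    exact e4

theorem large2 {ε x d K κ : ℝ} (hε : 0 < ε) (hx : ε ≤ x) (hd : 0 < d) (hκ : 0 < κ)
    (h : ¬ 20 * ⌈K * x / ε⌉ ≤ ⌊κ * d / ε⌋ / 20) :
    1 ≤ (1 + (400 * K + 421) / κ) * (x / (x + d)) := by
  have hx0 : 0 < x := by linarith
  have e3 : ((⌈K * x / ε⌉ : ℤ) : ℝ) < K * x / ε + 1 := Int.ceil_lt_add_one _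
  have e5 : κ * d / ε < ((⌊κ * d / ε⌋ : ℤ) : ℝ) + 1 := Int.lt_floor_add_one _
  have i1 : ⌊κ * d / ε⌋ < 400 * ⌈K * x / ε⌉ + 20 := by omega
  have e6 : ((⌊κ * d / ε⌋ : ℤ) : ℝ) < 400 * ((⌈K * x / ε⌉ : ℤ) : ℝ) + 20 := by exact_mod_cast i1
  have e7 : κ * d / ε < 400 * (K * x / ε) + 421 := by linarith
  have e8 : κ * d < 400 * (K * x) + 421 * ε := by
    have h1 := mul_lt_mul_of_pos_right e7 hε
    have h2 : κ * d / ε * ε = κ * d := div_mul_cancel₀ _ hε.ne'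
    have h3 : (400 * (K * x / ε) + 421) * ε = 400 * (K * x) + 421 * ε := by
      field_simp
    rw [h2, h3] at h1
    exact h1
  rw [← mul_div_assoc, le_div_iff₀ (by linarith), one_mul, add_mul, one_mul, div_mul_eq_mul_div]
  have e9 : d ≤ (400 * K + 421) * x / κ := by
    rw [le_div_iff₀ hκ]
    nlinarith
  linarith

theorem per (θ θ1 : ℝ) : ∃ θ', θ1 ≤ θ' ∧ θ' < θ1 + 2 * Real.pi ∧ cir θ' = cir θ := by
  have h2 : (0 : ℝ) < 2 * Real.pi := by positivity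
  obtain ⟨h3, h4⟩ := toIcoMod_mem_Ico h2 θ1 θ
  refine ⟨toIcoMod h2 θ1 θ, h3, h4, ?_⟩
  unfold cir
  rw [Complex.exp_eq_exp_iff_exists_int]
  refine ⟨-toIcoDiv h2 θ1 θ, ?_⟩
  have h5 : toIcoMod h2 θ1 θ = θ - toIcoDiv h2 θ1 θ * (2 * Real.pi) := by
    have := toIcoMod_add_toIcoDiv_zsmul h2 θ1 θ
    rw [zsmul_eq_mul] at this
    linarith
  rw [h5]
  push_cast
  ring

theorem arg_dist (w : ℂ) (h : ‖w‖ ≤ 1) : ‖w - cir (Complex.arg w)‖ ≤ 1 - ‖w‖ := by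
  have h1 : (‖w‖ : ℂ) * cir (Complex.arg w) = w := Complex.norm_mul_exp_arg_mul_I w
  have h2 : w - cir (Complex.arg w) = ((‖w‖ - 1 : ℝ) : ℂ) * cir (Complex.arg w) := by
    nth_rewrite 1 [← h1]
    push_cast
    ring
  have h3 : ‖cir (Complex.arg w)‖ = 1 := by
    unfold cir
    exact Complex.norm_exp_ofReal_mul_I _
  rw [h2, norm_mul, h3, mul_one, Complex.norm_real, Real.norm_eq_abs, abs_sub_comm,
    abs_of_nonneg (by linarith)]

theorem cen_near {ε : ℝ} (hε : 0 < ε) (z : Vtx) : ‖pos ε z - cen ε z‖ ≤ 2 * ε := by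
  refine (Complex.norm_le_abs_re_add_abs_im _).trans ?_
  unfold pos cen
  rw [Complex.sub_re, Complex.sub_im]
  simp only
  have e1 : ε * (z.1 : ℝ) - ε * ((z.1 : ℝ) + 1 / 2) = -(ε / 2) := by ring
  have e2 : ε * (z.2 : ℝ) - ε * ((z.2 : ℝ) + 1 / 2) = -(ε / 2) := by ring
  rw [e1, e2, abs_neg, abs_of_pos (by linarith)]
  linarith

theorem sqr_near {ε : ℝ} {g : Vtx} {p : ℂ} (h : p ∈ sqr ε g) : ‖pos ε g - p‖ ≤ 2 * ε := by
  obtain ⟨⟨h1, h2⟩, h3, h4⟩ := h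
  refine (Complex.norm_le_abs_re_add_abs_im _).trans ?_
  unfold pos
  rw [Complex.sub_re, Complex.sub_im]
  simp only
  have e1 : |ε * (g.1 : ℝ) - p.re| ≤ ε := by
    rw [abs_le]
    constructor <;> linarith
  have e2 : |ε * (g.2 : ℝ) - p.im| ≤ ε := by
    rw [abs_le]
    constructor <;> linarith
  linarith

end DU

open DU in
/-- Item DU. -/
theorem t_DU : S_HALF → S_DAP → S_DA2 → S_DU := by
  intro hHALF hDAP hDA2 f g M α hS
  obtain ⟨l, H, hl0, hH, hl, -⟩ := Pool.Agent.Y989.SD.m_GA f g M α hS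
  obtain ⟨ρ, B, ε0, hρ, hε0, hG⟩ := Pool.Agent.Y989.SD.m_GD f g M α hS
  obtain ⟨C, hC, hP⟩ := hDAP B α hS.al0
  set K : ℝ := H + 4 with hK
  have hK4 : 4 ≤ K := by rw [hK]; linarith
  set κ : ℝ := min (l / 20) (min 1 (ρ / 4)) with hκ
  have hκ0 : 0 < κ := lt_min (by positivity) (lt_min one_pos (by positivity))
  have hκ1 : κ ≤ 1 := (min_le_right _ _).trans (min_le_left _ _)
  have hκl : κ ≤ l / 20 := min_le_left _ _
  have hκρ : κ ≤ ρ / 4 := (min_le_right _ _).trans (min_le_right _ _)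
  have hK0 : 0 < K := by linarith
  set C1 : ℝ := C * (6400 * K / κ) ^ (1 / 3 : ℝ) + (1 + (400 * K + 421) / κ) ^ (1 / 3 : ℝ) with hC1
  have p1 : 0 < C * (6400 * K / κ) ^ (1 / 3 : ℝ) := by positivity
  have p2 : 0 < (1 + (400 * K + 421) / κ) ^ (1 / 3 : ℝ) := by positivity
  refine ⟨1, C1 * C1, ε0, one_pos, by positivity, hε0, ?_⟩
  intro ε θ1 θ2 z w hεε hD
  have hε := hD.e0
  obtain ⟨-, hG2, hG3⟩ := hG ε hε hεε
  have h12 := hD.h12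
  have h21 := hD.h21
  have hI := hD.hI
  have hJ := hD.hJ
  have hw := hD.hw
  rw [one_mul] at hI hJ hw
  set δ := 1 - ‖w‖ with hδdef
  set b := θ1 + 2 * Real.pi - θ2 with hbdef
  set d := ad w θ2 (θ1 + 2 * Real.pi) with hddef
  have hδ0 : 0 < δ := by linarith
  have hw1 : ‖w‖ ≤ 1 := by linarith
  have hwn : 0 ≤ ‖w‖ := norm_nonneg w
  have hwd : w ∈ disc := by
    unfold disc
    rw [Metric.mem_closedBall, dist_zero_right]
    exact hw1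
  have hcn : ∀ θ, ‖cir θ‖ = 1 := fun θ => Complex.norm_exp_ofReal_mul_I θ
  have hdle : ∀ θ, θ2 ≤ θ → θ ≤ θ1 + 2 * Real.pi → d ≤ ‖cir θ - w‖ := by
    intro θ k1 k2
    have h1 : d ≤ dist w (cir θ) :=
      Metric.infDist_le_dist_of_mem (Set.mem_image_of_mem _ ⟨k1, k2⟩)
    rwa [dist_comm, dist_eq_norm] at h1
  have hdge : δ ≤ d := by
    have hne : (arc θ2 (θ1 + 2 * Real.pi)).Nonempty := ⟨cir θ2, θ2, ⟨le_rfl, h21.le⟩, rfl⟩
    refine (Metric.le_infDist hne).2 ?_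
    rintro y ⟨θ, -, rfl⟩
    rw [dist_eq_norm, norm_sub_rev]
    have := norm_sub_norm_le (cir θ) w
    rw [hcn] at this
    exact this
  have hd : 0 < d := by linarith
  have hd2 : d ≤ 2 := by
    have h1 := hdle θ2 le_rfl h21.le
    have h2 := norm_sub_le (cir θ2) w
    rw [hcn] at h2
    linarith
  have hb0 : 0 < b := by linarith
  obtain ⟨vs, hvs, hvs2, hvsW⟩ := hG2 (Complex.arg w)
  obtain ⟨vp, hvp, hvp2, hvpW⟩ := hG2 ((θ2 + (θ1 + 2 * Real.pi)) / 2)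
  set T := TD f ε with hT
  set R : ℤ := ⌊κ * d / ε⌋ with hRdef
  have hRL : R ≤ ⌊ρ / ε⌋ := by
    refine Int.floor_le_floor ?_
    refine div_le_div_of_nonneg_right ?_ hε.le
    nlinarith
  have hzn : ‖pos ε z - f w‖ ≤ 2 * ε := by
    rw [hD.hz]
    exact cen_near hε z
  -- the bound for one event
  have hone : ∀ (x : ℝ) (v : Vtx), ε ≤ x → Win T v ⌊ρ / ε⌋ B α → 20 * ⌈K * x / ε⌉ ≤ R / 20 →
      Pr hf (ES T) (DA T v (20 * ⌈K * x / ε⌉) (R / 20)) ≤ C1 * (x / (x + d)) ^ (1 / 3 : ℝ) := by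
    intro x v hx hvW hsm
    obtain ⟨q1, -, -, q4, -⟩ := small2 hε hx hd hK4 hκ0 hκ1 hsm
    have q5 := hP T v _ hvW (20 * ⌈K * x / ε⌉) (R / 20) (by omega) hsm (by omega)
    have hx0 : 0 < x := by linarith
    have q6 : (((20 * ⌈K * x / ε⌉ : ℤ) : ℝ) / ((R / 20 : ℤ) : ℝ)) ^ (1 / 3 : ℝ) ≤
        (6400 * K / κ * (x / (x + d))) ^ (1 / 3 : ℝ) := by
      refine Real.rpow_le_rpow ?_ q1 (by norm_num)
      have : (0 : ℝ) ≤ ((20 * ⌈K * x / ε⌉ : ℤ) : ℝ) := by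
        exact_mod_cast (by omega : (0 : ℤ) ≤ 20 * ⌈K * x / ε⌉)
      have : (0 : ℝ) ≤ ((R / 20 : ℤ) : ℝ) := by exact_mod_cast (by omega : (0 : ℤ) ≤ R / 20)
      positivity
    rw [Real.mul_rpow (by positivity) (by positivity)] at q6
    calc Pr hf (ES T) (DA T v (20 * ⌈K * x / ε⌉) (R / 20)) ≤
          C * (((20 * ⌈K * x / ε⌉ : ℤ) : ℝ) / ((R / 20 : ℤ) : ℝ)) ^ (1 / 3 : ℝ) := q5
      _ ≤ C * ((6400 * K / κ) ^ (1 / 3 : ℝ) * (x / (x + d)) ^ (1 / 3 : ℝ)) :=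
          mul_le_mul_of_nonneg_left q6 hC.le
      _ = C * (6400 * K / κ) ^ (1 / 3 : ℝ) * (x / (x + d)) ^ (1 / 3 : ℝ) := by ring
      _ ≤ C1 * (x / (x + d)) ^ (1 / 3 : ℝ) := by
          refine mul_le_mul_of_nonneg_right ?_ (by positivity)
          rw [hC1]
          linarith
  have hlarge : ∀ x : ℝ, ε ≤ x → ¬ 20 * ⌈K * x / ε⌉ ≤ R / 20 →
      1 ≤ C1 * (x / (x + d)) ^ (1 / 3 : ℝ) := by
    intro x hx hsm
    have hx0 : 0 < x := by linarith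
    have q1 := large2 hε hx hd hκ0 hsm
    have q2 : (1 : ℝ) ^ (1 / 3 : ℝ) ≤
        ((1 + (400 * K + 421) / κ) * (x / (x + d))) ^ (1 / 3 : ℝ) :=
      Real.rpow_le_rpow zero_le_one q1 (by norm_num)
    rw [Real.one_rpow, Real.mul_rpow (by positivity) (by positivity)] at q2
    refine q2.trans (mul_le_mul_of_nonneg_right ?_ (by positivity))
    rw [hC1]
    linarith
  have hgh : gh w θ2 (θ1 + 2 * Real.pi) ^ (1 / 3 : ℝ) =
      (δ / (δ + d)) ^ (1 / 3 : ℝ) * (b / (b + d)) ^ (1 / 3 : ℝ) := by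
    unfold gh
    rw [Real.mul_rpow (by positivity) (by positivity)]
  set P := Pr hf (ES T) (fun F => ¬ Sep f ε θ1 θ2 z F) with hPdef
  have hgoal : P ≤ (C1 * (δ / (δ + d)) ^ (1 / 3 : ℝ)) * (C1 * (b / (b + d)) ^ (1 / 3 : ℝ)) →
      P ≤ C1 * C1 * gh w θ2 (θ1 + 2 * Real.pi) ^ (1 / 3 : ℝ) := by
    intro h
    rw [hgh]
    refine h.trans (le_of_eq (by ring))
  apply hgoal
  -- boundary vertices
  have hbt : ∀ u, btT T u → u ∈ near f ε θ1 θ2 ∨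
      ∃ θ, θ2 ≤ θ ∧ θ ≤ θ1 + 2 * Real.pi ∧ ‖pos ε u - f (cir θ)‖ ≤ 2 * ε := by
    intro u hu
    obtain ⟨θ, hθ⟩ := hG3 u hu
    obtain ⟨θ', t1, t2, t3⟩ := per θ θ1
    rw [← t3] at hθ
    rcases le_total θ' θ2 with h | h
    · exact Or.inl ⟨hu.1, θ', t1, h, by linarith⟩
    · exact Or.inr ⟨θ', h, t2.le, by linarith⟩
  -- the boundary point close to `z`
  have hfs : 800 * δ ≤ d → ∀ θ, θ2 ≤ θ → θ ≤ θ1 + 2 * Real.pi →
      l * (d / 2) ≤ ‖f (cir θ) - f (cir (Complex.arg w))‖ := by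
    intro k θ k1 k2
    refine le_trans ?_ (hl _ (Pool.Agent.Y989.SD.AUP.cir_mem θ) _
      (Pool.Agent.Y989.SD.AUP.cir_mem _)).1
    refine mul_le_mul_of_nonneg_left ?_ hl0.le
    have h1 := hdle θ k1 k2
    have h2 := arg_dist w hw1
    have h3 : cir θ - w = (cir θ - cir (Complex.arg w)) - (w - cir (Complex.arg w)) := by ring
    rw [h3] at h1
    have h4 := norm_sub_le (cir θ - cir (Complex.arg w)) (w - cir (Complex.arg w))
    linarith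
  have hRad : 200 * ε ≤ κ * d → (R : ℝ) * ε ≤ κ * d → 2 * ((R : ℝ) * ε) + 4 * ε < l * (d / 2) := by
    intro i1 i2
    have i3 : κ * d ≤ l / 20 * d := mul_le_mul_of_nonneg_right hκl hd.le
    have i4 : 0 < l * d := by positivity
    nlinarith
  have hA1 : 20 * ⌈K * δ / ε⌉ ≤ R / 20 → ∀ F, F ⊆ ES T → ¬ Sep f ε θ1 θ2 z F →
      DA T vs (20 * ⌈K * δ / ε⌉) (R / 20) F := by
    intro hsm F hF hns
    obtain ⟨-, q2, q3, q4, q5⟩ := small2 hε hw hd hK4 hκ0 hκ1 hsm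
    have hrad := hRad q3 q5
    refine (hHALF T vs ⌊ρ / ε⌋ ⌈K * δ / ε⌉ R B α (near f ε θ1 θ2) hvsW q4 (by omega) hRL
      (fun u hu hu1 _ => ?_) F hF).resolve_right fun hcon => ?_
    · rcases hbt u hu with h | ⟨θ, k1, k2, k3⟩
      · exact h
      · exact absurd hu1 (far1 hε k3 hvs2 (hfs q2 θ k1 k2) hrad)
    · apply hns
      rintro gg ⟨θ, k1, k2, k3⟩ hr
      refine hcon z gg ?_ ?_ hr
      · refine near1 hε hzn hvs2 (A := H * δ) ?_ ?_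
        · refine ((hl _ hwd _ (Pool.Agent.Y989.SD.AUP.cir_mem _)).2).trans ?_
          exact mul_le_mul_of_nonneg_left (arg_dist w hw1) hH.le
        · rw [hK]
          nlinarith
      · exact far1 hε (sqr_near k3) hvs2 (hfs q2 θ k1 k2) hrad
  have hA2 : 20 * ⌈K * b / ε⌉ ≤ R / 20 → ∀ F, F ⊆ ES T → ¬ Sep f ε θ1 θ2 z F →
      DA T vp (20 * ⌈K * b / ε⌉) (R / 20) F := by
    intro hsm F hF hns
    obtain ⟨-, q2, q3, q4, q5⟩ := small2 hε hJ hd hK4 hκ0 hκ1 hsm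
    have hrad := hRad q3 q5
    have hnear : ∀ (u : Vtx) (θ : ℝ), θ2 ≤ θ → θ ≤ θ1 + 2 * Real.pi →
        ‖pos ε u - f (cir θ)‖ ≤ 2 * ε → u ∈ BX vp ⌈K * b / ε⌉ := by
      intro u θ k1 k2 k3
      refine near1 hε k3 hvp2 (A := H * b) ?_ ?_
      · refine ((hl _ (Pool.Agent.Y989.SD.AUP.cir_mem _) _
          (Pool.Agent.Y989.SD.AUP.cir_mem _)).2).trans ?_
        refine mul_le_mul_of_nonneg_left ?_ hH.le
        refine (Pool.Agent.Y989.SD.AUP.cir_up _ _).trans ?_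
        rw [abs_le]
        constructor <;> linarith
      · rw [hK]
        nlinarith
    refine (hHALF T vp ⌊ρ / ε⌋ ⌈K * b / ε⌉ R B α (near f ε θ1 θ2) hvpW q4 (by omega) hRL
      (fun u hu _ hu2 => ?_) F hF).resolve_right fun hcon => ?_
    · rcases hbt u hu with h | ⟨θ, k1, k2, k3⟩
      · exact h
      · exact absurd (hnear u θ k1 k2 k3) hu2
    · apply hns
      rintro gg ⟨θ, k1, k2, k3⟩ hr
      refine hcon gg z (hnear gg θ k1 k2 (sqr_near k3)) ?_ hr.symm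
      refine far1 hε hzn hvp2 (D := l * (d / 2)) ?_ hrad
      refine le_trans ?_ (hl _ hwd _ (Pool.Agent.Y989.SD.AUP.cir_mem _)).1
      refine mul_le_mul_of_nonneg_left ?_ hl0.le
      have h1 := hdle ((θ2 + (θ1 + 2 * Real.pi)) / 2) (by linarith) (by linarith)
      rw [norm_sub_rev] at h1
      linarith
  have hle1 : P ≤ 1 := Pr_le_one okhalf _ _
  have hPa : 0 ≤ Pr hf (ES T) (DA T vs (20 * ⌈K * δ / ε⌉) (R / 20)) := Pr_nonneg okhalf _ _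
  have hPb : 0 ≤ Pr hf (ES T) (DA T vp (20 * ⌈K * b / ε⌉) (R / 20)) := Pr_nonneg okhalf _ _
  by_cases sa : 20 * ⌈K * δ / ε⌉ ≤ R / 20
  · obtain ⟨-, q2, q3, q4, q5⟩ := small2 hε hw hd hK4 hκ0 hκ1 sa
    by_cases sb : 20 * ⌈K * b / ε⌉ ≤ R / 20
    · have hdis : ∀ x, x ∈ BX vs (R / 20 + 3) → x ∉ BX vp (R / 20 + 3) := by
        intro x hx hx'
        have h1 : vp ∉ BX vs R := by
          refine far1 hε hvp2 hvs2 (D := l * (d / 2)) ?_ (hRad q3 q5)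
          exact hfs q2 _ (by linarith) (by linarith)
        apply h1
        rw [mem_BX] at hx hx' ⊢
        omega
      have h1 : P ≤ Pr hf (ES T) (DA T vs (20 * ⌈K * δ / ε⌉) (R / 20)) *
          Pr hf (ES T) (DA T vp (20 * ⌈K * b / ε⌉) (R / 20)) := by
        refine le_trans (Pr_mono okhalf fun F hF hA => ⟨hA1 sa F hF hA, hA2 sb F hF hA⟩)
          (hDA2 T vs vp _ _ (R / 20) ?_ ?_ sa sb hdis)
        · omega
        · have := (small2 hε hJ hd hK4 hκ0 hκ1 sb).2.2.2.1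
          omega
      exact h1.trans (mul_le_mul (hone δ vs hw hvsW sa) (hone b vp hJ hvpW sb) hPb
        (hPa.trans (hone δ vs hw hvsW sa)))
    · have h1 : P ≤ Pr hf (ES T) (DA T vs (20 * ⌈K * δ / ε⌉) (R / 20)) :=
        Pr_mono okhalf fun F hF hA => hA1 sa F hF hA
      have h2 := hone δ vs hw hvsW sa
      have h3 := hlarge b hJ sb
      calc P ≤ (C1 * (δ / (δ + d)) ^ (1 / 3 : ℝ)) * 1 := by
            rw [mul_one]; exact h1.trans h2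
        _ ≤ _ := mul_le_mul_of_nonneg_left h3 (hPa.trans h2)
  · have h3 := hlarge δ hw sa
    by_cases sb : 20 * ⌈K * b / ε⌉ ≤ R / 20
    · have h1 : P ≤ Pr hf (ES T) (DA T vp (20 * ⌈K * b / ε⌉) (R / 20)) :=
        Pr_mono okhalf fun F hF hA => hA2 sb F hF hA
      have h2 := hone b vp hJ hvpW sb
      calc P ≤ 1 * (C1 * (b / (b + d)) ^ (1 / 3 : ℝ)) := by
            rw [one_mul]; exact h1.trans h2
        _ ≤ _ := mul_le_mul_of_nonneg_right h3 (hPb.trans h2)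
    · have h4 := hlarge b hJ sb
      calc P ≤ 1 * 1 := by rw [one_mul]; exact hle1
        _ ≤ _ := mul_le_mul h3 h4 zero_le_one (zero_le_one.trans h3)

end Pool.Agent.J6H18.SL
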