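import Pool.Agent.J6H18.SL.Stm

/-!
# Face paths in the domain (items FP1, FP2)
-/

set_option autoImplicit false

namespace Pool.Agent.J6H18.SL

open Finset H974
open H973 (ES EV BX mem_ES)
open Pool.Agent.Y989.SD (disc cir pos TD SmW near hf btT Win XT HT Lp Flat emb QB nu ip)

namespace FPx

/-- a segment from the domain to its complement meets the boundary curve -/
theorem seg' {f : ℂ → ℂ} (hK : IsCompact (f '' disc))
    (hint : ∀ w, ‖w‖ < 1 → f w ∈ interior (f '' disc)) {z z' : ℂ} (hz : z ∈ f '' disc)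
    (hz' : z' ∉ f '' disc) : ∃ θ t : ℝ, 0 ≤ t ∧ t ≤ 1 ∧ f (cir θ) = z + (t : ℂ) * (z' - z) := by
  set γ : ℝ → ℂ := fun t => z + (t : ℂ) * (z' - z) with hγ
  have hγc : Continuous γ := by rw [hγ]; fun_prop
  set S : Set ℝ := Set.Icc 0 1 ∩ γ ⁻¹' (f '' disc) with hS
  have hSc : IsCompact S := isCompact_Icc.inter_right (hK.isClosed.preimage hγc)
  have h0 : (0 : ℝ) ∈ S := ⟨⟨le_rfl, zero_le_one⟩, by simpa [hγ] using hz⟩
  have hs := hSc.sSup_mem ⟨0, h0⟩
  set s := sSup S with hsd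
  have hs1 : s < 1 := by
    refine lt_of_le_of_ne hs.1.2 fun h => hz' ?_
    have := hs.2
    rw [h] at this
    simpa [hγ] using this
  obtain ⟨w, hw, hws⟩ := hs.2
  have hw1 : ‖w‖ = 1 := by
    have hle : ‖w‖ ≤ 1 := by
      have := hw
      unfold disc at this
      rwa [mem_closedBall_zero_iff] at this
    refine le_antisymm hle (not_lt.1 fun hlt => ?_)
    have h1 := hint w hlt
    rw [hws] at h1
    have h2 : ∀ᶠ t in nhdsWithin s (Set.Ioi s), γ t ∈ interior (f '' disc) :=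
      nhdsWithin_le_nhds (hγc.continuousAt (isOpen_interior.mem_nhds h1))
    have h3 : ∀ᶠ t in nhdsWithin s (Set.Ioi s), t ∈ Set.Ioo s 1 := Ioo_mem_nhdsGT hs1
    obtain ⟨t, ht, ht2⟩ := (h2.and h3).exists
    have ht3 : γ t ∈ f '' disc := interior_subset ht
    have h4 : t ∈ S := ⟨⟨by linarith [hs.1.1, ht2.1], ht2.2.le⟩, ht3⟩
    exact absurd (le_csSup hSc.bddAbove h4) (not_le.2 ht2.1)
  refine ⟨Complex.arg w, s, hs.1.1, hs.1.2, ?_⟩
  have h1 : cir (Complex.arg w) = w := by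
    unfold cir
    have := Complex.norm_mul_exp_arg_mul_I w
    rwa [hw1, Complex.ofReal_one, one_mul] at this
  rw [h1, hws]

/-- points near `f p` are in the domain -/
theorem inD {f : ℂ → ℂ} (hK : IsCompact (f '' disc))
    (hint : ∀ w, ‖w‖ < 1 → f w ∈ interior (f '' disc)) {l : ℝ} (hl : 0 < l)
    (hlip : ∀ z ∈ disc, ∀ w ∈ disc, l * ‖z - w‖ ≤ ‖f z - f w‖) {p : ℂ} (hp : ‖p‖ < 1) {x : ℂ}
    (hx : ‖x - f p‖ < l * (1 - ‖p‖)) : x ∈ f '' disc := by
  by_contra hcon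
  have hpd : p ∈ disc := by
    unfold disc
    rw [mem_closedBall_zero_iff]; exact hp.le
  obtain ⟨θ, t, h0, h1, h2⟩ := seg' hK hint (Set.mem_image_of_mem f hpd) hcon
  have hc : cir θ ∈ disc := by
    unfold disc
    rw [mem_closedBall_zero_iff, Pool.Agent.Y989.SD.GD.cir_norm]
  have h3 := hlip (cir θ) hc p hpd
  have h4 : ‖f (cir θ) - f p‖ ≤ ‖x - f p‖ := by
    rw [h2, add_sub_cancel_left, norm_mul, Complex.norm_real, Real.norm_eq_abs, abs_of_nonneg h0]
    exact mul_le_of_le_one_left (norm_nonneg _) h1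
  have h5 : 1 - ‖p‖ ≤ ‖cir θ - p‖ := by
    have := norm_sub_norm_le (cir θ) p
    rwa [Pool.Agent.Y989.SD.GD.cir_norm] at this
  have h6 := mul_le_mul_of_nonneg_left h5 hl.le
  linarith

theorem norm_le_re_im (x : ℂ) : ‖x‖ ≤ |x.re| + |x.im| := Complex.norm_le_abs_re_add_abs_im x

/-- distance of a corner from the centre -/
theorem corner {ε : ℝ} (hε : 0 < ε) (x y : ℤ) (a b : ℤ) (ha : a = 0 ∨ a = 1) (hb : b = 0 ∨ b = 1) :
    ‖pos ε (x + a, y + b) - cen ε (x, y)‖ ≤ ε := by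
  refine (norm_le_re_im _).trans ?_
  have h1 : |(pos ε (x + a, y + b) - cen ε (x, y)).re| = ε / 2 := by
    simp only [pos, cen, Complex.sub_re]
    rcases ha with rfl | rfl
    · have : ε * ((x + 0 : ℤ) : ℝ) - ε * ((x : ℝ) + 1 / 2) = -(ε / 2) := by push_cast; ring
      rw [this, abs_neg, abs_of_pos (by linarith)]
    · have : ε * ((x + 1 : ℤ) : ℝ) - ε * ((x : ℝ) + 1 / 2) = ε / 2 := by push_cast; ring
      rw [this, abs_of_pos (by linarith)]
  have h2 : |(pos ε (x + a, y + b) - cen ε (x, y)).im| = ε / 2 := by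
    simp only [pos, cen, Complex.sub_im]
    rcases hb with rfl | rfl
    · have : ε * ((y + 0 : ℤ) : ℝ) - ε * ((y : ℝ) + 1 / 2) = -(ε / 2) := by push_cast; ring
      rw [this, abs_neg, abs_of_pos (by linarith)]
    · have : ε * ((y + 1 : ℤ) : ℝ) - ε * ((y : ℝ) + 1 / 2) = ε / 2 := by push_cast; ring
      rw [this, abs_of_pos (by linarith)]
  rw [h1, h2]; linarith

/-- the step between two neighbouring faces, in the direction `(1,0)` -/
theorem stepR {E : Set Edg} {x y : ℤ} (h : (x + 1, y, false) ∈ E) : DReach E (x, y) (x + 1, y) := by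
  refine DAdj.reach ⟨(x + 1, y, false), h, Or.inl ⟨?_, rfl⟩⟩
  simp

theorem stepU {E : Set Edg} {x y : ℤ} (h : (x, y + 1, true) ∈ E) : DReach E (x, y) (x, y + 1) := by
  refine DAdj.reach ⟨(x, y + 1, true), h, Or.inl ⟨?_, rfl⟩⟩
  simp

theorem rowR {E : Set Edg} {y x1 x2 : ℤ} (h12 : x1 ≤ x2)
    (h : ∀ x, x1 ≤ x → x < x2 → (x + 1, y, false) ∈ E) : DReach E (x1, y) (x2, y) := by
  induction x2, h12 using Int.leInduction with
  | base => exact DReach.refl _ _
  | succ x hx ih =>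
    exact (ih fun x' h1 h2 => h x' h1 (by omega)).trans (stepR (h x hx (by omega)))

theorem colU {E : Set Edg} {x y1 y2 : ℤ} (h12 : y1 ≤ y2)
    (h : ∀ y, y1 ≤ y → y < y2 → (x, y + 1, true) ∈ E) : DReach E (x, y1) (x, y2) := by
  induction y2, h12 using Int.leInduction with
  | base => exact DReach.refl _ _
  | succ y hy ih =>
    exact (ih fun y' h1 h2 => h y' h1 (by omega)).trans (stepU (h y hy (by omega)))

/-- two faces near the same point are connected -/
theorem local_conn {E : Set Edg} {ε : ℝ} (hε : 0 < ε) {c : ℂ}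
    (hE : ∀ e : Edg, ‖pos ε (src e) - c‖ ≤ 7 * ε → ‖pos ε (tgt e) - c‖ ≤ 7 * ε → e ∈ E)
    {u v : Vtx} (hu : ‖cen ε u - c‖ ≤ 3 * ε) (hv : ‖cen ε v - c‖ ≤ 3 * ε) : DReach E u v := by
  have ur := (Complex.abs_re_le_norm _).trans hu
  have ui := (Complex.abs_im_le_norm _).trans hu
  have vr := (Complex.abs_re_le_norm _).trans hv
  have vi := (Complex.abs_im_le_norm _).trans hv
  simp only [cen, Complex.sub_re, Complex.sub_im, abs_le] at ur ui vr vi
  -- faces in the box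
  have hbox : ∀ x y : ℤ, |ε * ((x : ℝ) + 1 / 2) - c.re| ≤ 3 * ε →
      |ε * ((y : ℝ) + 1 / 2) - c.im| ≤ 3 * ε → ‖cen ε (x, y) - c‖ ≤ 6 * ε := by
    intro x y hx hy
    refine (norm_le_re_im _).trans ?_
    simp only [cen, Complex.sub_re, Complex.sub_im]
    linarith
  have hcor : ∀ x y a b : ℤ, (a = 0 ∨ a = 1) → (b = 0 ∨ b = 1) →
      ‖cen ε (x, y) - c‖ ≤ 6 * ε → ‖pos ε (x + a, y + b) - c‖ ≤ 7 * ε := by
    intro x y a b ha hb h
    have h1 := corner hε x y a b ha hb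
    have h2 : pos ε (x + a, y + b) - c =
        (pos ε (x + a, y + b) - cen ε (x, y)) + (cen ε (x, y) - c) := by ring
    rw [h2]
    exact (norm_add_le _ _).trans (by linarith)
  have hrow : ∀ x1 x2 y : ℤ, x1 ≤ x2 → -(3 * ε) ≤ ε * ((x1 : ℝ) + 1 / 2) - c.re →
      ε * ((x2 : ℝ) + 1 / 2) - c.re ≤ 3 * ε → |ε * ((y : ℝ) + 1 / 2) - c.im| ≤ 3 * ε →
      DReach E (x1, y) (x2, y) := by
    intro x1 x2 y h12 h1 h2 hy
    refine rowR h12 fun x hx1 hx2 => ?_
    have a1 : (x1 : ℝ) ≤ x := by exact_mod_cast hx1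
    have a2 : (x : ℝ) ≤ x2 := by exact_mod_cast hx2.le
    have b1 := mul_le_mul_of_nonneg_left a1 hε.le
    have b2 := mul_le_mul_of_nonneg_left a2 hε.le
    have h3 := hbox x y (abs_le.2 ⟨by linarith, by linarith⟩) hy
    refine hE _ ?_ ?_
    · have := hcor x y 1 0 (Or.inr rfl) (Or.inl rfl) h3
      simpa using this
    · have := hcor x y 1 1 (Or.inr rfl) (Or.inr rfl) h3
      simpa using this
  have hcol : ∀ x y1 y2 : ℤ, y1 ≤ y2 → -(3 * ε) ≤ ε * ((y1 : ℝ) + 1 / 2) - c.im →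
      ε * ((y2 : ℝ) + 1 / 2) - c.im ≤ 3 * ε → |ε * ((x : ℝ) + 1 / 2) - c.re| ≤ 3 * ε →
      DReach E (x, y1) (x, y2) := by
    intro x y1 y2 h12 h1 h2 hx
    refine colU h12 fun y hy1 hy2 => ?_
    have a1 : (y1 : ℝ) ≤ y := by exact_mod_cast hy1
    have a2 : (y : ℝ) ≤ y2 := by exact_mod_cast hy2.le
    have b1 := mul_le_mul_of_nonneg_left a1 hε.le
    have b2 := mul_le_mul_of_nonneg_left a2 hε.le
    have h3 := hbox x y hx (abs_le.2 ⟨by linarith, by linarith⟩)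
    refine hE _ ?_ ?_
    · have := hcor x y 0 1 (Or.inl rfl) (Or.inr rfl) h3
      simpa using this
    · have := hcor x y 1 1 (Or.inr rfl) (Or.inr rfl) h3
      simpa using this
  have k1 : DReach E (u.1, u.2) (v.1, u.2) := by
    rcases le_total u.1 v.1 with h | h
    · exact hrow _ _ _ h ur.1 vr.2 (abs_le.2 ui)
    · exact (hrow _ _ _ h vr.1 ur.2 (abs_le.2 ui)).symm
  have k2 : DReach E (v.1, u.2) (v.1, v.2) := by
    rcases le_total u.2 v.2 with h | h
    · exact hcol _ _ _ h ui.1 vi.2 (abs_le.2 vr)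
    · exact (hcol _ _ _ h vi.1 ui.2 (abs_le.2 vr)).symm
  exact k1.trans k2

/-- the face of a point -/
noncomputable def fc (ε : ℝ) (p : ℂ) : Vtx := (⌊p.re / ε⌋, ⌊p.im / ε⌋)

theorem fc_near {ε : ℝ} (hε : 0 < ε) (p : ℂ) : ‖cen ε (fc ε p) - p‖ ≤ ε := by
  refine (norm_le_re_im _).trans ?_
  have h : ∀ t : ℝ, |ε * (((⌊t / ε⌋ : ℤ) : ℝ) + 1 / 2) - t| ≤ ε / 2 := by
    intro t
    have h1 := Int.floor_le (t / ε)
    have h2 := Int.lt_floor_add_one (t / ε)
    rw [le_div_iff₀ hε] at h1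
    rw [div_lt_iff₀ hε] at h2
    rw [abs_le]
    constructor <;> nlinarith
  have h1 := h p.re
  have h2 := h p.im
  simp only [cen, fc, Complex.sub_re, Complex.sub_im]
  linarith

/-- the scalar product is bounded by the norms -/
theorem ip_le (ν v : ℂ) : ip ν v ≤ ‖ν‖ * ‖v‖ := by
  have h1 : ip ν v = (ν * (starRingEnd ℂ) v).re := by
    simp only [ip, Complex.mul_re, Complex.conj_re, Complex.conj_im]; ring
  rw [h1]
  refine (Complex.re_le_norm _).trans ?_
  rw [norm_mul, RCLike.norm_conj]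

/-- the `j`-th face in the direction `-e` -/
def zj (e z : Vtx) (j : ℕ) : Vtx := (z.1 - j * e.1, z.2 - j * e.2)

theorem nxt {e : Vtx} (he : e = (0, 1) ∨ e = (1, 0) ∨ e = (0, -1) ∨ e = (-1, 0)) (z : Vtx) (j : ℕ) :
    ∃ ed : Edg, ((dsrc ed = zj e z j ∧ dtgt ed = zj e z (j + 1)) ∨
      (dsrc ed = zj e z (j + 1) ∧ dtgt ed = zj e z j)) ∧
      (∃ a b : ℤ, (a = 0 ∨ a = 1) ∧ (b = 0 ∨ b = 1) ∧
        src ed = ((zj e z j).1 + a, (zj e z j).2 + b)) ∧
      (∃ a b : ℤ, (a = 0 ∨ a = 1) ∧ (b = 0 ∨ b = 1) ∧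
        tgt ed = ((zj e z j).1 + a, (zj e z j).2 + b)) ∧
      (∃ a b : ℤ, (a = 0 ∨ a = 1) ∧ (b = 0 ∨ b = 1) ∧
        src ed = ((zj e z (j + 1)).1 + a, (zj e z (j + 1)).2 + b)) := by
  rcases he with rfl | rfl | rfl | rfl
  · refine ⟨(z.1, z.2 - j, true), Or.inr ⟨?_, ?_⟩, ⟨0, 0, by simp, by simp, ?_⟩,
      ⟨1, 0, by simp, by simp, ?_⟩, ⟨0, 1, by simp, by simp, ?_⟩⟩ <;>
      simp only [zj, dsrc_true, dtgt_mk, src_mk, tgt_true, Prod.mk.injEq] <;> push_cast <;>
      constructor <;> ring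
  · refine ⟨(z.1 - j, z.2, false), Or.inr ⟨?_, ?_⟩, ⟨0, 0, by simp, by simp, ?_⟩,
      ⟨0, 1, by simp, by simp, ?_⟩, ⟨1, 0, by simp, by simp, ?_⟩⟩ <;>
      simp only [zj, dsrc_false, dtgt_mk, src_mk, tgt_false, Prod.mk.injEq] <;> push_cast <;>
      constructor <;> ring
  · refine ⟨(z.1, z.2 + j + 1, true), Or.inl ⟨?_, ?_⟩, ⟨0, 1, by simp, by simp, ?_⟩,
      ⟨1, 1, by simp, by simp, ?_⟩, ⟨0, 0, by simp, by simp, ?_⟩⟩ <;>
      simp only [zj, dsrc_true, dtgt_mk, src_mk, tgt_true, Prod.mk.injEq] <;> push_cast <;>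
      constructor <;> ring
  · refine ⟨(z.1 + j + 1, z.2, false), Or.inl ⟨?_, ?_⟩, ⟨1, 0, by simp, by simp, ?_⟩,
      ⟨1, 1, by simp, by simp, ?_⟩, ⟨0, 0, by simp, by simp, ?_⟩⟩ <;>
      simp only [zj, dsrc_false, dtgt_mk, src_mk, tgt_false, Prod.mk.injEq] <;> push_cast <;>
      constructor <;> ring

theorem zj_cen {e : Vtx} {ε : ℝ} (z : Vtx) (j : ℕ) :
    cen ε (zj e z j) - cen ε z = -(⟨(j * ε) * e.1, (j * ε) * e.2⟩ : ℂ) := by
  apply Complex.ext
  · simp only [cen, zj, Complex.sub_re, Complex.neg_re]; push_cast; ring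
  · simp only [cen, zj, Complex.sub_im, Complex.neg_im]; push_cast; ring

theorem zj_norm {e : Vtx} (he : e = (0, 1) ∨ e = (1, 0) ∨ e = (0, -1) ∨ e = (-1, 0)) {ε : ℝ}
    (hε : 0 < ε) (z : Vtx) (j : ℕ) : ‖cen ε (zj e z j) - cen ε z‖ ≤ j * ε := by
  have h0 : 0 ≤ (j : ℝ) * ε := by positivity
  rw [zj_cen, norm_neg]
  refine (norm_le_re_im _).trans ?_
  simp only
  rcases he with rfl | rfl | rfl | rfl <;> simp [abs_of_pos hε]

theorem sq_aux {ε t : ℝ} (hε : 0 < ε) (ht0 : 0 ≤ t) (ht1 : t ≤ 1) (x c c' : ℤ)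
    (hc : c = 0 ∨ c = 1) (hc' : c' = 0 ∨ c' = 1) :
    ε * (x : ℝ) ≤ ε * ((x + c : ℤ) : ℝ) + t * (ε * ((x + c' : ℤ) : ℝ) - ε * ((x + c : ℤ) : ℝ)) ∧
      ε * ((x + c : ℤ) : ℝ) + t * (ε * ((x + c' : ℤ) : ℝ) - ε * ((x + c : ℤ) : ℝ)) ≤
        ε * ((x : ℝ) + 1) := by
  have tε : 0 ≤ t * ε := by positivity
  have tε' : t * ε ≤ ε := mul_le_of_le_one_left hε.le ht1
  rcases hc with rfl | rfl <;> rcases hc' with rfl | rfl <;> push_cast <;> constructor <;>
    linarith

theorem sqr_cen {ε : ℝ} {u : Vtx} {p : ℂ} (h : p ∈ sqr ε u) : ‖p - cen ε u‖ ≤ ε := by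
  refine (norm_le_re_im _).trans ?_
  obtain ⟨⟨q1, q2⟩, q3, q4⟩ := h
  have r1 : |(p - cen ε u).re| ≤ ε / 2 := by
    rw [abs_le]
    simp only [cen, Complex.sub_re]
    constructor <;> linarith
  have r2 : |(p - cen ε u).im| ≤ ε / 2 := by
    rw [abs_le]
    simp only [cen, Complex.sub_im]
    constructor <;> linarith
  linarith

end FPx

open FPx

theorem t_FP1 : S_FP1 := by
  intro f g M α hf
  obtain ⟨l, H, hl, hH, hlip, -, -, hK, hint⟩ := Pool.Agent.Y989.SD.m_GA f g M α hf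
  obtain ⟨ρB, C, hρB, hC, hB⟩ := Pool.Agent.Y989.SD.m_GB f g M α hf
  obtain ⟨r, hr, hsm⟩ := Pool.Agent.Y989.SD.GD.small hC hf.al0
  have hHl : ∀ z ∈ disc, ∀ w ∈ disc, l * ‖z - w‖ ≤ ‖f z - f w‖ := fun z hz w hw => (hlip z hz w hw).1
  refine ⟨4 / l + 1, (2 * H + 11) + (2 * H + 11) / l, min (1 / 2) (min ρB r / (3 * H + 20)), 1,
    by positivity, by positivity, by positivity, one_pos, ?_⟩
  intro ε z w hε _ hKε hρ hzw
  set δ := 1 - ‖w‖ with hδ
  have hδ2 : δ ≤ 1 / 2 := hρ.trans (min_le_left _ _)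
  have hδ3 : (3 * H + 20) * δ ≤ min ρB r := by
    have := hρ.trans (min_le_right _ _)
    rw [le_div_iff₀ (by positivity)] at this
    linarith
  have hδB : (3 * H + 20) * δ ≤ ρB := hδ3.trans (min_le_left _ _)
  have hδr : (3 * H + 20) * δ ≤ r := hδ3.trans (min_le_right _ _)
  have hl4 : 0 < 4 / l * ε := by positivity
  have hεδ : ε ≤ δ := by linarith
  have h4ε : 4 * ε ≤ l * δ := by
    have h1 : 4 / l * ε ≤ δ := by linarith
    have h2 := mul_le_mul_of_nonneg_left h1 hl.le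
    have h3 : l * (4 / l * ε) = 4 * ε := by field_simp
    linarith
  have hδ0 : 0 < δ := lt_of_lt_of_le hε hεδ
  have hw1 : ‖w‖ < 1 := by linarith
  have hw2 : 1 / 2 ≤ ‖w‖ := by linarith
  have hwd : w ∈ disc := by
    unfold disc
    rw [mem_closedBall_zero_iff]; exact hw1.le
  have hwn : (‖w‖ : ℂ) ≠ 0 := by
    have : ‖w‖ ≠ 0 := by linarith
    exact_mod_cast this
  set w0 : ℂ := w / (‖w‖ : ℂ) with hw0
  have hw0n : ‖w0‖ = 1 := by
    rw [hw0, norm_div, Complex.norm_real, norm_norm, div_self (by linarith)]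
  have hw0d : w0 ∈ disc := by
    unfold disc
    rw [mem_closedBall_zero_iff, hw0n]
  have hww : ‖w - w0‖ = δ := by
    have h1 : w - w0 = ((‖w‖ - 1 : ℝ) : ℂ) * w0 := by
      rw [hw0]; push_cast; field_simp
    rw [h1, norm_mul, hw0n, mul_one, Complex.norm_real, Real.norm_eq_abs, abs_of_nonpos (by linarith)]
    linarith
  set ν := nu g w0 with hν
  have hνn : ‖ν‖ = 1 := Pool.Agent.Y989.SD.GD.nu_norm hw0n (hf.ne w0 hw0d)
  have hνs : ν.re ^ 2 + ν.im ^ 2 = 1 := by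
    have := Complex.normSq_apply ν
    rw [Complex.normSq_eq_norm_sq, hνn] at this
    linarith
  obtain ⟨e, he, hte⟩ := Pool.Agent.Y989.SD.GD.dir ν
  have hes := Pool.Agent.Y989.SD.GD.dir_sq he
  set A : ℝ := ν.re * (e.2 : ℝ) - ν.im * (e.1 : ℝ) with hA
  set B : ℝ := ν.re * e.1 + ν.im * e.2 with hBd
  have hAB : A ^ 2 + B ^ 2 = 1 := by
    rw [hA, hBd]
    linear_combination ((e.1 : ℝ) ^ 2 + (e.2 : ℝ) ^ 2) * hνs + hes
  have hB7 : 7 / 10 ≤ B := by
    have h0 : 0 ≤ B := (abs_nonneg A).trans hte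
    have h1 : A ^ 2 ≤ B ^ 2 := by
      rw [← sq_abs A]; exact pow_le_pow_left₀ (abs_nonneg _) hte 2
    by_contra hcon
    push Not at hcon
    nlinarith
  -- the number of steps
  set j0 : ℕ := ⌈2 * (H + 3) * δ / ε⌉₊ + 1 with hj0
  have hs1 : 2 * (H + 3) * δ + ε ≤ j0 * ε := by
    have h1 := Nat.le_ceil (2 * (H + 3) * δ / ε)
    rw [div_le_iff₀ hε] at h1
    rw [hj0]; push_cast
    linarith
  have hs2 : j0 * ε ≤ (2 * H + 8) * δ := by
    have h1 := Nat.ceil_lt_add_one (show 0 ≤ 2 * (H + 3) * δ / ε by positivity)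
    have h2 : ((⌈2 * (H + 3) * δ / ε⌉₊ : ℕ) : ℝ) * ε ≤ (2 * (H + 3) * δ / ε + 1) * ε :=
      mul_le_mul_of_nonneg_right h1.le hε.le
    have h3 : (2 * (H + 3) * δ / ε + 1) * ε = 2 * (H + 3) * δ + ε := by field_simp
    rw [hj0]; push_cast
    linarith
  -- the face at distance `j0` has a corner outside
  have hbad : pos ε (zj e z j0) ∉ f '' disc := by
    intro hin
    set v1 : ℂ := (pos ε (zj e z j0) - cen ε (zj e z j0)) + (cen ε z - f w) + (f w - f w0) with hv1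
    have n1 : ‖v1‖ ≤ (H + 3) * δ := by
      have a1 := corner hε (zj e z j0).1 (zj e z j0).2 0 0 (Or.inl rfl) (Or.inl rfl)
      simp only [add_zero] at a1
      have a2 : ‖cen ε z - f w‖ ≤ 2 * ε := by rw [norm_sub_rev]; exact hzw
      have a3 := (hlip w hwd w0 hw0d).2
      rw [hww] at a3
      refine (norm_add_le _ _).trans ?_
      have := norm_add_le (pos ε (zj e z j0) - cen ε (zj e z j0)) (cen ε z - f w)
      have a4 : ‖pos ε (zj e z j0) - cen ε (zj e z j0)‖ ≤ ε := a1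
      linarith
    have e1 : pos ε (zj e z j0) - f w0 = v1 + (cen ε (zj e z j0) - cen ε z) := by
      rw [hv1]; ring
    have n2 : ‖pos ε (zj e z j0) - f w0‖ ≤ (H + 3) * δ + j0 * ε := by
      rw [e1]
      exact (norm_add_le _ _).trans (add_le_add n1 (zj_norm he hε z j0))
    have n3 : ‖pos ε (zj e z j0) - f w0‖ ≤ (3 * H + 20) * δ := by
      refine n2.trans ?_
      linarith
    have h1 := (hB w0 hw0n _ (n3.trans hδB)).1 hin
    have h2 := hsm _ (norm_nonneg _) (n3.trans hδr)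
    have h3 : ip ν (pos ε (zj e z j0) - f w0) = ip ν v1 - (j0 * ε) * B := by
      rw [e1, zj_cen]
      simp only [ip, Complex.add_re, Complex.add_im, Complex.neg_re, Complex.neg_im]
      rw [hBd]; ring
    rw [h3] at h1
    have h4 := ip_le ν v1
    rw [hνn, one_mul] at h4
    have h5 : (j0 * ε) * (7 / 10) ≤ (j0 * ε) * B := mul_le_mul_of_nonneg_left hB7 (by positivity)
    have h6 : 0 < (H + 3) * δ := by positivity
    linarith
  -- the first face with a corner outside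
  have hex : ∃ j : ℕ, ∃ a b : ℤ, (a = 0 ∨ a = 1) ∧ (b = 0 ∨ b = 1) ∧
      pos ε ((zj e z j).1 + a, (zj e z j).2 + b) ∉ f '' disc :=
    ⟨j0, 0, 0, Or.inl rfl, Or.inl rfl, by simpa using hbad⟩
  classical
  set j1 := Nat.find hex with hj1
  have hj10 : j1 ≤ j0 := Nat.find_min' hex ⟨0, 0, Or.inl rfl, Or.inl rfl, by simpa using hbad⟩
  have hj1r : (j1 : ℝ) * ε ≤ (2 * H + 8) * δ := by
    have : (j1 : ℝ) ≤ j0 := by exact_mod_cast hj10
    exact (mul_le_mul_of_nonneg_right this hε.le).trans hs2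
  obtain ⟨a2, b2, ha2, hb2, hout⟩ := Nat.find_spec hex
  rw [← hj1] at hout
  have hgood : ∀ j, j < j1 → ∀ a b : ℤ, (a = 0 ∨ a = 1) → (b = 0 ∨ b = 1) →
      pos ε ((zj e z j).1 + a, (zj e z j).2 + b) ∈ f '' disc := by
    intro j hj a b ha hb
    by_contra hcon
    exact Nat.find_min hex hj ⟨a, b, ha, hb, hcon⟩
  have hdist : ∀ j, j ≤ j1 → ‖cen ε (zj e z j) - f w‖ ≤ (2 * H + 10) * δ := by
    intro j hj
    have h1 := zj_norm he hε z j
    have h2 : (j : ℝ) * ε ≤ j1 * ε :=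
      mul_le_mul_of_nonneg_right (by exact_mod_cast hj) hε.le
    have h3 : cen ε (zj e z j) - f w = (cen ε (zj e z j) - cen ε z) + (cen ε z - f w) := by ring
    have a2 : ‖cen ε z - f w‖ ≤ 2 * ε := by rw [norm_sub_rev]; exact hzw
    rw [h3]
    refine (norm_add_le _ _).trans ?_
    linarith
  have hj1pos : 0 < j1 := by
    rcases Nat.eq_zero_or_pos j1 with h | h
    · exfalso
      apply hout
      rw [h]
      have e0 : zj e z 0 = z := by simp [zj]
      rw [e0]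
      refine inD hK hint hl hHl hw1 ?_
      have h1 := corner hε z.1 z.2 a2 b2 ha2 hb2
      have h2 : pos ε (z.1 + a2, z.2 + b2) - f w =
        (pos ε (z.1 + a2, z.2 + b2) - cen ε (z.1, z.2)) + (cen ε z - f w) := by
        show _ = (pos ε (z.1 + a2, z.2 + b2) - cen ε z) + _
        ring
      have h3 : ‖cen ε z - f w‖ ≤ 2 * ε := by rw [norm_sub_rev]; exact hzw
      rw [h2]
      refine lt_of_le_of_lt (norm_add_le _ _) ?_
      linarith
    · exact h
  -- the path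
  have hpath : ∀ j, j ≤ j1 → DReach (↑(ES (TD f ε)) ∩ {e | ‖pos ε (src e) - f w‖ ≤
      ((2 * H + 11) + (2 * H + 11) / l) * δ}) z (zj e z j) := by
    intro j
    induction j with
    | zero =>
      intro _
      have e0 : zj e z 0 = z := by simp [zj]
      rw [e0]
      exact DReach.refl _ _
    | succ j ih =>
      intro hj
      obtain ⟨ed, h1, ⟨a, b, ha, hb, h2⟩, ⟨a', b', ha', hb', h3⟩, -⟩ := nxt he z j
      refine (ih (by omega)).trans (DAdj.reach ⟨ed, ⟨?_, ?_⟩, h1⟩)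
      · rw [Finset.mem_coe, mem_ES, Pool.Agent.Y989.SD.GD.TD_mem hK hε,
          Pool.Agent.Y989.SD.GD.TD_mem hK hε, h2, h3]
        exact ⟨hgood j (by omega) a b ha hb, hgood j (by omega) a' b' ha' hb'⟩
      · rw [Set.mem_ofPred_eq, h2]
        have k1 := corner hε (zj e z j).1 (zj e z j).2 a b ha hb
        have k2 := hdist j (by omega)
        have k3 : pos ε ((zj e z j).1 + a, (zj e z j).2 + b) - f w =
          (pos ε ((zj e z j).1 + a, (zj e z j).2 + b) - cen ε (zj e z j)) +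
            (cen ε (zj e z j) - f w) := by ring
        rw [k3]
        refine (norm_add_le _ _).trans ?_
        have k4 : 0 ≤ (2 * H + 11) / l * δ := by positivity
        have k5 : ‖pos ε ((zj e z j).1 + a, (zj e z j).2 + b) - cen ε (zj e z j)‖ ≤ ε := k1
        linarith
  -- the boundary point in the last face
  obtain ⟨jm, hjm⟩ : ∃ jm, j1 = jm + 1 := ⟨j1 - 1, by omega⟩
  obtain ⟨ed, -, ⟨a, b, ha, hb, h2⟩, -, ⟨a1, b1, ha1, hb1, h3⟩⟩ := nxt he z jm
  have hin : pos ε ((zj e z j1).1 + a1, (zj e z j1).2 + b1) ∈ f '' disc := by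
    rw [hjm, ← h3, h2]
    exact hgood jm (by omega) a b ha hb
  obtain ⟨θ, t, ht0, ht1, hθ⟩ := seg' hK hint hin hout
  set u := zj e z j1 with hu
  have hsq : f (cir θ) ∈ sqr ε u := by
    rw [hθ]
    have hx1 := sq_aux hε ht0 ht1 u.1 a1 a2 ha1 ha2
    have hx2 := sq_aux hε ht0 ht1 u.2 b1 b2 hb1 hb2
    unfold sqr
    simp only [Set.mem_ofPred_eq, pos, Complex.add_re, Complex.add_im, Complex.mul_re,
      Complex.mul_im, Complex.ofReal_re, Complex.ofReal_im, Complex.sub_re, Complex.sub_im,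
      zero_mul, sub_zero, add_zero]
    exact ⟨hx1, hx2⟩
  refine ⟨u, θ, hsq, ?_, hpath j1 le_rfl⟩
  have hcd : cir θ ∈ disc := Pool.Agent.Y989.SD.GD.cir_mem θ
  have k1 : ‖f (cir θ) - cen ε u‖ ≤ ε := sqr_cen hsq
  have k2 := hdist j1 le_rfl
  have k3 := hHl _ hcd _ hwd
  have k4 : f (cir θ) - f w = (f (cir θ) - cen ε u) + (cen ε u - f w) := by ring
  have k5 : ‖f (cir θ) - f w‖ ≤ (2 * H + 11) * δ := by
    rw [k4]
    refine (norm_add_le _ _).trans ?_
    linarith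
  have k6 : ‖cir θ - w‖ ≤ (2 * H + 11) * δ / l := by
    rw [le_div_iff₀ hl]
    linarith
  refine k6.trans ?_
  have k7 : (2 * H + 11) * δ / l = (2 * H + 11) / l * δ := by ring
  rw [k7]
  have k8 : 0 ≤ (2 * H + 11) * δ := by positivity
  linarith

theorem t_FP2 : S_FP2 := by
  intro f g M α hf
  obtain ⟨l, H, hl, hH, hlip, -, -, hK, hint⟩ := Pool.Agent.Y989.SD.m_GA f g M α hf
  refine ⟨8 / l, 7, 1, by positivity, by norm_num, one_pos, ?_⟩
  intro ε z z' a b hε _ ha hb hza hzb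
  have hKl : 8 * ε = l * (8 / l * ε) := by field_simp
  have hpos : 0 < 8 / l * ε := by positivity
  -- the points of the segment
  have hseg : ∀ p ∈ segment ℝ a b, 8 / l * ε ≤ 1 - ‖p‖ := by
    intro p hp
    have := (convex_closedBall (0 : ℂ) (1 - 8 / l * ε)).segment_subset
      (mem_closedBall_zero_iff.2 (show ‖a‖ ≤ 1 - 8 / l * ε by linarith))
      (mem_closedBall_zero_iff.2 (show ‖b‖ ≤ 1 - 8 / l * ε by linarith)) hp
    rw [mem_closedBall_zero_iff] at this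
    linarith
  set E : Set Edg := (↑(ES (TD f ε)) ∩ {e | ∃ p ∈ segment ℝ a b, ‖pos ε (src e) - f p‖ ≤ 7 * ε})
    with hE
  have hmem : ∀ p ∈ segment ℝ a b, ∀ e : Edg, ‖pos ε (src e) - f p‖ ≤ 7 * ε →
      ‖pos ε (tgt e) - f p‖ ≤ 7 * ε → e ∈ E := by
    intro p hp e h1 h2
    have h3 := hseg p hp
    have h4 := mul_le_mul_of_nonneg_left h3 hl.le
    refine ⟨?_, p, hp, h1⟩
    rw [Finset.mem_coe, mem_ES, Pool.Agent.Y989.SD.GD.TD_mem hK hε,
      Pool.Agent.Y989.SD.GD.TD_mem hK hε]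
    exact ⟨inD hK hint hl (fun z hz w hw => (hlip z hz w hw).1) (by linarith) (by linarith),
      inD hK hint hl (fun z hz w hw => (hlip z hz w hw).1) (by linarith) (by linarith)⟩
  -- the discretization
  obtain ⟨n, hn⟩ := exists_nat_gt (H * ‖b - a‖ / ε)
  have hn0 : 0 < n := by
    rcases Nat.eq_zero_or_pos n with rfl | h
    · have : 0 ≤ H * ‖b - a‖ / ε := by positivity
      simp only [Nat.cast_zero] at hn
      linarith
    · exact h
  have hnr : (0 : ℝ) < n := by exact_mod_cast hn0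
  set P : ℕ → ℂ := fun i => AffineMap.lineMap a b ((i : ℝ) / n) with hP
  have hPs : ∀ i ≤ n, P i ∈ segment ℝ a b := by
    intro i hi
    rw [segment_eq_image_lineMap]
    refine ⟨(i : ℝ) / n, ⟨by positivity, ?_⟩, rfl⟩
    rw [div_le_one hnr]; exact_mod_cast hi
  have hPd : ∀ i ≤ n, P i ∈ disc := by
    intro i hi
    have := hseg _ (hPs i hi)
    unfold disc
    rw [mem_closedBall_zero_iff]
    linarith
  have hstep : ∀ i, i + 1 ≤ n → ‖f (P (i + 1)) - f (P i)‖ ≤ ε := by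
    intro i hi
    have h1 := (hlip _ (hPd (i + 1) hi) _ (hPd i (by omega))).2
    have h2 : P (i + 1) - P i = ((1 / n : ℝ) : ℂ) * (b - a) := by
      simp only [hP, AffineMap.lineMap_apply, vsub_eq_sub, vadd_eq_add, Complex.real_smul]
      push_cast
      ring
    rw [h2, norm_mul, Complex.norm_real, Real.norm_eq_abs, abs_of_pos (by positivity)] at h1
    refine h1.trans ?_
    rw [div_lt_iff₀ hε] at hn
    have h3 : H * (1 / n * ‖b - a‖) = (H * ‖b - a‖) / n := by ring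
    rw [h3, div_le_iff₀ hnr]
    linarith
  have hchain : ∀ i ≤ n, DReach E z (fc ε (f (P i))) := by
    intro i
    induction i with
    | zero =>
      intro _
      have h0 : P 0 = a := by simp [hP]
      refine local_conn hε (hmem a (left_mem_segment ℝ a b)) ?_ ?_
      · rw [norm_sub_rev]; linarith
      · rw [h0]
        have := fc_near hε (f a)
        linarith
    | succ i ih =>
      intro hi
      refine (ih (by omega)).trans (local_conn hε (hmem (P i) (hPs i (by omega))) ?_ ?_)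
      · have := fc_near hε (f (P i))
        linarith
      · have h1 := fc_near hε (f (P (i + 1)))
        have h2 := hstep i hi
        have h3 : cen ε (fc ε (f (P (i + 1)))) - f (P i) =
            (cen ε (fc ε (f (P (i + 1)))) - f (P (i + 1))) + (f (P (i + 1)) - f (P i)) := by ring
        rw [h3]
        exact (norm_add_le _ _).trans (by linarith)
  have hend : P n = b := by
    simp only [hP]
    rw [div_self hnr.ne', AffineMap.lineMap_apply_one]
  have h1 := hchain n le_rfl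
  rw [hend] at h1
  refine h1.trans (local_conn hε (hmem b (right_mem_segment ℝ a b)) ?_ ?_)
  · have := fc_near hε (f b)
    linarith
  · rw [norm_sub_rev]; linarith

end Pool.Agent.J6H18.SL
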