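import Pool.Agent.J6H18.SL.FP
import Pool.Agent.J6H72.LP.Sch

/-!
Project SL: assembly of the four estimates and the harmonic measure.
-/

set_option autoImplicit false

namespace Pool.Agent.J6H18.SL

open Finset H974
open H973 (ES)
open Pool.Agent.Y989.SD (TD SmW hf disc mem_disc)
open Pool.Agent.J6H72.LP (Sch sch_bd)

theorem Dt.weaken {f : ℂ → ℂ} {K K' ε θ1 θ2 : ℝ} {z : Vtx} {w : ℂ} (h : K' ≤ K)
    (hD : Dt f K ε θ1 θ2 z w) : Dt f K' ε θ1 θ2 z w := by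
  have h1 : K' * ε ≤ K * ε := mul_le_mul_of_nonneg_right h hD.e0.le
  exact ⟨hD.e0, hD.h12, hD.h21, h1.trans hD.hI, h1.trans hD.hJ, h1.trans hD.hw, hD.hz⟩

theorem gh_nonneg {w : ℂ} {θ1 θ2 : ℝ} (hw : ‖w‖ < 1) (h : θ1 < θ2) : 0 ≤ gh w θ1 θ2 := by
  have h1 : 0 ≤ ad w θ1 θ2 := Metric.infDist_nonneg
  have h2 : 0 < 1 - ‖w‖ := by linarith
  have h3 : 0 < θ2 - θ1 := by linarith
  unfold gh
  positivity

theorem cube_le {a b C : ℝ} (ha : 0 ≤ a) (hb : 0 ≤ b) (hC : 0 < C) (h : a ≤ C * b) :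
    a ^ (1 / 3 : ℝ) ≤ C ^ (1 / 3 : ℝ) * b ^ (1 / 3 : ℝ) := by
  rw [← Real.mul_rpow hC.le hb]
  exact Real.rpow_le_rpow ha h (by norm_num)

/-- from cube roots of the elementary functions to Schramm's function -/
theorem schramm_of {c2 C2 k1 K1 : ℝ} (hc2 : 0 < c2) (hC2 : 0 < C2) (hk1 : 0 < k1) (hK1 : 0 < K1)
    {c C : ℝ} (hc : 0 < c) (hC : 0 < C) {g h p F : ℝ} (hg : 0 ≤ g) (hh : 0 ≤ h)
    (h1 : c2 * g ≤ h) (h2 : h ≤ C2 * g) (h3 : k1 * h ^ (1 / 3 : ℝ) ≤ F)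
    (h4 : F ≤ K1 * h ^ (1 / 3 : ℝ)) (h5 : c * g ^ (1 / 3 : ℝ) ≤ p) (h6 : p ≤ C * g ^ (1 / 3 : ℝ)) :
    c / (K1 * C2 ^ (1 / 3 : ℝ)) * F ≤ p ∧
      p ≤ C * (1 / c2) ^ (1 / 3 : ℝ) / k1 * F := by
  have e1 : 0 < C2 ^ (1 / 3 : ℝ) := Real.rpow_pos_of_pos hC2 _
  have e2 : 0 < (1 / c2) ^ (1 / 3 : ℝ) := Real.rpow_pos_of_pos (by positivity) _
  have e3 := cube_le hh hg hC2 h2
  have e4 : g ≤ 1 / c2 * h := by
    rw [one_div, inv_mul_eq_div, le_div_iff₀ hc2]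
    linarith
  have e5 := cube_le hg hh (by positivity) e4
  have g0 : 0 ≤ g ^ (1 / 3 : ℝ) := Real.rpow_nonneg hg _
  have h0 : 0 ≤ h ^ (1 / 3 : ℝ) := Real.rpow_nonneg hh _
  generalize g ^ (1 / 3 : ℝ) = G at *
  generalize h ^ (1 / 3 : ℝ) = H at *
  generalize C2 ^ (1 / 3 : ℝ) = A at *
  generalize (1 / c2) ^ (1 / 3 : ℝ) = B at *
  constructor
  · refine le_trans ?_ h5
    rw [div_mul_eq_mul_div, div_le_iff₀ (by positivity)]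
    have : F ≤ K1 * (A * G) := h4.trans (mul_le_mul_of_nonneg_left e3 hK1.le)
    nlinarith
  · refine h6.trans ?_
    rw [div_mul_eq_mul_div, le_div_iff₀ hk1]
    have e6 : C * G ≤ C * (B * H) := mul_le_mul_of_nonneg_left e5 hC.le
    have e7 : C * B * (k1 * H) ≤ C * B * F := mul_le_mul_of_nonneg_left h3 (by positivity)
    nlinarith

theorem pr_compl' (S : Finset Edg) (A : Finset Edg → Prop) :
    Pr hf S (fun F => ¬ A F) = 1 - Pr hf S A := by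
  exact Pr_not (p := hf) S A

/-- the elementary function changes little when the point moves little -/
theorem gh_move {w w0 : ℂ} {θ1 θ2 : ℝ} (hw : ‖w‖ < 1) (h12 : θ1 < θ2)
    (h : ‖w - w0‖ ≤ (1 - ‖w‖) / 2) : gh w0 θ1 θ2 ≤ 9 * gh w θ1 θ2 := by
  have hδ : 0 < 1 - ‖w‖ := by linarith
  have h1 : |‖w‖ - ‖w0‖| ≤ (1 - ‖w‖) / 2 := (abs_norm_sub_norm_le w w0).trans h
  have h1' := abs_le.mp h1
  have hne : (arc θ1 θ2).Nonempty := ⟨_, θ1, ⟨le_rfl, h12.le⟩, rfl⟩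
  have hd : 1 - ‖w‖ ≤ ad w θ1 θ2 := by
    unfold ad
    refine (Metric.le_infDist hne).mpr ?_
    rintro _ ⟨t, -, rfl⟩
    rw [dist_eq_norm]
    have h2 := norm_sub_norm_le (Pool.Agent.Y989.SD.cir t) w
    have h3 : ‖Pool.Agent.Y989.SD.cir t‖ = 1 := Complex.norm_exp_ofReal_mul_I t
    rw [h3, norm_sub_rev] at h2
    exact h2
  have e1 : |ad w θ1 θ2 - ad w0 θ1 θ2| ≤ (1 - ‖w‖) / 2 := by
    have t1 := Metric.infDist_le_infDist_add_dist (s := arc θ1 θ2) (x := w) (y := w0)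
    have t2 := Metric.infDist_le_infDist_add_dist (s := arc θ1 θ2) (x := w0) (y := w)
    rw [dist_comm, dist_eq_norm] at t2
    rw [dist_eq_norm] at t1
    unfold ad
    rw [abs_le]
    constructor <;> linarith
  have e2 := abs_le.mp e1
  obtain ⟨δ, hδ'⟩ : ∃ δ, δ = 1 - ‖w‖ := ⟨_, rfl⟩
  obtain ⟨δ0, hδ0'⟩ : ∃ δ0, δ0 = 1 - ‖w0‖ := ⟨_, rfl⟩
  obtain ⟨l, hl⟩ : ∃ l, l = θ2 - θ1 := ⟨_, rfl⟩
  have hl0 : 0 < l := by rw [hl]; linarith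
  unfold gh
  rw [← hδ', ← hδ0', ← hl]
  rw [← hδ'] at hd e2 h1' hδ
  generalize ad w θ1 θ2 = d at *
  generalize ad w0 θ1 θ2 = d0 at *
  have a1 : δ0 ≤ 3 / 2 * δ := by linarith [h1'.1, h1'.2]
  have a2 : δ / 2 ≤ δ0 := by linarith [h1'.1, h1'.2]
  have a3 : d / 2 ≤ d0 := by linarith [e2.1, e2.2]
  have a4 : d0 ≤ 3 / 2 * d := by linarith [e2.1, e2.2]
  have a5 : 0 < d := by linarith
  have a6 : 0 < d0 := by linarith
  have f1 : δ0 / (δ0 + d0) ≤ 3 * (δ / (δ + d)) := by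
    rw [← mul_div_assoc, div_le_div_iff₀ (by linarith) (by linarith)]
    nlinarith
  have f2 : l / (l + d0) ≤ 3 * (l / (l + d)) := by
    rw [← mul_div_assoc, div_le_div_iff₀ (by linarith) (by linarith)]
    nlinarith
  calc δ0 / (δ0 + d0) * (l / (l + d0)) ≤ (3 * (δ / (δ + d))) * (3 * (l / (l + d))) := by
        apply mul_le_mul f1 f2 (by positivity) (by positivity)
    _ = _ := by ring

/-- the data, for a point of the face -/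
structure Dt' (f : ℂ → ℂ) (K ε θ1 θ2 : ℝ) (z : Vtx) (w : ℂ) : Prop where
  e0 : 0 < ε
  h12 : θ1 < θ2
  h21 : θ2 < θ1 + 2 * Real.pi
  hI : K * ε ≤ θ2 - θ1
  hJ : K * ε ≤ θ1 + 2 * Real.pi - θ2
  hw : K * ε ≤ 1 - ‖w‖
  hz : f w ∈ sqr ε z

/-- **Assembly.** -/
theorem main (hHM : S_HM) (hPL : S_PL) (hPU : S_PU) (hDL : S_DL) (hDU : S_DU) {f g : ℂ → ℂ}
    {M α : ℝ} (hS : SmW f g M α) : ∃ K c C ε0 : ℝ, 0 < K ∧ 0 < c ∧ 0 < C ∧ 0 < ε0 ∧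
    ∀ (ε θ1 θ2 : ℝ) (z : Vtx) (w : ℂ), ε ≤ ε0 → Dt' f K ε θ1 θ2 z w →
      (c * Sch (hmd w θ1 θ2) ≤ Pr hf (ES (TD f ε)) (Sep f ε θ1 θ2 z) ∧
        Pr hf (ES (TD f ε)) (Sep f ε θ1 θ2 z) ≤ C * Sch (hmd w θ1 θ2)) ∧
      (c * (1 - Sch (hmd w θ1 θ2)) ≤ 1 - Pr hf (ES (TD f ε)) (Sep f ε θ1 θ2 z) ∧
        1 - Pr hf (ES (TD f ε)) (Sep f ε θ1 θ2 z) ≤ C * (1 - Sch (hmd w θ1 θ2))) := by
  obtain ⟨c2, C2, hc2, hC2, hm⟩ := hHM
  obtain ⟨k1, K1, hk1, hK1, hs⟩ := sch_bd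
  obtain ⟨l, H, hl, hH, hlip, -, -, hKc, hint⟩ := Pool.Agent.Y989.SD.m_GA f g M α hS
  obtain ⟨Ka, ca, ea, hKa, hca, hea, ha⟩ := hPL f g M α hS
  obtain ⟨Kb, cb, eb, hKb, hcb, heb, hb⟩ := hPU f g M α hS
  obtain ⟨Kc, cc, ec, hKc', hcc, hec, hc⟩ := hDL f g M α hS
  obtain ⟨Kd, cd, ed, hKd, hcd, hed, hd⟩ := hDU f g M α hS
  have p1 : 0 < C2 ^ (1 / 3 : ℝ) := Real.rpow_pos_of_pos hC2 _
  have p2 : 0 < (1 / c2) ^ (1 / 3 : ℝ) := Real.rpow_pos_of_pos (by positivity) _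
  have p9 : 0 < (9 : ℝ) ^ (1 / 3 : ℝ) := Real.rpow_pos_of_pos (by norm_num) _
  obtain ⟨N, hN⟩ : ∃ N : ℝ, N = (9 : ℝ) ^ (1 / 3 : ℝ) := ⟨_, rfl⟩
  rw [← hN] at p9
  refine ⟨2 * (Ka + Kb + Kc + Kd + 2 / l), min (ca / N / (K1 * C2 ^ (1 / 3 : ℝ)))
    (cc / N / (K1 * C2 ^ (1 / 3 : ℝ))), max ((cb * N) * (1 / c2) ^ (1 / 3 : ℝ) / k1)
    ((cd * N) * (1 / c2) ^ (1 / 3 : ℝ) / k1), min (min ea eb) (min ec ed), by positivity,
    by positivity, by positivity, by positivity, ?_⟩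
  intro ε θ1 θ2 z w hε hD
  have he0 := hD.e0
  have hl0 : 0 < 2 / l := by positivity
  have hKw : 2 * (Ka + Kb + Kc + Kd + 2 / l) * ε ≤ 1 - ‖w‖ := hD.hw
  have hle : 2 / l * ε ≤ (1 - ‖w‖) / 2 := by
    have : 0 ≤ (Ka + Kb + Kc + Kd) * ε := by positivity
    nlinarith
  have hw : ‖w‖ < 1 := by
    have : 0 < 2 / l * ε := by positivity
    linarith
  -- the preimage of the centre
  have hcen := FPx.sqr_cen hD.hz
  have hin : cen ε z ∈ f '' disc := by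
    refine FPx.inD hKc hint hl (fun x hx y hy => (hlip x hx y hy).1) hw ?_
    rw [norm_sub_rev]
    refine lt_of_le_of_lt hcen ?_
    have h1 : l * (2 / l * ε) ≤ l * ((1 - ‖w‖) / 2) := mul_le_mul_of_nonneg_left hle hl.le
    have h2 : l * (2 / l * ε) = 2 * ε := by field_simp
    nlinarith
  obtain ⟨w0, hw0, hfw0⟩ := hin
  have hwd : w ∈ disc := mem_disc.mpr hw.le
  have hww : ‖w - w0‖ ≤ ε / l := by
    have h1 := (hlip w hwd w0 hw0).1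
    rw [hfw0] at h1
    rw [le_div_iff₀ hl]
    linarith
  have hww2 : ‖w - w0‖ ≤ (1 - ‖w‖) / 4 := by
    refine hww.trans ?_
    have : ε / l = (2 / l * ε) / 2 := by ring
    rw [this]
    linarith
  have hnn := abs_le.mp (abs_norm_sub_norm_le w w0)
  have hδ0 : (1 - ‖w‖) / 2 ≤ 1 - ‖w0‖ := by linarith [hnn.1, hnn.2]
  have hw01 : ‖w0‖ < 1 := by linarith
  have hDt : ∀ K', 0 < K' → K' ≤ Ka + Kb + Kc + Kd + 2 / l → Dt f K' ε θ1 θ2 z w0 := by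
    intro K' hK0 hK'
    have h1 : K' * ε ≤ (Ka + Kb + Kc + Kd + 2 / l) * ε := mul_le_mul_of_nonneg_right hK' he0.le
    have h2 : 0 ≤ (Ka + Kb + Kc + Kd + 2 / l) * ε := by positivity
    refine ⟨he0, hD.h12, hD.h21, ?_, ?_, ?_, hfw0⟩
    · have := hD.hI
      nlinarith
    · have := hD.hJ
      nlinarith
    · nlinarith
  have ia := ha ε θ1 θ2 z w0 (hε.trans ((min_le_left _ _).trans (min_le_left _ _)))
    (hDt Ka hKa (by linarith))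
  have ib := hb ε θ1 θ2 z w0 (hε.trans ((min_le_left _ _).trans (min_le_right _ _)))
    (hDt Kb hKb (by linarith))
  have ic := hc ε θ1 θ2 z w0 (hε.trans ((min_le_right _ _).trans (min_le_left _ _)))
    (hDt Kc hKc' (by linarith))
  have id' := hd ε θ1 θ2 z w0 (hε.trans ((min_le_right _ _).trans (min_le_right _ _)))
    (hDt Kd hKd (by linarith))
  -- move from `w0` to `w`
  have hmv1 : ∀ a b : ℝ, a < b → gh w0 a b ≤ 9 * gh w a b := fun a b hab =>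
    gh_move hw hab (hww2.trans (by linarith))
  have hmv2 : ∀ a b : ℝ, a < b → gh w a b ≤ 9 * gh w0 a b := fun a b hab =>
    gh_move hw01 hab (by rw [norm_sub_rev]; linarith)
  have mv : ∀ (a b cc' CC p : ℝ), a < b → 0 < cc' → 0 < CC →
      cc' * gh w0 a b ^ (1 / 3 : ℝ) ≤ p → p ≤ CC * gh w0 a b ^ (1 / 3 : ℝ) →
      cc' / N * gh w a b ^ (1 / 3 : ℝ) ≤ p ∧ p ≤ CC * N * gh w a b ^ (1 / 3 : ℝ) := by
    intro a b cc' CC p hab hc0 hC0 h1 h2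
    have g0 := gh_nonneg hw01 hab
    have g1 := gh_nonneg hw hab
    have i1 := cube_le g0 g1 (by norm_num) (hmv1 a b hab)
    have i2 := cube_le g1 g0 (by norm_num) (hmv2 a b hab)
    rw [← hN] at i1 i2
    constructor
    · refine le_trans ?_ h1
      rw [div_mul_eq_mul_div, div_le_iff₀ p9]
      nlinarith
    · refine h2.trans ?_
      nlinarith
  have g1 := gh_nonneg hw hD.h12
  have g2 := gh_nonneg hw hD.h21
  obtain ⟨m1, m2, m3⟩ := hm w θ1 θ2 hw hD.h12 hD.h21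
  obtain ⟨m4, m5, -⟩ := hm w θ2 (θ1 + 2 * Real.pi) hw hD.h21 (by linarith [hD.h12])
  have n1 : 0 ≤ hmd w θ1 θ2 := le_trans (by positivity) m1
  have n2 : 0 ≤ hmd w θ2 (θ1 + 2 * Real.pi) := le_trans (by positivity) m4
  obtain ⟨⟨s1, s2⟩, s3, s4⟩ := hs (hmd w θ1 θ2) n1 (by linarith)
  have e1 : 1 - hmd w θ1 θ2 = hmd w θ2 (θ1 + 2 * Real.pi) := by linarith
  rw [e1] at s3 s4
  rw [pr_compl'] at ic id'
  obtain ⟨ja, jb⟩ := mv _ _ _ _ _ hD.h12 hca hcb ia ib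
  obtain ⟨jc, jd⟩ := mv _ _ _ _ _ hD.h21 hcc hcd ic id'
  have q1 := schramm_of hc2 hC2 hk1 hK1 (by positivity) (by positivity) g1 n1 m1 m2 s1 s2 ja jb
  have q2 := schramm_of hc2 hC2 hk1 hK1 (by positivity) (by positivity) g2 n2 m4 m5 s3 s4 jc jd
  have F1 : 0 ≤ Sch (hmd w θ1 θ2) := le_trans (by positivity) s1
  have F2 : 0 ≤ 1 - Sch (hmd w θ1 θ2) := le_trans (by positivity) s3
  refine ⟨⟨?_, ?_⟩, ?_, ?_⟩
  · exact (mul_le_mul_of_nonneg_right (min_le_left _ _) F1).trans q1.1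
  · exact q1.2.trans (mul_le_mul_of_nonneg_right (le_max_left _ _) F1)
  · exact (mul_le_mul_of_nonneg_right (min_le_right _ _) F2).trans q2.1
  · exact q2.2.trans (mul_le_mul_of_nonneg_right (le_max_right _ _) F2)

end Pool.Agent.J6H18.SL
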