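import Pool.Agent.J6H18.SL.Stm

/-!
Item GDS: the lattice of the faces of a `C^(1,α)` Jordan domain is regular.
-/

set_option autoImplicit false

namespace Pool.Agent.J6H18.SL

open Finset H974
open H973 (ES EV BX mem_BX)
open Pool.Agent.Y989.SD (disc cir pos TD SmW near hf btT Win XT HT Lp Flat emb QB mem_QB GDc)
open TH976 (sd sd_self sd_comm sd_tri)
open Pool.Agent.J6H18.GD (Jn Ct Rd GD eS dc Near Chn bt_near dc_le sd_pos_le chn_D gd_S)
open Pool.Agent.H389R2.CD (ArS)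
open Pool.Agent.Y989.SD.WIN (btT_iff)

namespace GDSaux

theorem mem_Sq {T : Finset Vtx} {x : Vtx} :
    x ∈ Sq T ↔ x ∈ T ∧ (x.1 + 1, x.2) ∈ T ∧ (x.1, x.2 + 1) ∈ T ∧ (x.1 + 1, x.2 + 1) ∈ T := by
  unfold Sq
  rw [Finset.mem_filter]

/-- a vertex of `T` at distance `≤ 3` of the complement is close to the base of a window -/
theorem win_of {f : ℂ → ℂ} {ε ρ B α : ℝ} (hε : 0 < ε) (h : GDc f ε ρ B α) {b : Vtx}
    (hb : b ∈ TD f ε) : ∃ w, Win (TD f ε) w ⌊ρ / ε⌋ B α ∧ sd b w ≤ dc (TD f ε) b + 3 := by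
  obtain ⟨w, hw⟩ := Pool.Agent.J6H18.GD.near_D hε h hb
  exact ⟨w, hw.1, hw.2⟩

/-- a neighbour outside `Sq T` gives a close vertex outside `T` -/
theorem dc_of_out {T : Finset Vtx} {b y : Vtx} (h : sd b y ≤ 1) (hy : y ∉ Sq T) : dc T b ≤ 2 := by
  rw [mem_Sq] at hy
  have key : ∀ z : Vtx, sd y z ≤ 1 → z ∉ T → dc T b ≤ 2 := by
    intro z hz hzT
    have h1 := dc_le (v := b) hzT
    have h2 := sd_tri b y z
    omega
  by_cases h1 : y ∈ T
  · by_cases h2 : (y.1 + 1, y.2) ∈ T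
    · by_cases h3 : (y.1, y.2 + 1) ∈ T
      · by_cases h4 : (y.1 + 1, y.2 + 1) ∈ T
        · exact absurd ⟨h1, h2, h3, h4⟩ hy
        · exact key _ (by unfold sd; simp only; omega) h4
      · exact key _ (by unfold sd; simp only; omega) h3
    · exact key _ (by unfold sd; simp only; omega) h2
  · exact key _ (by unfold sd; omega) h1

theorem btT_out {T : Finset Vtx} {b : Vtx} (h : btT T b) : ∃ y, y ∉ T ∧ sd b y ≤ 1 := by
  rcases h.2 with h1 | h1 | h1 | h1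
  · exact ⟨_, h1, by unfold sd; simp only; omega⟩
  · exact ⟨_, h1, by unfold sd; simp only; omega⟩
  · exact ⟨_, h1, by unfold sd; simp only; omega⟩
  · exact ⟨_, h1, by unfold sd; simp only; omega⟩

/-- above the base of a window there is an element of `Sq T` -/
theorem up_Sq {T : Finset Vtx} {w : Vtx} {L : ℤ} {B α : ℝ} (hL : 100 ≤ L) (h : Win T w L B α) :
    ∃ x ∈ Sq T, sd w x ≤ 10 := by
  obtain ⟨e, he, hh, s, hlp, -, -, hT⟩ := h
  have h0 := hlp.zero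
  have h1 := hlp.lip 0
  have h2 := hlp.lip (-1)
  rw [show (0 : ℤ) + 1 = 1 by norm_num, h0, abs_le] at h1
  rw [show (-1 : ℤ) + 1 = 0 by norm_num, h0, abs_le] at h2
  have key : ∀ p q : ℤ, -1 ≤ p → p ≤ 1 → 9 ≤ q → q ≤ 11 → emb e w (p, q) ∈ T := by
    intro p q hp1 hp2 hq1 hq2
    rw [hT (p, q) (by rw [mem_QB]; simp only; omega)]
    show hh p ≤ q
    have : p = -1 ∨ p = 0 ∨ p = 1 := by omega
    rcases this with rfl | rfl | rfl
    · omega
    · omega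
    · omega
  rcases he with rfl | rfl | rfl | rfl
  · refine ⟨(w.1, w.2 + 10), ?_, by unfold sd; simp only; omega⟩
    rw [mem_Sq]
    have e1 := key 0 10 (by norm_num) (by norm_num) (by norm_num) (by norm_num)
    have e2 := key 1 10 (by norm_num) (by norm_num) (by norm_num) (by norm_num)
    have e3 := key 0 11 (by norm_num) (by norm_num) (by norm_num) (by norm_num)
    have e4 := key 1 11 (by norm_num) (by norm_num) (by norm_num) (by norm_num)
    unfold emb at e1 e2 e3 e4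
    ring_nf at e1 e2 e3 e4 ⊢
    exact ⟨e1, e2, e3, e4⟩
  · refine ⟨(w.1 + 10, w.2), ?_, by unfold sd; simp only; omega⟩
    rw [mem_Sq]
    have e1 := key 0 10 (by norm_num) (by norm_num) (by norm_num) (by norm_num)
    have e2 := key 0 11 (by norm_num) (by norm_num) (by norm_num) (by norm_num)
    have e3 := key (-1) 10 (by norm_num) (by norm_num) (by norm_num) (by norm_num)
    have e4 := key (-1) 11 (by norm_num) (by norm_num) (by norm_num) (by norm_num)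
    unfold emb at e1 e2 e3 e4
    ring_nf at e1 e2 e3 e4 ⊢
    exact ⟨e1, e2, e3, e4⟩
  · refine ⟨(w.1, w.2 - 10), ?_, by unfold sd; simp only; omega⟩
    rw [mem_Sq]
    have e1 := key 0 10 (by norm_num) (by norm_num) (by norm_num) (by norm_num)
    have e2 := key (-1) 10 (by norm_num) (by norm_num) (by norm_num) (by norm_num)
    have e3 := key 0 9 (by norm_num) (by norm_num) (by norm_num) (by norm_num)
    have e4 := key (-1) 9 (by norm_num) (by norm_num) (by norm_num) (by norm_num)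
    unfold emb at e1 e2 e3 e4
    ring_nf at e1 e2 e3 e4 ⊢
    exact ⟨e1, e2, e3, e4⟩
  · refine ⟨(w.1 - 10, w.2), ?_, by unfold sd; simp only; omega⟩
    rw [mem_Sq]
    have e1 := key 0 10 (by norm_num) (by norm_num) (by norm_num) (by norm_num)
    have e2 := key 0 9 (by norm_num) (by norm_num) (by norm_num) (by norm_num)
    have e3 := key 1 10 (by norm_num) (by norm_num) (by norm_num) (by norm_num)
    have e4 := key 1 9 (by norm_num) (by norm_num) (by norm_num) (by norm_num)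
    unfold emb at e1 e2 e3 e4
    ring_nf at e1 e2 e3 e4 ⊢
    exact ⟨e1, e2, e3, e4⟩

/-- every vertex of the domain is close to a face of the domain -/
theorem near_Sq {f : ℂ → ℂ} {ε ρ B α : ℝ} (hε : 0 < ε) (h : GDc f ε ρ B α)
    (hL : 100 ≤ ⌊ρ / ε⌋) {x : Vtx} (hx : x ∈ TD f ε) : ∃ x' ∈ Sq (TD f ε), sd x x' ≤ 30 := by
  by_cases hS : x ∈ Sq (TD f ε)
  · exact ⟨x, hS, by rw [sd_self]; omega⟩
  · have h1 : dc (TD f ε) x ≤ 2 := dc_of_out (b := x) (by rw [sd_self]; omega) hS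
    obtain ⟨w, hw, hd⟩ := win_of hε h hx
    obtain ⟨x', hx', hd'⟩ := up_Sq hL hw
    refine ⟨x', hx', ?_⟩
    have := sd_tri x w x'
    omega

/-- windows of `Sq (TD f ε)` -/
theorem near_S {f : ℂ → ℂ} {ε ρ B α B' : ℝ} (hε : 0 < ε) (h : GDc f ε ρ B α)
    (hL : 100 ≤ ⌊ρ / ε⌋)
    (hB' : ∀ (T : Finset Vtx) (v : Vtx) (L : ℤ), 100 ≤ L →
      Win T v L B α → ∀ b, btT (Sq T) b → b ∈ BX v 20 →
        ∃ w', b ∈ BX w' 3 ∧ Win (Sq T) w' (L - 50) B' α)
    {v : Vtx} (hv : v ∈ Sq (TD f ε)) : ∃ w, Near (Sq (TD f ε)) v w (⌊ρ / ε⌋ - 50) B' α := by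
  obtain ⟨b, hb, hvb⟩ := bt_near hv
  obtain ⟨y, hy, hby⟩ := btT_out hb
  have h1 : dc (TD f ε) b ≤ 2 := dc_of_out hby hy
  have hbT : b ∈ TD f ε := (mem_Sq.mp hb.1).1
  obtain ⟨w, hw, hd⟩ := win_of hε h hbT
  obtain ⟨w', hw', hwin⟩ := hB' (TD f ε) w _ hL hw b hb (by
    rw [mem_BX]
    have : sd b w ≤ 5 := by omega
    unfold sd at this
    omega)
  refine ⟨w', hwin, ?_⟩
  rw [mem_BX] at hw'
  have h2 : sd b w' ≤ 3 := by
    unfold sd
    omega
  have := sd_tri v b w'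
  omega

/-- chains in the lattice of faces -/
theorem chn_S {f : ℂ → ℂ} {ε ρ B α c : ℝ} {M : ℕ} (hc : 0 < c) (hε : 0 < ε) (hε1 : ε ≤ c / 2000)
    (h : GDc f ε ρ B α) (hL : 100 ≤ ⌊ρ / ε⌋) (hM : Chn (TD f ε) ⌊(c / 2) / ε⌋₊ M) :
    Chn (Sq (TD f ε)) ⌊c / ε⌋₊ M := by
  intro u hu v hv
  have huT : u ∈ TD f ε := (mem_Sq.mp hu).1
  have hvT : v ∈ TD f ε := (mem_Sq.mp hv).1
  obtain ⟨x, hx0, hxM, hxT, hxs⟩ := hM u huT v hvT
  have hex : ∀ j, ∃ x' ∈ Sq (TD f ε), sd (x j) x' ≤ 30 ∧ (j = 0 → x' = u) ∧ (j = M → x' = v) := by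
    intro j
    by_cases h0 : j = 0
    · by_cases h1 : j = M
      · refine ⟨u, hu, ?_, fun _ => rfl, fun _ => ?_⟩
        · rw [h0, hx0, sd_self]; omega
        · rw [← hx0, ← hxM, ← h1, h0]
      · refine ⟨u, hu, ?_, fun _ => rfl, fun h => absurd h h1⟩
        rw [h0, hx0, sd_self]; omega
    · by_cases h1 : j = M
      · refine ⟨v, hv, ?_, fun h => absurd h h0, fun _ => rfl⟩
        rw [h1, hxM, sd_self]; omega
      · obtain ⟨x', hx', hd⟩ := near_Sq hε h hL (hxT j)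
        exact ⟨x', hx', hd, fun h => absurd h h0, fun h => absurd h h1⟩
  choose x' hS hd h0 h1 using hex
  refine ⟨x', h0 0 rfl, h1 M rfl, hS, ?_⟩
  intro j hj
  have g1 := hd j
  have g2 := hd (j + 1)
  have g3 := hxs j hj
  have g4 := sd_tri (x' j) (x j) (x' (j + 1))
  have g5 := sd_tri (x j) (x (j + 1)) (x' (j + 1))
  have g6 := sd_comm (x' j) (x j)
  have g7 : ⌊(c / 2) / ε⌋₊ + 480 ≤ ⌊c / ε⌋₊ := by
    apply Nat.le_floor
    push_cast
    have k1 : ((⌊(c / 2) / ε⌋₊ : ℕ) : ℝ) ≤ (c / 2) / ε := Nat.floor_le (by positivity)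
    have k2 : (480 : ℝ) ≤ (c / 2) / ε := by
      rw [le_div_iff₀ hε]
      linarith
    have k3 : c / ε = (c / 2) / ε + (c / 2) / ε := by ring
    linarith
  omega

end GDSaux

open GDSaux in
/-- **Item GDS.** -/
theorem t_GDS (hA : ArS) (hW : S_WRS) : S_GDS := by
  intro f g M α hf
  obtain ⟨l, H, hl, hH, hlip, -, -, hK, hint⟩ := Pool.Agent.Y989.SD.m_GA f g M α hf
  obtain ⟨ρ, B, ε0, hρ, hε0, hG⟩ := Pool.Agent.Y989.SD.m_GD f g M α hf
  obtain ⟨B', hB'⟩ := hW B α hf.al0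
  set c : ℝ := ρ / 80000 with hc
  have hc0 : 0 < c := by positivity
  have hc2 : 0 < c / 2 := by positivity
  obtain ⟨N, hN⟩ := chn_D (ρ := ρ) (B := B) (α := α) hH hc2
    (fun z hz w hw => (hlip z hz w hw).2) hK hint
  obtain ⟨κ, k, hgd⟩ := gd_S hA (B := B') hf.al0 N
  refine ⟨c, min ε0 (c / 2000), κ, k, hc0, lt_min hε0 (by positivity), fun ε hε hε1 => ?_⟩
  have hε2 : ε ≤ ε0 := hε1.trans (min_le_left _ _)
  have hε3 : ε ≤ c / 2000 := hε1.trans (min_le_right _ _)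
  have hGε : GDc f ε ρ B α := hG ε hε hε2
  have hL : 100 ≤ ⌊ρ / ε⌋ := by
    rw [Int.le_floor]
    push_cast
    rw [le_div_iff₀ hε]
    rw [hc] at hε3
    linarith
  refine hgd (Sq (TD f ε)) (⌊ρ / ε⌋ - 50) ⌊c / ε⌋₊ ?_ ?_
    (chn_S hc0 hε hε3 hGε hL (hN ε hε (by linarith) hGε)) (fun v hv => near_S hε hGε hL hB' hv)
  · apply Nat.le_floor
    rw [le_div_iff₀ hε]
    push_cast
    linarith
  · have h1 : (⌊c / ε⌋₊ : ℝ) ≤ c / ε := Nat.floor_le (by positivity)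
    have h2 : 20000 * ((⌊c / ε⌋₊ : ℕ) : ℤ) + 50 ≤ ⌊ρ / ε⌋ := by
      rw [Int.le_floor]
      push_cast
      rw [le_div_iff₀ hε] at h1 ⊢
      rw [hc] at h1 hε3
      nlinarith
    linarith

end Pool.Agent.J6H18.SL
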