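import Pool.Agent.J6H18.SL.Stm

/-! Project SL (helper37): item HM, harmonic measure of an arc in the disc up to constants. -/

set_option autoImplicit false

namespace Pool.Agent.J6H18.SL

open Pool.Agent.Y989.SD (cir)

namespace HM

theorem cir_norm (t : ℝ) : ‖cir t‖ = 1 := Complex.norm_exp_ofReal_mul_I t

theorem cir_cont : Continuous cir := by
  unfold cir
  fun_prop

theorem cir_sub_ne {w : ℂ} (hw : ‖w‖ < 1) (t : ℝ) : 0 < ‖cir t - w‖ := by
  have h1 := norm_sub_norm_le (cir t) w
  rw [cir_norm] at h1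
  linarith

theorem ker_cont {w : ℂ} (hw : ‖w‖ < 1) (a : ℝ) : Continuous (fun t : ℝ => a / ‖cir t - w‖ ^ 2) := by
  have h1 := cir_cont
  refine Continuous.div (by fun_prop) (by fun_prop) fun t => ?_
  have := cir_sub_ne hw t
  positivity

theorem total {w : ℂ} (hw : ‖w‖ < 1) (a : ℝ) :
    ∫ t in a..a + 2 * Real.pi, (1 - ‖w‖ ^ 2) / ‖cir t - w‖ ^ 2 = 2 * Real.pi := by
  have hper : Function.Periodic (fun t : ℝ => (1 - ‖w‖ ^ 2) / ‖cir t - w‖ ^ 2) (2 * Real.pi) := by
    intro t
    have : cir (t + 2 * Real.pi) = cir t := by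
      unfold cir
      push_cast
      rw [add_mul, Complex.exp_add, Complex.exp_two_pi_mul_I, mul_one]
    simp only [this]
  rw [hper.intervalIntegral_add_eq a 0, zero_add]
  have h1 : DiffContOnCl ℂ (fun _ : ℂ => (1 : ℂ)) (Metric.ball 0 1) := diffContOnCl_const
  have h2 := h1.circleAverage_poissonKernel_smul (w := w) (by simpa using hw)
  rw [Real.circleAverage_def] at h2
  have h3 : ∀ t : ℝ, (poissonKernel 0 w • fun _ : ℂ => (1 : ℂ)) (circleMap 0 1 t) =
      (((1 - ‖w‖ ^ 2) / ‖cir t - w‖ ^ 2 : ℝ) : ℂ) := by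
    intro t
    have e1 : circleMap 0 1 t = cir t := by
      simp [circleMap, cir]
    rw [e1, Pi.smul_apply', poissonKernel_def, sub_zero, sub_zero, cir_norm, Complex.real_smul, mul_one, one_pow]
  rw [intervalIntegral.integral_congr (fun t _ => h3 t), intervalIntegral.integral_ofReal, Complex.real_smul,
    ← Complex.ofReal_mul, Complex.ofReal_eq_one] at h2
  have hpi := Real.pi_pos
  field_simp at h2
  exact h2

theorem cir_lip (s t : ℝ) : ‖cir s - cir t‖ ≤ |s - t| := by
  have h1 : cir s - cir t = cir t * (Complex.exp (((s - t : ℝ) : ℂ) * Complex.I) - 1) := by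
    unfold cir
    rw [mul_sub, ← Complex.exp_add, mul_one]
    congr 2
    push_cast
    ring
  rw [h1, norm_mul, cir_norm, one_mul]
  have := Real.norm_exp_I_mul_ofReal_sub_one_le (x := s - t)
  rw [mul_comm Complex.I] at this
  simpa [Real.norm_eq_abs] using this

end HM

open HM in
/-- **Item HM.** -/
theorem t_HM : S_HM := by
  refine ⟨1 / (16 * Real.pi), 36, by positivity, by norm_num, fun w θ1 θ2 hw h12 h21 => ?_⟩
  have hpi := Real.pi_pos
  -- the nearest point
  have hc : IsCompact (arc θ1 θ2) := isCompact_Icc.image cir_cont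
  have hne : (arc θ1 θ2).Nonempty := ⟨cir θ1, θ1, ⟨le_refl _, h12.le⟩, rfl⟩
  obtain ⟨q, ⟨tq, htq, rfl⟩, hq⟩ := hc.exists_infDist_eq_dist hne w
  set d := ad w θ1 θ2 with hd
  have hd1 : d = ‖w - cir tq‖ := by rw [hd, ad, hq, dist_eq_norm]
  have hd1' : d = ‖cir tq - w‖ := by rw [hd1, norm_sub_rev]
  set δ := 1 - ‖w‖ with hδ
  have hδ0 : 0 < δ := by rw [hδ]; linarith
  have hδd : δ ≤ d := by
    rw [hd1', hδ]
    have := norm_sub_norm_le (cir tq) w
    rwa [cir_norm] at this
  have hd0 : 0 < d := hδ0.trans_le hδd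
  have hd2 : d ≤ 2 := by
    rw [hd1']
    have := norm_sub_le (cir tq) w
    rw [cir_norm] at this
    linarith
  have hle : ∀ t ∈ Set.Icc θ1 θ2, d ≤ ‖cir t - w‖ := by
    intro t ht
    have : Metric.infDist w (arc θ1 θ2) ≤ dist w (cir t) := Metric.infDist_le_dist_of_mem ⟨t, ht, rfl⟩
    rw [dist_eq_norm, norm_sub_rev] at this
    exact this
  set l := θ2 - θ1 with hl
  have hl0 : 0 < l := by rw [hl]; linarith
  have hw2 : δ ≤ 1 - ‖w‖ ^ 2 := by
    rw [hδ]
    nlinarith [norm_nonneg w]
  have hw3 : 1 - ‖w‖ ^ 2 ≤ 2 * δ := by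
    rw [hδ]
    nlinarith [norm_nonneg w]
  have hker := fun a => ker_cont hw a
  set J := ∫ t in θ1..θ2, 1 / ‖cir t - w‖ ^ 2 with hJ
  have hhm : hmd w θ1 θ2 = (1 - ‖w‖ ^ 2) * J / (2 * Real.pi) := by
    unfold hmd
    rw [hJ, ← intervalIntegral.integral_const_mul]
    congr 1
    refine intervalIntegral.integral_congr fun t _ => ?_
    ring
  -- lower bound for J
  have hJlow : l / (8 * d * (l + d)) ≤ J := by
    -- a subinterval of length m
    obtain ⟨m, hm0, hmd, hml, hm⟩ : ∃ m : ℝ, 0 < m ∧ m ≤ d ∧ m ≤ l / 2 ∧ l / (8 * d * (l + d)) ≤ m / (4 * d ^ 2) := by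
      rcases le_total (l / 2) d with h | h
      · refine ⟨l / 2, by positivity, h, le_refl _, ?_⟩
        rw [div_le_div_iff₀ (by positivity) (by positivity)]
        nlinarith [mul_pos hl0 hd0, mul_pos (mul_pos hl0 hd0) hl0]
      · refine ⟨d, hd0, le_refl _, h, ?_⟩
        rw [div_le_div_iff₀ (by positivity) (by positivity)]
        nlinarith [mul_pos hl0 hd0, mul_pos (mul_pos hd0 hd0) hl0, mul_pos (mul_pos hd0 hd0) hd0]
    obtain ⟨a, b, ha, hb, hab, hnear⟩ : ∃ a b : ℝ, θ1 ≤ a ∧ b ≤ θ2 ∧ b - a = m ∧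
        ∀ t ∈ Set.Icc a b, |t - tq| ≤ m := by
      rcases le_total tq ((θ1 + θ2) / 2) with h | h
      · refine ⟨tq, tq + m, htq.1, by linarith, by ring, fun t ht => ?_⟩
        rw [abs_of_nonneg (by linarith [ht.1])]
        linarith [ht.2]
      · refine ⟨tq - m, tq, by linarith, htq.2, by ring, fun t ht => ?_⟩
        rw [abs_of_nonpos (by linarith [ht.2])]
        linarith [ht.1]
    have hab' : a ≤ b := by linarith
    have h1 : ∫ t in a..b, 1 / ‖cir t - w‖ ^ 2 ≤ J := by
      rw [hJ]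
      refine intervalIntegral.integral_mono_interval ha hab' hb ?_ ((hker 1).intervalIntegrable _ _)
      exact Filter.Eventually.of_forall fun t => by positivity
    have h2 : ∫ t in a..b, 1 / (4 * d ^ 2) ≤ ∫ t in a..b, 1 / ‖cir t - w‖ ^ 2 := by
      refine intervalIntegral.integral_mono_on hab' (by simp) ((hker 1).intervalIntegrable _ _) fun t ht => ?_
      have h3 : ‖cir t - w‖ ≤ 2 * d := by
        have h4 : ‖cir t - w‖ ≤ ‖cir t - cir tq‖ + ‖cir tq - w‖ := by
          have := norm_add_le (cir t - cir tq) (cir tq - w)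
          rwa [sub_add_sub_cancel] at this
        have h5 := (cir_lip t tq).trans (hnear t ht)
        rw [← hd1'] at h4
        linarith
      have h4 := cir_sub_ne hw t
      have h5 : ‖cir t - w‖ ^ 2 ≤ 4 * d ^ 2 := by nlinarith
      exact one_div_le_one_div_of_le (by positivity) h5
    rw [intervalIntegral.integral_const, smul_eq_mul, hab] at h2
    calc l / (8 * d * (l + d)) ≤ m / (4 * d ^ 2) := hm
      _ = m * (1 / (4 * d ^ 2)) := by ring
      _ ≤ J := h2.trans h1
  -- upper bounds for J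
  have hJ1 : J ≤ l / d ^ 2 := by
    have h2 : J ≤ ∫ t in θ1..θ2, 1 / d ^ 2 := by
      rw [hJ]
      refine intervalIntegral.integral_mono_on h12.le ((hker 1).intervalIntegrable _ _) (by simp) fun t ht => ?_
      have h3 := hle t ht
      exact one_div_le_one_div_of_le (by positivity) (by gcongr)
    rw [intervalIntegral.integral_const, smul_eq_mul, ← hl] at h2
    rwa [div_eq_mul_one_div]
  have hJ2 : J ≤ 9 * Real.pi / d := by
    set w' : ℂ := ((1 - d / 2 : ℝ) : ℂ) * w with hw'
    have hn : ‖w'‖ ≤ 1 - d / 2 := by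
      rw [hw', norm_mul, Complex.norm_real, Real.norm_of_nonneg (by linarith)]
      nlinarith [norm_nonneg w]
    have hw1 : ‖w'‖ < 1 := by linarith
    have hk : d / 2 ≤ 1 - ‖w'‖ ^ 2 := by nlinarith [norm_nonneg w']
    have hpt : ∀ t ∈ Set.Icc θ1 θ2, 1 / ‖cir t - w‖ ^ 2 ≤ (9 / 4) * (1 / ‖cir t - w'‖ ^ 2) := by
      intro t ht
      have h3 := hle t ht
      have h4 : ‖cir t - w'‖ ≤ (3 / 2) * ‖cir t - w‖ := by
        have h5 : ‖cir t - w'‖ ≤ ‖cir t - w‖ + ‖w - w'‖ := by
          have := norm_add_le (cir t - w) (w - w')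
          rwa [sub_add_sub_cancel] at this
        have h6 : ‖w - w'‖ ≤ d / 2 := by
          have : w - w' = ((d / 2 : ℝ) : ℂ) * w := by
            rw [hw']
            push_cast
            ring
          rw [this, norm_mul, Complex.norm_real, Real.norm_of_nonneg (by positivity)]
          nlinarith [norm_nonneg w]
        linarith
      have h5 := cir_sub_ne hw1 t
      have h6 := cir_sub_ne hw t
      rw [mul_one_div, div_le_div_iff₀ (by positivity) (by positivity)]
      nlinarith
    have h1 : J ≤ ∫ t in θ1..θ2, (9 / 4) * (1 / ‖cir t - w'‖ ^ 2) := by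
      rw [hJ]
      exact intervalIntegral.integral_mono_on h12.le ((hker 1).intervalIntegrable _ _)
        (((ker_cont hw1 1).intervalIntegrable _ _).const_mul _) hpt
    have h2 : ∫ t in θ1..θ2, 1 / ‖cir t - w'‖ ^ 2 ≤ ∫ t in θ1..θ1 + 2 * Real.pi, 1 / ‖cir t - w'‖ ^ 2 := by
      refine intervalIntegral.integral_mono_interval (le_refl _) h12.le h21.le ?_
        ((ker_cont hw1 1).intervalIntegrable _ _)
      exact Filter.Eventually.of_forall fun t => by positivity
    have h3 : (1 - ‖w'‖ ^ 2) * ∫ t in θ1..θ1 + 2 * Real.pi, 1 / ‖cir t - w'‖ ^ 2 = 2 * Real.pi := by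
      refine Eq.trans ?_ (total hw1 θ1)
      rw [← intervalIntegral.integral_const_mul]
      refine intervalIntegral.integral_congr fun t _ => ?_
      ring
    set P := ∫ t in θ1..θ1 + 2 * Real.pi, 1 / ‖cir t - w'‖ ^ 2 with hP
    rw [intervalIntegral.integral_const_mul] at h1
    have hP0 : 0 ≤ P := by
      rw [hP]
      exact intervalIntegral.integral_nonneg (by linarith) fun t _ => by positivity
    have h4 : d / 2 * P ≤ 2 * Real.pi := by
      rw [← h3]
      gcongr
    have h5 : P ≤ 4 * Real.pi / d := by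
      rw [le_div_iff₀ hd0]
      linarith
    calc J ≤ 9 / 4 * P := h1.trans (by gcongr)
      _ ≤ 9 / 4 * (4 * Real.pi / d) := by gcongr
      _ = 9 * Real.pi / d := by ring
  have hJ0 : 0 ≤ J := by
    rw [hJ]
    exact intervalIntegral.integral_nonneg h12.le fun t _ => by positivity
  have hgh : gh w θ1 θ2 = δ / (δ + d) * (l / (l + d)) := rfl
  refine ⟨?_, ?_, ?_⟩
  · rw [hgh, hhm]
    have h1 : δ / (δ + d) ≤ δ / d := by
      apply div_le_div_of_nonneg_left hδ0.le hd0
      linarith
    calc 1 / (16 * Real.pi) * (δ / (δ + d) * (l / (l + d)))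
        ≤ 1 / (16 * Real.pi) * (δ / d * (l / (l + d))) := by gcongr
      _ = δ * (l / (8 * d * (l + d))) / (2 * Real.pi) := by
          field_simp
          ring
      _ ≤ (1 - ‖w‖ ^ 2) * J / (2 * Real.pi) := by
          have hw4 : 0 ≤ 1 - ‖w‖ ^ 2 := hδ0.le.trans hw2
          gcongr
  · rw [hgh, hhm]
    have h1 : δ / (2 * d) ≤ δ / (δ + d) := by
      apply div_le_div_of_nonneg_left hδ0.le (by linarith)
      linarith
    have h2 : (1 - ‖w‖ ^ 2) * J / (2 * Real.pi) ≤ 2 * δ * J / (2 * Real.pi) := by gcongr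
    rcases le_total l d with h | h
    · have h3 : l / (2 * d) ≤ l / (l + d) := by
        apply div_le_div_of_nonneg_left hl0.le (by linarith)
        linarith
      have hpi3 := Real.pi_gt_three
      calc (1 - ‖w‖ ^ 2) * J / (2 * Real.pi) ≤ 2 * δ * J / (2 * Real.pi) := h2
        _ ≤ 2 * δ * (l / d ^ 2) / (2 * Real.pi) := by gcongr
        _ = (4 / Real.pi) * (δ / (2 * d) * (l / (2 * d))) := by
            field_simp
            ring
        _ ≤ 36 * (δ / (2 * d) * (l / (2 * d))) := by
            have : 4 / Real.pi ≤ 36 := by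
              rw [div_le_iff₀ hpi]
              linarith
            gcongr
        _ ≤ 36 * (δ / (δ + d) * (l / (l + d))) := by gcongr
    · have h3 : 1 / 2 ≤ l / (l + d) := by
        rw [div_le_div_iff₀ (by norm_num) (by linarith)]
        linarith
      calc (1 - ‖w‖ ^ 2) * J / (2 * Real.pi) ≤ 2 * δ * J / (2 * Real.pi) := h2
        _ ≤ 2 * δ * (9 * Real.pi / d) / (2 * Real.pi) := by gcongr
        _ = 36 * (δ / (2 * d) * (1 / 2)) := by
            field_simp
            ring
        _ ≤ 36 * (δ / (δ + d) * (l / (l + d))) := by gcongr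
  · unfold hmd
    rw [← add_div, intervalIntegral.integral_add_adjacent_intervals ((hker _).intervalIntegrable _ _)
      ((hker _).intervalIntegrable _ _), total hw, div_self (by positivity)]

end Pool.Agent.J6H18.SL
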