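import Pool.Agent.J6H18.SL.Stm
import Pool.Agent.Y989.SD.T_WIN
import Pool.Agent.Y989.SD.T_TEL

/-!
Project SL: half-circuits (planarity), in the standard frame.
-/

set_option autoImplicit false

namespace Pool.Agent.J6H18.SL.Half

open Finset H974
open H973 (ES BX mem_BX mem_ES)
open Pool.Agent.Y989.SD (btT Lp QB mem_QB)
open Pool.Agent.Y989.SD.WIN (btT_iff)
open Pool.Agent.J6H18.SL (WI DA)

/-! ### paths of faces -/

theorem last_out {E : Set Edg} (Z : Vtx → Prop) {u v : Vtx} (h : DReach E u v) (hu : Z u)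
    (hv : ¬ Z v) : ∃ u' v', Z u' ∧ ¬ Z v' ∧ DAdj E u' v' ∧
      DReach (E ∩ {e | ¬ Z (dsrc e) ∧ ¬ Z (dtgt e)}) v' v := by
  have key : (¬ Z u ∧ DReach (E ∩ {e | ¬ Z (dsrc e) ∧ ¬ Z (dtgt e)}) u v) ∨
      ∃ u' v', Z u' ∧ ¬ Z v' ∧ DAdj E u' v' ∧
        DReach (E ∩ {e | ¬ Z (dsrc e) ∧ ¬ Z (dtgt e)}) v' v := by
    clear hu
    induction h using Relation.ReflTransGen.head_induction_on with
    | refl => exact Or.inl ⟨hv, DReach.refl _ _⟩
    | @head a b hab _ ih =>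
      rcases ih with ⟨h1, h2⟩ | h1
      · by_cases ha : Z a
        · exact Or.inr ⟨a, b, ha, h1, hab, h2⟩
        · left
          refine ⟨ha, DReach.trans (DAdj.reach ?_) h2⟩
          obtain ⟨e, he, hc⟩ := hab
          refine ⟨e, ⟨he, ?_⟩, hc⟩
          rcases hc with ⟨h3, h4⟩ | ⟨h3, h4⟩
          · exact ⟨by rw [h3]; exact ha, by rw [h4]; exact h1⟩
          · exact ⟨by rw [h3]; exact h1, by rw [h4]; exact ha⟩
      · exact Or.inr h1
  rcases key with ⟨h1, -⟩ | h1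
  · exact absurd hu h1
  · exact h1

theorem first_out {E : Set Edg} (Y : Vtx → Prop) {u v : Vtx} (h : DReach E u v) (hu : Y u)
    (hv : ¬ Y v) : ∃ u' v', Y u' ∧ ¬ Y v' ∧ DAdj E u' v' ∧
      DReach (E ∩ {e | Y (dsrc e) ∧ Y (dtgt e)}) u u' := by
  have key : (Y v ∧ DReach (E ∩ {e | Y (dsrc e) ∧ Y (dtgt e)}) u v) ∨
      ∃ u' v', Y u' ∧ ¬ Y v' ∧ DAdj E u' v' ∧
        DReach (E ∩ {e | Y (dsrc e) ∧ Y (dtgt e)}) u u' := by
    clear hv
    induction h with
    | refl => exact Or.inl ⟨hu, DReach.refl _ _⟩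
    | @tail a b _ hab ih =>
      rcases ih with ⟨h1, h2⟩ | h1
      · by_cases hb : Y b
        · left
          refine ⟨hb, DReach.trans h2 (DAdj.reach ?_)⟩
          obtain ⟨e, he, hc⟩ := hab
          refine ⟨e, ⟨he, ?_⟩, hc⟩
          rcases hc with ⟨h3, h4⟩ | ⟨h3, h4⟩
          · exact ⟨by rw [h3]; exact h1, by rw [h4]; exact hb⟩
          · exact ⟨by rw [h3]; exact hb, by rw [h4]; exact h1⟩
        · exact Or.inr ⟨a, b, h1, hb, hab, h2⟩
      · exact Or.inr h1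
  rcases key with ⟨h1, -⟩ | h1
  · exact absurd h1 hv
  · exact h1

/-! ### the modified configuration -/

/-- below the graph -/
def Out (h : ℤ → ℤ) (v : Vtx) : Prop := v.2 < h v.1

/-- the closed column -/
def C0 (ρ : ℤ) (v : Vtx) : Prop := (-ρ ≤ v.1 ∧ v.1 ≤ ρ) ∧ v.2 ≤ 3 * ρ + 1

/-- the tall box -/
def Tb (M : ℤ) (v : Vtx) : Prop := (-M ≤ v.1 ∧ v.1 ≤ M) ∧ (-(4 * M + 4) ≤ v.2 ∧ v.2 ≤ 4 * M + 4)

/-- the modified configuration -/
def Om (h : ℤ → ℤ) (ρ M : ℤ) (F : Set Edg) : Set Edg :=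
  {e | ¬ (C0 ρ (src e) ∧ C0 ρ (tgt e)) ∧ ((Out h (src e) ∧ Out h (tgt e)) ∨
    ((Tb M (src e) ∧ Tb M (tgt e)) ∧ (¬ Out h (src e) → ¬ Out h (tgt e) → e ∈ F)))}

theorem Om_iff {h : ℤ → ℤ} {ρ M : ℤ} {F : Set Edg} {e : Edg} {b c : Vtx}
    (hc : (src e = b ∧ tgt e = c) ∨ (src e = c ∧ tgt e = b)) :
    e ∈ Om h ρ M F ↔ ¬ (C0 ρ b ∧ C0 ρ c) ∧ ((Out h b ∧ Out h c) ∨
      ((Tb M b ∧ Tb M c) ∧ (¬ Out h b → ¬ Out h c → e ∈ F))) := by
  unfold Om
  rcases hc with ⟨h1, h2⟩ | ⟨h1, h2⟩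
  · rw [Set.mem_setOf_eq, h1, h2]
  · rw [Set.mem_setOf_eq, h1, h2]
    constructor <;> rintro ⟨h3, h4⟩
    · refine ⟨fun h => h3 h.symm, ?_⟩
      rcases h4 with h4 | ⟨h4, h5⟩
      · exact Or.inl h4.symm
      · exact Or.inr ⟨h4.symm, fun a b => h5 b a⟩
    · refine ⟨fun h => h3 h.symm, ?_⟩
      rcases h4 with h4 | ⟨h4, h5⟩
      · exact Or.inl h4.symm
      · exact Or.inr ⟨h4.symm, fun a b => h5 b a⟩

theorem hbd {h : ℤ → ℤ} (hL : Lp 3 h) {N x : ℤ} (h1 : -N ≤ x) (h2 : x ≤ N) :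
    -(3 * N) ≤ h x ∧ h x ≤ 3 * N := by
  have h3 := abs_le.mp (Pool.Agent.Y989.SD.TEL.lp_abs hL x)
  have h4 : |x| ≤ N := abs_le.mpr ⟨h1, h2⟩
  constructor <;> nlinarith [h3.1, h3.2]

/-- A path of faces from bottom to top which crosses only edges outside the modified configuration
contains a closed dual arm. -/
theorem da_of {h : ℤ → ℤ} (hL : Lp 3 h) {ρ M : ℤ} (hρ : 1 ≤ ρ) (hM : ρ + 2 ≤ M) {F : Set Edg}
    {x x' : ℤ} (hx : -(M + 2) ≤ x ∧ x < M + 2)
    (hD : DReach ((Om h ρ M F)ᶜ ∩ ↑(LRE (-(M + 2)) (M + 2) (-(4 * M + 20)) (4 * M + 20)))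
      (x, -(4 * M + 20) - 1) (x', 4 * M + 20)) :
    ∃ f g : Vtx, f ∈ BX (0, 0) (3 * ρ + 4) ∧ g ∉ BX (0, 0) (M - 2) ∧
      DReach {e | ((¬ Out h (src e) ∧ ¬ Out h (tgt e)) ∧ e ∉ F) ∧ (Tb M (src e) ∧ Tb M (tgt e))}
        f g := by
  obtain ⟨Z, hZ⟩ : ∃ Z : Vtx → Prop, Z = fun f => (-ρ - 1 ≤ f.1 ∧ f.1 ≤ ρ) ∧ f.2 ≤ 3 * ρ + 1 :=
    ⟨_, rfl⟩
  have hZ' : ∀ f : Vtx, Z f ↔ (-ρ - 1 ≤ f.1 ∧ f.1 ≤ ρ) ∧ f.2 ≤ 3 * ρ + 1 := by
    intro f; rw [hZ]
  -- edges of the column have both faces in `Z`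
  have hC : ∀ e : Edg, C0 ρ (src e) → C0 ρ (tgt e) → Z (dsrc e) ∧ Z (dtgt e) := by
    rintro ⟨p, q, _ | _⟩ h1 h2
    · rw [hZ', hZ']
      simp only [C0, src_mk, tgt_false, dsrc_false, dtgt_mk] at *
      omega
    · rw [hZ', hZ']
      simp only [C0, src_mk, tgt_true, dsrc_true, dtgt_mk] at *
      omega
  have hs : Z (x, -(4 * M + 20) - 1) := by
    rcases Relation.ReflTransGen.cases_head hD with h1 | ⟨s1, h1, -⟩
    · exfalso
      have := congrArg Prod.snd h1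
      simp only at this
      omega
    · obtain ⟨⟨p, q, b⟩, ⟨h2, h3⟩, h4⟩ := h1
      have hb := hbd hL (N := M + 2) (x := x) (by omega) (by omega)
      have hb' := hbd hL (N := M + 2) (x := x + 1) (by omega) (by omega)
      cases b
      · exfalso
        rw [Finset.mem_coe, mem_LRE_false] at h3
        simp only [dsrc_false, dtgt_mk, Prod.mk.injEq] at h4
        omega
      · rw [Finset.mem_coe, mem_LRE_true] at h3
        have hpq : p = x ∧ q = -(4 * M + 20) := by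
          rcases h4 with ⟨h4, -⟩ | ⟨-, h4⟩
          · simp only [dsrc_true, Prod.mk.injEq] at h4
            omega
          · simp only [dtgt_mk, Prod.mk.injEq] at h4
            omega
        obtain ⟨rfl, rfl⟩ := hpq
        by_cases hcc : C0 ρ (src ((p, -(4 * M + 20), true) : Edg)) ∧
            C0 ρ (tgt ((p, -(4 * M + 20), true) : Edg))
        · have := (hC _ hcc.1 hcc.2).1
          simpa using this
        · exfalso
          apply h2
          refine ⟨hcc, Or.inl ⟨?_, ?_⟩⟩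
          · simp only [Out, src_mk]; omega
          · simp only [Out, tgt_true]; omega
  have ht : ¬ Z (x', 4 * M + 20) := by
    rw [hZ']
    simp only
    omega
  obtain ⟨u', v', hu', hv', huv, hrest⟩ := last_out Z hD hs ht
  -- the relevant edges
  obtain ⟨G, hG⟩ : ∃ G : Set Edg, G = {e | (e ∉ Om h ρ M F ∧ ¬ (C0 ρ (src e) ∧ C0 ρ (tgt e)))} :=
    ⟨_, rfl⟩
  have hGmem : ∀ e, e ∉ Om h ρ M F → ¬ (Z (dsrc e) ∧ Z (dtgt e)) → e ∈ G := by
    intro e h1 h2
    rw [hG]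
    exact ⟨h1, fun h3 => h2 (hC e h3.1 h3.2)⟩
  have hreach : DReach G u' (x', 4 * M + 20) := by
    refine DReach.trans (DAdj.reach (v := v') ?_) (hrest.mono ?_)
    · obtain ⟨e, ⟨he, -⟩, hc⟩ := huv
      refine ⟨e, hGmem e he ?_, hc⟩
      rcases hc with ⟨h3, h4⟩ | ⟨h3, h4⟩
      · rw [h3, h4]; exact fun h => hv' h.2
      · rw [h3, h4]; exact fun h => hv' h.1
    · rintro e ⟨⟨he, -⟩, h3, h4⟩
      exact hGmem e he (fun h => h3 h.1)
  have hGout : ∀ e ∈ G, ¬ (Out h (src e) ∧ Out h (tgt e)) ∧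
      (((¬ Out h (src e) ∧ ¬ Out h (tgt e)) ∧ e ∉ F) ∨ ¬ (Tb M (src e) ∧ Tb M (tgt e))) := by
    intro e he
    rw [hG] at he
    obtain ⟨h1, h2⟩ := he
    unfold Om at h1
    rw [Set.mem_setOf_eq] at h1
    push Not at h1
    obtain ⟨h3, h4⟩ := h1 (by tauto)
    refine ⟨by tauto, ?_⟩
    by_cases h5 : Tb M (src e) ∧ Tb M (tgt e)
    · left
      obtain ⟨h6, h7, h8⟩ := h4 h5
      exact ⟨⟨h6, h7⟩, h8⟩
    · exact Or.inr h5
  -- the first face
  have hu1 : u' ∈ BX (0, 0) (3 * ρ + 4) := by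
    obtain ⟨e, he, hc⟩ : ∃ e, e ∉ Om h ρ M F ∧ ((dsrc e = u' ∧ dtgt e = v') ∨
        (dsrc e = v' ∧ dtgt e = u')) := by
      obtain ⟨e, ⟨he, -⟩, hc⟩ := huv
      exact ⟨e, he, hc⟩
    have heG : e ∈ G := by
      refine hGmem e he ?_
      rcases hc with ⟨h3, h4⟩ | ⟨h3, h4⟩
      · rw [h3, h4]; exact fun h => hv' h.2
      · rw [h3, h4]; exact fun h => hv' h.1
    have h1 := (hGout e heG).1
    rw [hZ'] at hu'
    rw [mem_BX]
    obtain ⟨u1, u2⟩ := u'
    simp only at hu' ⊢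
    have c1 := hbd hL (N := ρ + 1) (x := u1) (by omega) (by omega)
    have c2 := hbd hL (N := ρ + 1) (x := u1 + 1) (by omega) (by omega)
    have key : h u1 ≤ u2 + 1 ∨ h (u1 + 1) ≤ u2 + 1 := by
      obtain ⟨p, q, _ | _⟩ := e
      · simp only [Out, src_mk, tgt_false, dsrc_false, dtgt_mk, Prod.mk.injEq] at h1 hc
        rcases hc with ⟨⟨h3, h4⟩, -⟩ | ⟨-, h3, h4⟩
        · right
          have : p = u1 + 1 := by omega
          rw [this, h4] at h1
          omega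
        · left
          rw [h3, h4] at h1
          omega
      · simp only [Out, src_mk, tgt_true, dsrc_true, dtgt_mk, Prod.mk.injEq] at h1 hc
        have e1 : p = u1 := by rcases hc with ⟨⟨h3, h4⟩, -⟩ | ⟨-, h3, h4⟩ <;> exact h3
        have e2 : q ≤ u2 + 1 := by rcases hc with ⟨⟨h3, h4⟩, -⟩ | ⟨-, h3, h4⟩ <;> omega
        rw [e1] at h1
        by_contra hcon
        push Not at hcon
        apply h1
        constructor <;> omega
    omega
  -- follow the path until it uses an edge outside the tall box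
  obtain ⟨G1, hG1⟩ : ∃ G1 : Set Edg, G1 = {e | ((¬ Out h (src e) ∧ ¬ Out h (tgt e)) ∧ e ∉ F) ∧
      (Tb M (src e) ∧ Tb M (tgt e))} := ⟨_, rfl⟩
  have key : ∀ t, DReach G u' t → (∃ g, g ∉ BX (0, 0) (M - 2) ∧ DReach G1 u' g) ∨
      DReach G1 u' t := by
    intro t ht
    induction ht with
    | refl => exact Or.inr (DReach.refl _ _)
    | @tail a b _ hab ih =>
      rcases ih with ih | ih
      · exact Or.inl ih
      · obtain ⟨e, he, hc⟩ := hab
        by_cases h5 : Tb M (src e) ∧ Tb M (tgt e)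
        · right
          refine ih.trans (DAdj.reach ⟨e, ?_, hc⟩)
          rw [hG1]
          rcases (hGout e he).2 with h6 | h6
          · exact ⟨h6, h5⟩
          · exact absurd h5 h6
        · left
          refine ⟨a, ?_, ih⟩
          rw [mem_BX]
          intro hab'
          apply h5
          obtain ⟨a1, a2⟩ := a
          obtain ⟨p, q, _ | _⟩ := e
          · simp only [Tb, src_mk, tgt_false, dsrc_false, dtgt_mk, Prod.mk.injEq] at hc hab' ⊢
            omega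
          · simp only [Tb, src_mk, tgt_true, dsrc_true, dtgt_mk, Prod.mk.injEq] at hc hab' ⊢
            omega
  rw [← hG1]
  rcases key _ hreach with ⟨g, hg1, hg2⟩ | hg
  · exact ⟨u', g, hu1, hg1, hg2⟩
  · refine ⟨u', _, hu1, ?_, hg⟩
    rw [mem_BX]
    simp only
    omega

/-- A left-right path of the modified configuration uses only edges of the clusters of `I`. -/
theorem lr_WI {h : ℤ → ℤ} {ρ M : ℤ} {F : Set Edg} {I : Set Vtx} {S : Set Edg}
    (hI : ∀ (e : Edg) (x y : Vtx), ((src e = x ∧ tgt e = y) ∨ (src e = y ∧ tgt e = x)) →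
      ¬ Out h x → Out h y → Tb M x → ¬ (C0 ρ x ∧ C0 ρ y) → x ∈ I) {y0 : ℤ} {v : Vtx}
    (hp : Reach (Om h ρ M F ∩ S) (-(M + 2), y0) v) :
    Reach (Om h ρ M (WI F I) ∩ S) (-(M + 2), y0) v ∧
      (Out h v ∨ v = (-(M + 2), y0) ∨ ∃ u ∈ I, Reach F u v) := by
  induction hp with
  | refl => exact ⟨Reach.refl _ _, Or.inr (Or.inl rfl)⟩
  | @tail b c _ hbc ih =>
    obtain ⟨ih1, ih2⟩ := ih
    obtain ⟨e, ⟨he, heS⟩, hc⟩ := hbc
    obtain ⟨h1, h2⟩ := (Om_iff hc).mp he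
    have hnb : Tb M b → b ≠ (-(M + 2), y0) := by
      rintro h3 rfl
      unfold Tb at h3
      simp only at h3
      omega
    -- the new vertex
    have hnew : Out h c ∨ c = (-(M + 2), y0) ∨ ∃ u ∈ I, Reach F u c := by
      rcases h2 with h2 | ⟨h2, h3⟩
      · exact Or.inl h2.2
      · by_cases hoc : Out h c
        · exact Or.inl hoc
        · by_cases hob : Out h b
          · right; right
            exact ⟨c, hI e c b hc.symm hoc hob h2.2 (fun h => h1 h.symm), Reach.refl _ _⟩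
          · have heF := h3 hob hoc
            rcases ih2 with ih2 | ih2 | ⟨u, hu, hr⟩
            · exact absurd ih2 hob
            · exact absurd ih2 (hnb h2.1)
            · right; right
              exact ⟨u, hu, hr.trans (Adj.reach ⟨e, heF, hc⟩)⟩
    refine ⟨ih1.trans (Adj.reach ⟨e, ⟨?_, heS⟩, hc⟩), hnew⟩
    rw [Om_iff hc]
    refine ⟨h1, ?_⟩
    rcases h2 with h2 | ⟨h2, h3⟩
    · exact Or.inl h2
    · refine Or.inr ⟨h2, fun hob hoc => ?_⟩
      have heF := h3 hob hoc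
      refine ⟨heF, ?_⟩
      rcases ih2 with ih2 | ih2 | ⟨u, hu, hr⟩
      · exact absurd ih2 hob
      · exact absurd ih2 (hnb h2.1)
      · rcases hc with ⟨h4, h5⟩ | ⟨h4, h5⟩
        · exact ⟨u, hu, by rw [h4]; exact hr⟩
        · refine ⟨u, hu, ?_⟩
          rw [h4]
          exact hr.trans (Adj.reach ⟨e, heF, Or.inr ⟨h4, h5⟩⟩)

/-- a vertical path of faces -/
theorem vert {E : Set Edg} {x y1 y2 : ℤ} (h : y1 ≤ y2)
    (hE : ∀ y, y1 < y → y ≤ y2 → ((x, y, true) : Edg) ∈ E) : DReach E (x, y1) (x, y2) := by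
  obtain ⟨n, hn⟩ := Int.eq_ofNat_of_zero_le (by omega : 0 ≤ y2 - y1)
  have key : ∀ k : ℕ, (k : ℤ) ≤ y2 - y1 → DReach E (x, y1) (x, y1 + k) := by
    intro k
    induction k with
    | zero =>
      intro _
      simp only [Nat.cast_zero, add_zero]
      exact DReach.refl _ _
    | succ k ih =>
      intro hk
      push_cast at hk
      refine (ih (by omega)).trans (DAdj.reach ⟨(x, y1 + (k + 1), true),
        hE _ (by omega) (by omega), Or.inl ?_⟩)
      simp only [dsrc_true, dtgt_mk, Prod.mk.injEq, true_and]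
      push_cast
      constructor
      · ring
      · ring
  have := key n hn.ge
  rw [← hn] at this
  simpa using this

theorem edge_near {e : Edg} {x y : Vtx} (h : (src e = x ∧ tgt e = y) ∨ (src e = y ∧ tgt e = x)) :
    (x.1 - 1 ≤ y.1 ∧ y.1 ≤ x.1 + 1) ∧ (x.2 - 1 ≤ y.2 ∧ y.2 ≤ x.2 + 1) := by
  obtain ⟨x1, x2⟩ := x
  obtain ⟨y1, y2⟩ := y
  obtain ⟨p, q, _ | _⟩ := e
  · simp only [src_mk, tgt_false, Prod.mk.injEq] at h ⊢
    omega
  · simp only [src_mk, tgt_true, Prod.mk.injEq] at h ⊢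
    omega

/-- **Half-circuits in the standard frame.** -/
theorem half_up {T : Finset Vtx} {h : ℤ → ℤ} {L r R : ℤ} {I : Set Vtx} {F : Finset Edg}
    (hL : Lp 3 h) (hT : ∀ y ∈ QB L, (y ∈ T ↔ h y.1 ≤ y.2)) (hr : 1 ≤ r) (hR : 100 * r ≤ R)
    (hRL : R ≤ L) (hI : ∀ u, btT T u → u ∈ BX (0, 0) R → u ∉ BX (0, 0) r → u ∈ I) :
    (∃ f g, f ∈ BX (0, 0) (18 * r) ∧ g ∉ BX (0, 0) (R / 20 + 1) ∧
        DReach (↑(ES T) \ ↑F) f g) ∨
      ∀ f g : Vtx, f ∈ BX (0, 0) (r + 1) → g ∉ BX (0, 0) (R - 1) →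
        ¬ DReach (↑(ES T) \ WI ↑F I) f g := by
  obtain ⟨ρ, hρ⟩ : ∃ ρ, ρ = r + 2 := ⟨_, rfl⟩
  obtain ⟨M, hM⟩ : ∃ M, M = R / 5 - 4 := ⟨_, rfl⟩
  have hMr : 16 * r ≤ M := by omega
  have hMR : 5 * M + 20 ≤ R := by omega
  have hTQ : ∀ v : Vtx, (-(M + 1) ≤ v.1 ∧ v.1 ≤ M + 1) → (-(4 * M + 5) ≤ v.2 ∧ v.2 ≤ 4 * M + 5) →
      (v ∈ T ↔ ¬ Out h v) := by
    intro v h1 h2
    rw [hT v (by rw [mem_QB]; omega)]
    unfold Out
    omega
  have hTT : ∀ v : Vtx, Tb M v → (v ∈ T ↔ ¬ Out h v) := by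
    intro v hv
    unfold Tb at hv
    exact hTQ v (by omega) (by omega)
  by_cases hLR : ∃ y0 y1 : ℤ, (-(4 * M + 20) ≤ y1 ∧ y1 ≤ 4 * M + 20) ∧
      Reach (Om h ρ M ↑F ∩ ↑(LRE (-(M + 2)) (M + 2) (-(4 * M + 20)) (4 * M + 20)))
        (-(M + 2), y0) (M + 2, y1)
  · right
    obtain ⟨y0, y1, hy1, hreach⟩ := hLR
    intro f g hf hg hD
    have hI' : ∀ (e : Edg) (x y : Vtx), ((src e = x ∧ tgt e = y) ∨ (src e = y ∧ tgt e = x)) →
        ¬ Out h x → Out h y → Tb M x → ¬ (C0 ρ x ∧ C0 ρ y) → x ∈ I := by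
      intro e x y he hx hy hxT hC
      have hn := edge_near he
      have hxT' := hxT
      unfold Tb at hxT'
      have hyT : y ∉ T := by
        rw [hTQ y (by omega) (by omega)]
        exact fun h => h hy
      refine hI x (btT_iff.mpr ⟨(hTT x hxT).mpr hx, y, hyT, e, trivial, he⟩) ?_ ?_
      · rw [mem_BX]
        simp only
        omega
      · intro hxr
        rw [mem_BX] at hxr
        simp only at hxr
        apply hC
        unfold C0
        omega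
    obtain ⟨hreach', -⟩ := lr_WI hI' hreach
    -- the dual path
    obtain ⟨Y, hY⟩ : ∃ Y : Vtx → Prop, Y = fun f => (-M ≤ f.1 ∧ f.1 ≤ M - 1) ∧
        (-(4 * M + 4) ≤ f.2 ∧ f.2 ≤ 4 * M + 3) := ⟨_, rfl⟩
    have hY' : ∀ f : Vtx, Y f ↔ (-M ≤ f.1 ∧ f.1 ≤ M - 1) ∧
        (-(4 * M + 4) ≤ f.2 ∧ f.2 ≤ 4 * M + 3) := by
      intro f; rw [hY]
    rw [mem_BX] at hf hg
    simp only at hf hg
    have hYf : Y f := by rw [hY']; omega
    have hYg : ¬ Y g := by rw [hY']; omega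
    obtain ⟨u', v', hu', hv', huv, hfu⟩ := first_out Y hD hYf hYg
    obtain ⟨E, hE⟩ : ∃ E : Set Edg, E = (Om h ρ M (WI ↑F I))ᶜ ∩
      ↑(LRE (-(M + 2)) (M + 2) (-(4 * M + 20)) (4 * M + 20)) := ⟨_, rfl⟩
    -- edges next to a face of `Y`
    have hedge : ∀ e ∈ (↑(ES T) \ WI ↑F I : Set Edg), (Y (dsrc e) ∨ Y (dtgt e)) →
        (Tb M (src e) ∧ Tb M (tgt e)) ∧ e ∈ E := by
      rintro e ⟨he, heW⟩ hYe
      have hTb : Tb M (src e) ∧ Tb M (tgt e) := by
        rw [hY', hY'] at hYe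
        obtain ⟨p, q, _ | _⟩ := e
        · simp only [Tb, src_mk, tgt_false, dsrc_false, dtgt_mk] at hYe ⊢
          omega
        · simp only [Tb, src_mk, tgt_true, dsrc_true, dtgt_mk] at hYe ⊢
          omega
      refine ⟨hTb, ?_⟩
      rw [Finset.mem_coe, mem_ES] at he
      have h1 := (hTT _ hTb.1).mp he.1
      have h2 := (hTT _ hTb.2).mp he.2
      rw [hE]
      refine ⟨?_, ?_⟩
      · rintro ⟨-, h3 | ⟨-, h3⟩⟩
        · exact h1 h3.1
        · exact heW (h3 h1 h2)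
      · obtain ⟨p, q, _ | _⟩ := e
        · simp only [Tb, src_mk, tgt_false] at hTb
          rw [Finset.mem_coe, mem_LRE_false]
          omega
        · simp only [Tb, src_mk, tgt_true] at hTb
          rw [Finset.mem_coe, mem_LRE_true]
          omega
    have hB : DReach E f u' := by
      refine hfu.mono ?_
      rintro e ⟨he, h1, -⟩
      exact (hedge e he (Or.inl h1)).2
    obtain ⟨e0, he0, hc0⟩ := huv
    have hB2 : DReach E f v' := by
      refine hB.trans (DAdj.reach ⟨e0, (hedge e0 he0 ?_).2, hc0⟩)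
      rcases hc0 with ⟨h1, h2⟩ | ⟨h1, h2⟩
      · left; rw [h1]; exact hu'
      · right; rw [h2]; exact hu'
    have hA : DReach E (f.1, -(4 * M + 20) - 1) f := by
      have : DReach E (f.1, -(4 * M + 20) - 1) (f.1, f.2) := by
        refine vert (by omega) fun y h1 h2 => ?_
        rw [hE]
        refine ⟨?_, ?_⟩
        · rintro ⟨h3, -⟩
          apply h3
          unfold C0
          simp only [src_mk, tgt_true]
          omega
        · rw [Finset.mem_coe, mem_LRE_true]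
          omega
      exact this
    have hCp : DReach E v' (v'.1, 4 * M + 20) := by
      have hTb0 : (Tb M (src e0) ∧ Tb M (tgt e0)) ∧ e0 ∈ E := hedge e0 he0 (by
        rcases hc0 with ⟨h1, h2⟩ | ⟨h1, h2⟩
        · left; rw [h1]; exact hu'
        · right; rw [h2]; exact hu')
      have heT := mem_ES.mp (Finset.mem_coe.mp he0.1)
      have ho1 := (hTT _ hTb0.1.1).mp heT.1
      have ho2 := (hTT _ hTb0.1.2).mp heT.2
      -- a column which is in the domain, and a reason to be outside the tall box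
      have key : (-(M + 2) ≤ v'.1 ∧ v'.1 < M + 2) ∧ (-(4 * M + 20) ≤ v'.2 ∧ v'.2 ≤ 4 * M + 20) ∧
          (h v'.1 ≤ v'.2 + 1 ∨ h (v'.1 + 1) ≤ v'.2 + 1) ∧
          (v'.1 = M ∨ v'.1 = -M - 1 ∨ 4 * M + 4 ≤ v'.2) := by
        rw [hY'] at hu' hv'
        obtain ⟨u1, u2⟩ := u'
        obtain ⟨v1, v2⟩ := v'
        obtain ⟨p, q, _ | _⟩ := e0
        · simp only [Out, src_mk, tgt_false, dsrc_false, dtgt_mk, Prod.mk.injEq] at *
          rcases hc0 with ⟨⟨h1, h2⟩, h3, h4⟩ | ⟨⟨h1, h2⟩, h3, h4⟩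
          · have e1 : p = M := by omega
            have e2 : v1 = M := by omega
            rw [e1] at ho1
            rw [e2]
            omega
          · have e1 : p = -M := by omega
            have e2 : v1 = -M - 1 := by omega
            rw [e1] at ho1
            rw [e2]
            have e3 : -M - 1 + 1 = -M := by ring
            rw [e3]
            omega
        · simp only [Out, src_mk, tgt_true, dsrc_true, dtgt_mk, Prod.mk.injEq] at *
          have b1 := hbd hL (N := M) (x := p) (by omega) (by omega)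
          rcases hc0 with ⟨⟨h1, h2⟩, h3, h4⟩ | ⟨⟨h1, h2⟩, h3, h4⟩
          · have e2 : v1 = p := by omega
            rw [e2]
            omega
          · exfalso
            omega
      obtain ⟨k1, k2, k3, k4⟩ := key
      have : DReach E (v'.1, v'.2) (v'.1, 4 * M + 20) := by
        refine vert (by omega) fun y h1 h2 => ?_
        rw [hE]
        refine ⟨?_, ?_⟩
        · rintro ⟨-, ⟨h3, h4⟩ | ⟨⟨h3, h4⟩, -⟩⟩
          · simp only [Out, src_mk, tgt_true] at h3 h4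
            omega
          · simp only [Tb, src_mk, tgt_true] at h3 h4
            omega
        · rw [Finset.mem_coe, mem_LRE_true]
          omega
      exact this
    have hall : DReach E (f.1, -(4 * M + 20) - 1) (v'.1, 4 * M + 20) := hA.trans (hB2.trans hCp)
    rw [hE] at hall
    exact no_both (by omega) hy1 (by omega) hreach' hall
  · left
    push Not at hLR
    obtain ⟨W, hW⟩ : ∃ W : Vtx → Prop, W = fun v => ∃ y0,
      Reach (Om h ρ M ↑F ∩ ↑(LRE (-(M + 2)) (M + 2) (-(4 * M + 20)) (4 * M + 20)))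
        (-(M + 2), y0) v := ⟨_, rfl⟩
    have hWi : ∀ v, W v ↔ ∃ y0,
      Reach (Om h ρ M ↑F ∩ ↑(LRE (-(M + 2)) (M + 2) (-(4 * M + 20)) (4 * M + 20)))
        (-(M + 2), y0) v := by intro v; rw [hW]
    obtain ⟨x, x', hx, -, hD⟩ := dual_crossing (a := -(M + 2)) (b := M + 2)
      (c := -(4 * M + 20)) (d := 4 * M + 20) (by omega) (by omega) W
      (fun y _ _ => by rw [hWi]; exact ⟨y, Reach.refl _ _⟩)
      (fun y h1 h2 => by
        rw [hWi]
        rintro ⟨y0, h3⟩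
        exact hLR y0 y ⟨h1, h2⟩ h3)
    have hD' : DReach ((Om h ρ M ↑F)ᶜ ∩
        ↑(LRE (-(M + 2)) (M + 2) (-(4 * M + 20)) (4 * M + 20)))
        (x, -(4 * M + 20) - 1) (x', 4 * M + 20) := by
      refine hD.mono ?_
      rintro e ⟨he, heL⟩
      refine ⟨fun heO => he ?_, heL⟩
      rw [hWi, hWi]
      constructor
      · rintro ⟨y0, h1⟩
        exact ⟨y0, h1.trans (Adj.reach ⟨e, ⟨heO, heL⟩, Or.inl ⟨rfl, rfl⟩⟩)⟩
      · rintro ⟨y0, h1⟩
        exact ⟨y0, h1.trans (Adj.reach ⟨e, ⟨heO, heL⟩, Or.inr ⟨rfl, rfl⟩⟩)⟩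
    obtain ⟨f, g, hf, hg, hfg⟩ := da_of hL (ρ := ρ) (M := M) (by omega) (by omega) hx hD'
    refine ⟨f, g, ?_, ?_, hfg.mono ?_⟩
    · rw [mem_BX] at hf ⊢
      omega
    · rw [mem_BX] at hg ⊢
      omega
    · rintro e ⟨⟨⟨h1, h2⟩, h3⟩, h4, h5⟩
      refine ⟨?_, h3⟩
      rw [Finset.mem_coe, mem_ES]
      exact ⟨(hTT _ h4).mpr h1, (hTT _ h5).mpr h2⟩

end Pool.Agent.J6H18.SL.Half
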