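import Pool.Agent.J6H18.SL.Half
import Pool.Agent.Y989.SD.T_EMB

/-!
Project SL: half-circuits in a window (`S_HALF`).
-/

set_option autoImplicit false

namespace Pool.Agent.J6H18.SL.Half

open Finset H974
open H973 (ES BX mem_BX mem_ES)
open Pool.Agent.Y989.SD (btT Lp QB mem_QB emb Win)
open Pool.Agent.Y989.SD.WIN (btT_iff)
open Pool.Agent.Y989.SD.EMB (cmp)
open Pool.Agent.J6H18.SL (WI DA)

/-- `χ` is the action of `g` on the faces -/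
def FC (g : LSym) (χ : Vtx ≃ Vtx) : Prop :=
  ∀ e, (dsrc (g.φ e) = χ (dsrc e) ∧ dtgt (g.φ e) = χ (dtgt e)) ∨
    (dsrc (g.φ e) = χ (dtgt e) ∧ dtgt (g.φ e) = χ (dsrc e))

theorem fc_trl (s t : ℤ) : FC (trl s t) (trl s t).ψ := by
  rintro ⟨x, y, _ | _⟩
  · left
    rw [trl_φ, dsrc_false, dsrc_false, dtgt_mk, dtgt_mk, trl_ψ, trl_ψ]
    refine ⟨?_, rfl⟩
    rw [Prod.mk.injEq]
    exact ⟨by ring, rfl⟩
  · left
    rw [trl_φ, dsrc_true, dsrc_true, dtgt_mk, dtgt_mk, trl_ψ, trl_ψ]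
    refine ⟨?_, rfl⟩
    rw [Prod.mk.injEq]
    exact ⟨rfl, by ring⟩

theorem fc_tps : FC tps tps.ψ := by
  rintro ⟨x, y, _ | _⟩
  · left
    exact ⟨rfl, rfl⟩
  · left
    exact ⟨rfl, rfl⟩

theorem fc_rfy (k : ℤ) : FC (rfy k) (rfy (k - 1)).ψ := by
  rintro ⟨x, y, _ | _⟩
  · left
    rw [rfy_φf, dsrc_false, dsrc_false, dtgt_mk, dtgt_mk, rfy_ψ, rfy_ψ]
    constructor <;> rw [Prod.mk.injEq] <;> exact ⟨rfl, by ring⟩
  · right
    rw [rfy_φt, dsrc_true, dsrc_true, dtgt_mk, dtgt_mk, rfy_ψ, rfy_ψ]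
    constructor <;> rw [Prod.mk.injEq] <;> exact ⟨rfl, by ring⟩

theorem fc_rfx (k : ℤ) : FC (rfx k) (rfx (k - 1)).ψ := by
  rintro ⟨x, y, _ | _⟩
  · right
    rw [rfx_φf, dsrc_false, dsrc_false, dtgt_mk, dtgt_mk, rfx_ψ, rfx_ψ]
    constructor <;> rw [Prod.mk.injEq] <;> exact ⟨by ring, rfl⟩
  · left
    rw [rfx_φt, dsrc_true, dsrc_true, dtgt_mk, dtgt_mk, rfx_ψ, rfx_ψ]
    constructor <;> rw [Prod.mk.injEq] <;> exact ⟨by ring, rfl⟩

theorem fc_cmp {g f : LSym} {χ χ' : Vtx ≃ Vtx} (hg : FC g χ) (hf : FC f χ') :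
    FC (cmp g f) (χ'.trans χ) := by
  intro e
  show (dsrc (g.φ (f.φ e)) = χ (χ' (dsrc e)) ∧ dtgt (g.φ (f.φ e)) = χ (χ' (dtgt e))) ∨
    (dsrc (g.φ (f.φ e)) = χ (χ' (dtgt e)) ∧ dtgt (g.φ (f.φ e)) = χ (χ' (dsrc e)))
  rcases hf e with ⟨h1, h2⟩ | ⟨h1, h2⟩ <;> rcases hg (f.φ e) with ⟨h3, h4⟩ | ⟨h3, h4⟩ <;>
    rw [h1] at * <;> rw [h2] at * <;> simp_all

theorem fc_inv {g : LSym} {χ : Vtx ≃ Vtx} (hg : FC g χ) : FC g.inv χ.symm := by
  intro e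
  show (dsrc (g.φ.symm e) = χ.symm (dsrc e) ∧ dtgt (g.φ.symm e) = χ.symm (dtgt e)) ∨
    (dsrc (g.φ.symm e) = χ.symm (dtgt e) ∧ dtgt (g.φ.symm e) = χ.symm (dsrc e))
  have h := hg (g.φ.symm e)
  rw [Equiv.apply_symm_apply] at h
  rcases h with ⟨h1, h2⟩ | ⟨h1, h2⟩
  · left
    rw [h1, h2, Equiv.symm_apply_apply, Equiv.symm_apply_apply]
    exact ⟨rfl, rfl⟩
  · right
    rw [h1, h2, Equiv.symm_apply_apply, Equiv.symm_apply_apply]
    exact ⟨rfl, rfl⟩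

theorem fc_dreach {g : LSym} {χ : Vtx ≃ Vtx} (hg : FC g χ) {F : Set Edg} {u v : Vtx}
    (h : DReach F u v) : DReach (g.φ '' F) (χ u) (χ v) := by
  induction h with
  | refl => exact DReach.refl _ _
  | tail _ hs ih =>
    refine ih.trans (DAdj.reach ?_)
    obtain ⟨e, he, hc⟩ := hs
    refine ⟨g.φ e, Set.mem_image_of_mem _ he, ?_⟩
    rcases hg e with ⟨h1, h2⟩ | ⟨h1, h2⟩ <;> rcases hc with ⟨h3, h4⟩ | ⟨h3, h4⟩ <;>
      rw [h1, h2, h3, h4] <;> simp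

/-- the frames -/
theorem frame (e v : Vtx) (he : e = (0, 1) ∨ e = (1, 0) ∨ e = (0, -1) ∨ e = (-1, 0)) :
    ∃ (g : LSym) (χ : Vtx ≃ Vtx), (∀ y, g.ψ y = emb e v y) ∧ FC g χ ∧
      (∀ (f : Vtx) (n : ℤ), f ∈ BX (0, 0) n → χ f ∈ BX v (n + 1)) ∧
      ∀ (f : Vtx) (n : ℤ), χ f ∈ BX v n → f ∈ BX (0, 0) (n + 1) := by
  rcases he with rfl | rfl | rfl | rfl
  · refine ⟨trl v.1 v.2, (trl v.1 v.2).ψ, ?_, fc_trl _ _, ?_, ?_⟩
    · rintro ⟨x, y⟩
      simp only [trl_ψ, emb, Prod.mk.injEq]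
      constructor <;> ring
    · rintro ⟨x, y⟩ n h
      simp only [trl_ψ, mem_BX] at *
      omega
    · rintro ⟨x, y⟩ n h
      simp only [trl_ψ, mem_BX] at *
      omega
  · refine ⟨cmp (trl v.1 0) (cmp (rfy v.2) tps), _, ?_,
      fc_cmp (fc_trl _ _) (fc_cmp (fc_rfy _) fc_tps), ?_, ?_⟩
    · rintro ⟨x, y⟩
      show (trl v.1 0).ψ ((rfy v.2).ψ (tps.ψ (x, y))) = _
      simp only [trl_ψ, rfy_ψ, tps_ψ, emb, Prod.mk.injEq]
      constructor <;> ring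
    · rintro ⟨x, y⟩ n h
      show (trl v.1 0).ψ ((rfy (v.2 - 1)).ψ (tps.ψ (x, y))) ∈ _
      simp only [trl_ψ, rfy_ψ, tps_ψ, mem_BX] at *
      omega
    · rintro ⟨x, y⟩ n h
      have h' : (trl v.1 0).ψ ((rfy (v.2 - 1)).ψ (tps.ψ (x, y))) ∈ BX v n := h
      simp only [trl_ψ, rfy_ψ, tps_ψ, mem_BX] at *
      omega
  · refine ⟨cmp (rfy v.2) (rfx v.1), _, ?_, fc_cmp (fc_rfy _) (fc_rfx _), ?_, ?_⟩
    · rintro ⟨x, y⟩
      show (rfy v.2).ψ ((rfx v.1).ψ (x, y)) = _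
      simp only [rfx_ψ, rfy_ψ, emb, Prod.mk.injEq]
      constructor <;> ring
    · rintro ⟨x, y⟩ n h
      show (rfy (v.2 - 1)).ψ ((rfx (v.1 - 1)).ψ (x, y)) ∈ _
      simp only [rfx_ψ, rfy_ψ, mem_BX] at *
      omega
    · rintro ⟨x, y⟩ n h
      have h' : (rfy (v.2 - 1)).ψ ((rfx (v.1 - 1)).ψ (x, y)) ∈ BX v n := h
      simp only [rfx_ψ, rfy_ψ, mem_BX] at *
      omega
  · refine ⟨cmp (trl 0 v.2) (cmp (rfx v.1) tps), _, ?_,
      fc_cmp (fc_trl _ _) (fc_cmp (fc_rfx _) fc_tps), ?_, ?_⟩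
    · rintro ⟨x, y⟩
      show (trl 0 v.2).ψ ((rfx v.1).ψ (tps.ψ (x, y))) = _
      simp only [trl_ψ, rfx_ψ, tps_ψ, emb, Prod.mk.injEq]
      constructor <;> ring
    · rintro ⟨x, y⟩ n h
      show (trl 0 v.2).ψ ((rfx (v.1 - 1)).ψ (tps.ψ (x, y))) ∈ _
      simp only [trl_ψ, rfx_ψ, tps_ψ, mem_BX] at *
      omega
    · rintro ⟨x, y⟩ n h
      have h' : (trl 0 v.2).ψ ((rfx (v.1 - 1)).ψ (tps.ψ (x, y))) ∈ BX v n := h
      simp only [trl_ψ, rfx_ψ, tps_ψ, mem_BX] at *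
      omega

theorem es_iff {g : LSym} {T T' : Finset Vtx} (hT : ∀ y, y ∈ T' ↔ g.ψ y ∈ T) (e : Edg) :
    e ∈ ES T' ↔ g.φ e ∈ ES T := by
  rw [mem_ES, mem_ES, hT, hT]
  rcases g.compat e with ⟨h1, h2⟩ | ⟨h1, h2⟩ <;> rw [h1, h2]
  exact and_comm

/-- **Item HALF.** -/
theorem t_HALF : S_HALF := by
  rintro T v L r R B α I ⟨e, he, h, s, hL, -, -, hT⟩ hr hR hRL hI F hF
  obtain ⟨g, χ, hg, hfc, hχ1, hχ2⟩ := frame e v he
  obtain ⟨T', hT'⟩ : ∃ T' : Finset Vtx, ∀ y, y ∈ T' ↔ g.ψ y ∈ T := by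
    refine ⟨T.map g.ψ.symm.toEmbedding, fun y => ?_⟩
    rw [Finset.mem_map]
    constructor
    · rintro ⟨x, hx, rfl⟩
      simpa using hx
    · intro hy
      exact ⟨g.ψ y, hy, by simp⟩
  obtain ⟨F', hF'⟩ : ∃ F' : Finset Edg, ∀ x, x ∈ F' ↔ g.φ x ∈ F := by
    refine ⟨F.map g.φ.symm.toEmbedding, fun y => ?_⟩
    rw [Finset.mem_map]
    constructor
    · rintro ⟨x, hx, rfl⟩
      simpa using hx
    · intro hy
      exact ⟨g.φ y, hy, by simp⟩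
  have hv : g.ψ (0, 0) = v := by
    rw [hg]
    unfold emb
    obtain ⟨v1, v2⟩ := v
    simp
  have hBX : ∀ (y : Vtx) (n : ℤ), g.ψ y ∈ BX v n ↔ y ∈ BX (0, 0) n := by
    intro y n
    have := Pool.Agent.Y989.SD.EMB.emb_mem_BX e v he y (0, 0) n
    rw [← hg, ← hg, hv] at this
    exact this
  have hadj : ∀ x y : Vtx, Adj Set.univ x y → Adj Set.univ (g.ψ x) (g.ψ y) := by
    intro x y hxy
    exact (g.adj hxy).mono (Set.subset_univ _)
  have hbt : ∀ u, btT T' u → btT T (g.ψ u) := by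
    intro u hu
    rw [btT_iff] at hu ⊢
    obtain ⟨h1, y, h2, h3⟩ := hu
    exact ⟨(hT' u).mp h1, g.ψ y, fun h4 => h2 ((hT' y).mpr h4), hadj _ _ h3⟩
  have hmain := half_up (T := T') (h := h) (L := L) (r := r) (R := R) (I := g.ψ ⁻¹' I) (F := F') hL
    (fun y hy => by rw [hT', hg]; exact hT y hy) hr hR hRL (fun u h1 h2 h3 =>
      hI _ (hbt u h1) ((hBX u R).mpr h2) (fun h4 => h3 ((hBX u r).mp h4)))
  rcases hmain with ⟨f, f', h1, h2, h3⟩ | hmain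
  · left
    refine ⟨χ f, χ f', ?_, fun h4 => h2 (hχ2 _ _ h4), (fc_dreach hfc h3).mono ?_⟩
    · have := hχ1 _ _ h1
      rw [mem_BX] at this ⊢
      omega
    · rintro _ ⟨x, ⟨hx1, hx2⟩, rfl⟩
      refine ⟨Finset.mem_coe.mpr ((es_iff hT' x).mp (Finset.mem_coe.mp hx1)), fun h4 => hx2 ?_⟩
      exact Finset.mem_coe.mpr ((hF' x).mpr (Finset.mem_coe.mp h4))
  · right
    intro f f' hf hf' hD
    have e1 : χ (χ.symm f) = f := Equiv.apply_symm_apply _ _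
    have e2 : χ (χ.symm f') = f' := Equiv.apply_symm_apply _ _
    refine hmain (χ.symm f) (χ.symm f') (hχ2 _ _ (by rw [e1]; exact hf)) (fun h4 => hf' ?_) ?_
    · have := hχ1 _ _ h4
      rw [e2] at this
      simpa using this
    · refine (fc_dreach (fc_inv hfc) hD).mono ?_
      rintro _ ⟨x, ⟨hx1, hx2⟩, rfl⟩
      have e3 : g.φ (g.inv.φ x) = x := Equiv.apply_symm_apply _ _
      refine ⟨?_, ?_⟩
      · rw [Finset.mem_coe, es_iff hT', e3]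
        exact Finset.mem_coe.mp hx1
      · rintro ⟨h5, u, hu, h6⟩
        apply hx2
        refine ⟨?_, ?_⟩
        · have := (hF' _).mp (Finset.mem_coe.mp h5)
          rw [e3] at this
          exact this
        · have hsub : g.φ '' (↑F' : Set Edg) ⊆ ↑F := by
            rintro _ ⟨y, hy, rfl⟩
            exact (hF' y).mp (Finset.mem_coe.mp hy)
          have h7 := (g.reach h6).mono hsub
          have h8 : (Reach (↑F) (g.ψ u) (src x)) := by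
            rcases g.compat (g.inv.φ x) with ⟨h9, -⟩ | ⟨-, h9⟩
            · rw [e3] at h9
              rw [h9]
              exact h7
            · -- the edge is reversed: go through it
              have h10 := g.compat (g.inv.φ x)
              rw [e3] at h10 h9
              have hxF : x ∈ (↑F : Set Edg) := by
                have := (hF' _).mp (Finset.mem_coe.mp h5)
                rw [e3] at this
                exact this
              have h11 : Reach (↑F) (g.ψ u) (tgt x) := by rw [h9]; exact h7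
              exact h11.trans (Adj.reach ⟨x, hxF, Or.inr ⟨rfl, rfl⟩⟩)
          exact ⟨g.ψ u, hu, h8⟩

end Pool.Agent.J6H18.SL.Half
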