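import Pool.Agent.J6H18.SL.Stm

/-!
Item JNL: lower bound for the connection probability of two sets.
-/

set_option autoImplicit false

namespace Pool.Agent.J6H18.SL

open Finset H974
open H973 (ES EV BX)
open Pool.Agent.Y989.SD (disc cir pos TD SmW near hf btT Win XT HT Lp Flat emb QB)
open TH976 (sd EH eH EH_pos)
open Pool.Agent.J6H18.GD (Jn Ct Rd GD eS UK dc dc_pos)

/-- the profile decays at most like `n ^ (-1/3)` -/
theorem EH_ratio {s m n : ℝ} (hs : 0 < s) (hm : 0 < m) (hmn : m ≤ n) :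
    (m / n) ^ (1 / 3 : ℝ) * EH s m ≤ EH s n := by
  have hn : 0 < n := hm.trans_le hmn
  have h0 : 0 < m / n := div_pos hm hn
  have h1 : m / n ≤ 1 := (div_le_one hn).2 hmn
  have h2 : (m / n) * min 1 (s / m) ≤ min 1 (s / n) := by
    refine le_min ?_ ?_
    · calc (m / n) * min 1 (s / m) ≤ 1 * 1 :=
          mul_le_mul h1 (min_le_left _ _) (le_min zero_le_one (by positivity)) zero_le_one
        _ = 1 := one_mul 1
    · calc (m / n) * min 1 (s / m) ≤ (m / n) * (s / m) :=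
          mul_le_mul_of_nonneg_left (min_le_right _ _) h0.le
        _ = s / n := by field_simp
  have h3 : 0 ≤ min 1 (s / m) := le_min zero_le_one (by positivity)
  have h4 : (m / n) ^ (11 / 48 : ℝ) * (min 1 (s / m)) ^ (11 / 48 : ℝ) ≤
      (min 1 (s / n)) ^ (11 / 48 : ℝ) := by
    rw [← Real.mul_rpow h0.le h3]
    exact Real.rpow_le_rpow (mul_nonneg h0.le h3) h2 (by norm_num)
  have h5 : (m / n) ^ (5 / 48 : ℝ) * m ^ (-(5 / 48 : ℝ)) = n ^ (-(5 / 48 : ℝ)) := by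
    rw [Real.div_rpow hm.le hn.le, Real.rpow_neg hm.le, Real.rpow_neg hn.le]
    have : m ^ (5 / 48 : ℝ) ≠ 0 := (Real.rpow_pos_of_pos hm _).ne'
    field_simp
  have h6 : (m / n) ^ (1 / 3 : ℝ) = (m / n) ^ (5 / 48 : ℝ) * (m / n) ^ (11 / 48 : ℝ) := by
    rw [← Real.rpow_add h0]; norm_num
  unfold EH
  calc (m / n) ^ (1 / 3 : ℝ) * (m ^ (-(5 / 48 : ℝ)) * (min 1 (s / m)) ^ (11 / 48 : ℝ)) =
        ((m / n) ^ (5 / 48 : ℝ) * m ^ (-(5 / 48 : ℝ))) *
          ((m / n) ^ (11 / 48 : ℝ) * (min 1 (s / m)) ^ (11 / 48 : ℝ)) := by rw [h6]; ring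
    _ ≤ n ^ (-(5 / 48 : ℝ)) * (min 1 (s / n)) ^ (11 / 48 : ℝ) := by
        rw [h5]
        exact mul_le_mul_of_nonneg_left h4 (Real.rpow_nonneg hn.le _)

theorem eS_ratio {T : Finset Vtx} {L : ℕ} (hL : 1 ≤ L) {a : Vtx} (ha : a ∈ T) {r D : ℕ}
    (hr : 1 ≤ r) : ((r : ℝ) / (r + D)) ^ (1 / 3 : ℝ) * eS T L a r ≤ eS T L a (max r D) := by
  have hs : (0 : ℝ) < ((dc T a : ℤ) : ℝ) := by
    have := dc_pos ha
    exact_mod_cast this
  have hr0 : (0 : ℝ) < r := by exact_mod_cast hr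
  have hD0 : (0 : ℝ) ≤ D := Nat.cast_nonneg D
  set m : ℕ := min r L with hm
  set n : ℕ := min (max r D) L with hn
  have hm1 : 1 ≤ m := le_min hr hL
  have hmn : m ≤ n := min_le_min_right L (le_max_left r D)
  have hm0 : (0 : ℝ) < m := by exact_mod_cast hm1
  have hn0 : (0 : ℝ) < n := by exact_mod_cast hm1.trans hmn
  have key : (r : ℝ) / (r + D) ≤ (m : ℝ) / n := by
    rw [div_le_div_iff₀ (by positivity) hn0]
    have h1 : r * n ≤ m * (r + D) := by
      rcases le_total r L with h | h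
      · have e1 : m = r := min_eq_left h
        rw [e1]
        refine Nat.mul_le_mul_left r ?_
        rw [hn]
        omega
      · have e1 : m = L := min_eq_right h
        have e2 : n = L := by rw [hn]; omega
        rw [e1, e2, Nat.mul_comm]
        exact Nat.mul_le_mul_left L (by omega)
    exact_mod_cast h1
  have h2 := EH_ratio hs hm0 (n := (n : ℝ)) (by exact_mod_cast hmn)
  have h3 : ((r : ℝ) / (r + D)) ^ (1 / 3 : ℝ) ≤ ((m : ℝ) / n) ^ (1 / 3 : ℝ) :=
    Real.rpow_le_rpow (by positivity) key (by norm_num)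
  have h4 : 0 < EH ((dc T a : ℤ) : ℝ) m := EH_pos hm0 hs
  exact (mul_le_mul_of_nonneg_right h3 h4.le).trans h2

/-- Item JNL. -/
theorem t_JNL : S_JNL := by
  intro κ k
  by_cases hkk : 0 < κ ∧ 1 ≤ k
  swap
  · refine ⟨1, one_pos, fun T L g => ?_⟩
    exact absurd ⟨g.κ0, g.k1⟩ hkk
  obtain ⟨hκ, hk⟩ := hkk
  have hU : 0 < UK 500 k := by unfold UK; positivity
  refine ⟨κ ^ 3 / UK 500 k ^ 8, by positivity, ?_⟩
  intro T L g A B a b r s D hAT hBT hAc hBc hA hB hD hab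
  have h := g.cont_lower hAT hBT hAc hBc hA hB hD hab
  have haT := hAT a hA.mem
  have hbT := hBT b hB.mem
  have p1 := g.pos haT hA.one
  have p2 := g.pos hbT hB.one
  have q1 := eS_ratio g.hL haT (D := D) hA.one
  have q2 := eS_ratio g.hL hbT (D := D) hB.one
  have hr0 : (0 : ℝ) ≤ (r : ℝ) / (r + D) := by positivity
  have hs0 : (0 : ℝ) ≤ (s : ℝ) / (s + D) := by positivity
  set x := ((r : ℝ) / (r + D)) ^ (1 / 3 : ℝ) with hx
  set y := ((s : ℝ) / (s + D)) ^ (1 / 3 : ℝ) with hy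
  have hx0 : 0 ≤ x := Real.rpow_nonneg hr0 _
  have hy0 : 0 ≤ y := Real.rpow_nonneg hs0 _
  have h3 : (x * y) * (eS T L a r * eS T L b s) ≤
      eS T L a (max r D) * eS T L b (max s D) := by
    calc (x * y) * (eS T L a r * eS T L b s) = (x * eS T L a r) * (y * eS T L b s) := by ring
      _ ≤ _ := mul_le_mul q1 q2 (mul_nonneg hy0 p2.le)
          ((mul_nonneg hx0 p1.le).trans q1)
  have h4 : κ ^ 3 * ((x * y) * (eS T L a r * eS T L b s)) ≤
      UK 500 k ^ 8 * ((eS T L a r * eS T L b s) * Pr hf (ES T) (Jn A B)) :=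
    (mul_le_mul_of_nonneg_left h3 (by positivity)).trans h
  have h5 : 0 < eS T L a r * eS T L b s := mul_pos p1 p2
  have h6 : κ ^ 3 * (x * y) ≤ UK 500 k ^ 8 * Pr hf (ES T) (Jn A B) := by
    by_contra hc
    push Not at hc
    have := mul_lt_mul_of_pos_right hc h5
    nlinarith
  rw [div_mul_eq_mul_div, div_le_iff₀ (by positivity)]
  linarith

end Pool.Agent.J6H18.SL
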