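import Pool.Agent.J6H18.SL.Stm
import Pool.Agent.Y989.SD.T_AUP
import Pool.Agent.Y989.SD.Main

/-!
Project SL (helper18), item PU (helper1): upper bound for the probability of `Sep`.
-/

set_option autoImplicit false

namespace Pool.Agent.J6H18.SL

open Finset H974
open H973 (ES EV BX mem_BX mem_ES okhalf)
open Pool.Agent.Y989.SD (disc cir pos TD SmW near hf btT Win XT HT Lp Flat emb QB)

namespace PU

theorem norm_cir (θ : ℝ) : ‖cir θ‖ = 1 := by
  unfold cir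
  exact Complex.norm_exp_ofReal_mul_I θ

theorem cir_mod (θ : ℝ) (n : ℤ) : cir (θ - n * (2 * Real.pi)) = cir θ := by
  unfold cir
  have : ((θ - n * (2 * Real.pi) : ℝ) : ℂ) * Complex.I = θ * Complex.I - n * (2 * Real.pi * Complex.I) := by
    push_cast
    ring
  rw [this]
  exact Complex.exp_periodic.sub_int_mul_eq n

theorem rep {θ1 θ2 θ' : ℝ} (h : cir θ' ∉ arc θ1 θ2) :
    ∃ θ, θ2 ≤ θ ∧ θ ≤ θ1 + 2 * Real.pi ∧ cir θ = cir θ' := by
  have hpi : 0 < 2 * Real.pi := by have := Real.pi_pos; positivity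
  obtain ⟨n, hn, -⟩ := existsUnique_sub_zsmul_mem_Ico hpi θ' θ1
  rw [zsmul_eq_mul] at hn
  have e : cir (θ' - n * (2 * Real.pi)) = cir θ' := cir_mod θ' n
  refine ⟨θ' - n * (2 * Real.pi), ?_, hn.2.le, e⟩
  by_contra hlt
  push Not at hlt
  exact h ⟨_, ⟨hn.1, hlt.le⟩, e⟩

theorem ad_le {w : ℂ} {θ1 θ2 t : ℝ} (h1 : θ1 ≤ t) (h2 : t ≤ θ2) : ad w θ1 θ2 ≤ ‖w - cir t‖ := by
  unfold ad
  rw [← dist_eq_norm]
  exact Metric.infDist_le_dist_of_mem ⟨t, ⟨h1, h2⟩, rfl⟩

theorem le_ad {w : ℂ} {θ1 θ2 : ℝ} (h12 : θ1 ≤ θ2) : 1 - ‖w‖ ≤ ad w θ1 θ2 := by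
  unfold ad
  have hne : (arc θ1 θ2).Nonempty := ⟨cir θ1, θ1, ⟨le_rfl, h12⟩, rfl⟩
  refine (Metric.le_infDist hne).2 ?_
  rintro _ ⟨t, -, rfl⟩
  rw [dist_eq_norm]
  have := norm_sub_norm_le (cir t) w
  rw [norm_cir, norm_sub_rev] at this
  exact this

theorem mem_of_norm {ε : ℝ} (hε : 0 < ε) {u v : Vtx} {n : ℤ} (h : ‖pos ε u - pos ε v‖ ≤ n * ε) :
    u ∈ BX v n := by
  obtain ⟨h3, h4⟩ := Pool.Agent.Y989.SD.AUP.pos_low hε u v
  have h5 : ∀ x y : ℤ, ε * |(x : ℝ) - y| ≤ ‖pos ε u - pos ε v‖ → y - n ≤ x ∧ x ≤ y + n := by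
    intro x y hxy
    have h6 : |(x : ℝ) - y| ≤ n := by
      have := hxy.trans h
      rw [mul_comm] at this
      exact le_of_mul_le_mul_right this hε
    rw [abs_le] at h6
    obtain ⟨h8, h9⟩ := h6
    constructor
    · have : ((y - n : ℤ) : ℝ) ≤ (x : ℝ) := by push_cast; linarith
      exact_mod_cast this
    · have : (x : ℝ) ≤ ((y + n : ℤ) : ℝ) := by push_cast; linarith
      exact_mod_cast this
  rw [mem_BX]
  exact ⟨h5 _ _ h3, h5 _ _ h4⟩

theorem norm_of_mem {ε : ℝ} (hε : 0 < ε) {u v : Vtx} {n : ℤ} (h : u ∈ BX v n) :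
    ‖pos ε u - pos ε v‖ ≤ 2 * (n * ε) := by
  refine (Pool.Agent.Y989.SD.AUP.pos_up hε u v).trans ?_
  rw [mem_BX] at h
  have h5 : ∀ x y : ℤ, y - n ≤ x → x ≤ y + n → ε * |(x : ℝ) - y| ≤ n * ε := by
    intro x y h1 h2
    have i1 : ((y - n : ℤ) : ℝ) ≤ (x : ℝ) := by exact_mod_cast h1
    have i2 : (x : ℝ) ≤ ((y + n : ℤ) : ℝ) := by exact_mod_cast h2
    push_cast at i1 i2
    have : |(x : ℝ) - y| ≤ n := by
      rw [abs_le]
      constructor <;> linarith
    have := mul_le_mul_of_nonneg_left this hε.le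
    linarith
  have a1 := h5 _ _ h.1.1 h.1.2
  have a2 := h5 _ _ h.2.1 h.2.2
  linarith

theorem not_mem {ε : ℝ} (hε : 0 < ε) {u v : Vtx} {n : ℤ} (h : 2 * (n * ε) < ‖pos ε u - pos ε v‖) :
    u ∉ BX v n := fun hu => absurd (norm_of_mem hε hu) (not_le.2 h)

/-- the face around a point -/
theorem face {ε : ℝ} (hε : 0 < ε) (p : ℂ) : ∃ z : Vtx, ‖p - cen ε z‖ ≤ 2 * ε := by
  refine ⟨(⌊p.re / ε⌋, ⌊p.im / ε⌋), ?_⟩
  have key : ∀ x : ℝ, |x - ε * (⌊x / ε⌋ + 1 / 2)| ≤ ε := by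
    intro x
    have h1 := Int.floor_le (x / ε)
    have h2 := Int.lt_floor_add_one (x / ε)
    rw [le_div_iff₀ hε] at h1
    rw [div_lt_iff₀ hε] at h2
    rw [abs_le]
    constructor <;> nlinarith
  refine (Complex.norm_le_abs_re_add_abs_im _).trans ?_
  rw [Complex.sub_re, Complex.sub_im]
  unfold cen
  simp only
  have h1 := key p.re
  have h2 := key p.im
  linarith

/-- the path crosses an edge of the clusters -/
theorem cross {T : Finset Vtx} {F : Finset Edg} {I : Set Vtx} {P : Set Edg} {z b : Vtx}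
    (hp : DReach (↑(ES T) ∩ P) z b) (hn : ¬ DReach (↑(ES T) \ WI ↑F I) z b) :
    ∃ e ∈ P, e ∈ ES T ∧ ∃ u ∈ I, Reach (F : Set Edg) u (src e) := by
  by_contra hcon
  push Not at hcon
  refine hn (hp.mono ?_)
  rintro e ⟨he, heP⟩
  refine ⟨he, ?_⟩
  rintro ⟨-, u, hu, hr⟩
  exact hcon e heP he u hu hr

end PU

open PU Pool.Agent.Y989.SD.AUP

theorem t_PU : S_FP1 → S_FP2 → S_PU := by
  intro hFP1 hFP2 f g M α hS
  obtain ⟨l, H, hl0, hH, hl, -⟩ := Pool.Agent.Y989.SD.m_GA f g M α hS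
  obtain ⟨ρ, B, ε0, hρ, hε0, hG⟩ := Pool.Agent.Y989.SD.m_GD f g M α hS
  obtain ⟨c, C, hc, hC, hWin⟩ := Pool.Agent.Y989.SD.m_WIN B α hS.al0
  obtain ⟨K1, C1, ρ1, ε1, hK1, hC1, hρ1, hε1, hP1⟩ := hFP1 f g M α hS
  obtain ⟨K2, C2, ε2, hK2, hC2, hε2, hP2⟩ := hFP2 f g M α hS
  -- constants
  obtain ⟨K, hK⟩ : ∃ K : ℝ, K = C1 + H + 4 := ⟨_, rfl⟩
  have hK4 : 4 ≤ K := by rw [hK]; linarith only [hC1, hH]
  have hK0 : 0 < K := by linarith only [hK4]
  obtain ⟨κ, hκ⟩ : ∃ κ : ℝ, κ = min (l / 20) (min (1 / 4) (min (ρ / 4) (ρ1 / 4))) := ⟨_, rfl⟩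
  have hκ0 : 0 < κ := by
    rw [hκ]
    exact lt_min (by positivity) (lt_min (by norm_num) (lt_min (by positivity) (by positivity)))
  have hκl : κ ≤ l / 20 := by rw [hκ]; exact min_le_left _ _
  have hκ1 : κ ≤ 1 / 4 := by rw [hκ]; exact (min_le_right _ _).trans (min_le_left _ _)
  have hκρ : κ ≤ ρ / 4 := by
    rw [hκ]; exact (min_le_right _ _).trans ((min_le_right _ _).trans (min_le_left _ _))
  have hκρ1 : κ ≤ ρ1 / 4 := by
    rw [hκ]; exact (min_le_right _ _).trans ((min_le_right _ _).trans (min_le_right _ _))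
  obtain ⟨κ', hκ'⟩ : ∃ κ' : ℝ, κ' = min κ (l * κ / (16 * (K + 1))) := ⟨_, rfl⟩
  have hκ'0 : 0 < κ' := by rw [hκ']; exact lt_min hκ0 (by positivity)
  have hκ'κ : κ' ≤ κ := by rw [hκ']; exact min_le_left _ _
  have hκ'l : κ' ≤ l * κ / (16 * (K + 1)) := by rw [hκ']; exact min_le_right _ _
  obtain ⟨η, hη⟩ : ∃ η : ℝ, η = min (ρ1) (min (1 / 2) (min (l / (2 * C1)) (1 / (1 + C1)))) := ⟨_, rfl⟩
  have hη0 : 0 < η := by
    rw [hη]
    exact lt_min hρ1 (lt_min (by norm_num) (lt_min (by positivity) (by positivity)))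
  have hη1 : η ≤ ρ1 := by rw [hη]; exact min_le_left _ _
  have hη2 : η ≤ 1 / 2 := by rw [hη]; exact (min_le_right _ _).trans (min_le_left _ _)
  have hη3 : C1 * η ≤ l / 2 := by
    have : η ≤ l / (2 * C1) := by
      rw [hη]; exact (min_le_right _ _).trans ((min_le_right _ _).trans (min_le_left _ _))
    rw [le_div_iff₀ (by positivity)] at this
    linarith only [this]
  have hη4 : (1 + C1) * η ≤ 1 := by
    have : η ≤ 1 / (1 + C1) := by
      rw [hη]; exact (min_le_right _ _).trans ((min_le_right _ _).trans (min_le_right _ _))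
    rw [le_div_iff₀ (by positivity)] at this
    linarith only [this]
  obtain ⟨Q, hQ⟩ : ∃ Q : ℝ, Q = max 1 (max (C * (8 * K / κ') ^ (1 / 3 : ℝ)) (max (C * (8 * K / κ) ^ (1 / 3 : ℝ))
      (max ((1 + (K + 1) / κ) ^ (1 / 3 : ℝ)) ((1 + (K + 1) / κ') ^ (1 / 3 : ℝ))))) := ⟨_, rfl⟩
  have hQ1 : 1 ≤ Q := by rw [hQ]; exact le_max_left _ _
  have hQ2 : C * (8 * K / κ') ^ (1 / 3 : ℝ) ≤ Q := by
    rw [hQ]; exact le_trans (le_max_left _ _) (le_max_right _ _)
  have hQ3 : C * (8 * K / κ) ^ (1 / 3 : ℝ) ≤ Q := by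
    rw [hQ]; exact le_trans (le_trans (le_max_left _ _) (le_max_right _ _)) (le_max_right _ _)
  have hQ4 : (1 + (K + 1) / κ) ^ (1 / 3 : ℝ) ≤ Q := by
    rw [hQ]
    exact le_trans (le_trans (le_trans (le_max_left _ _) (le_max_right _ _)) (le_max_right _ _)) (le_max_right _ _)
  have hQ5 : (1 + (K + 1) / κ') ^ (1 / 3 : ℝ) ≤ Q := by
    rw [hQ]
    exact le_trans (le_trans (le_trans (le_max_right _ _) (le_max_right _ _)) (le_max_right _ _)) (le_max_right _ _)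
  have hQ0 : 0 < Q := by linarith only [hQ1]
  -- the mesh constants
  obtain ⟨KD, hKD⟩ : ∃ KD : ℝ, KD = max 1 (max K1 (max K2 (max (2 * C2 / l) (8 / l)))) := ⟨_, rfl⟩
  have hKD1 : 1 ≤ KD := by rw [hKD]; exact le_max_left _ _
  have hKD2 : K1 ≤ KD := by rw [hKD]; exact le_trans (le_max_left _ _) (le_max_right _ _)
  have hKD3 : K2 ≤ KD := by
    rw [hKD]; exact le_trans (le_trans (le_max_left _ _) (le_max_right _ _)) (le_max_right _ _)
  have hKD4 : 2 * C2 / l ≤ KD := by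
    rw [hKD]
    exact le_trans (le_trans (le_trans (le_max_left _ _) (le_max_right _ _)) (le_max_right _ _)) (le_max_right _ _)
  have hKD5 : 8 / l ≤ KD := by
    rw [hKD]
    exact le_trans (le_trans (le_trans (le_max_right _ _) (le_max_right _ _)) (le_max_right _ _)) (le_max_right _ _)
  obtain ⟨εm, hεm⟩ : ∃ εm : ℝ, εm = min ε0 (min ε1 (min ε2 (η / KD))) := ⟨_, rfl⟩
  have hKD0 : 0 < KD := by linarith only [hKD1]
  have hεm0 : 0 < εm := by
    rw [hεm]
    exact lt_min hε0 (lt_min hε1 (lt_min hε2 (by positivity)))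
  refine ⟨KD, Q * Q, εm, hKD0, by positivity, hεm0, ?_⟩
  intro ε θ1 θ2 z w hεε hDt
  have hε : 0 < ε := hDt.e0
  have e0 : ε ≤ ε0 := hεε.trans (by rw [hεm]; exact min_le_left _ _)
  have e1 : ε ≤ ε1 := hεε.trans (by rw [hεm]; exact (min_le_right _ _).trans (min_le_left _ _))
  have e2 : ε ≤ ε2 := hεε.trans (by
    rw [hεm]; exact (min_le_right _ _).trans ((min_le_right _ _).trans (min_le_left _ _)))
  have e3 : KD * ε ≤ η := by
    have : ε ≤ η / KD := hεε.trans (by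
      rw [hεm]; exact (min_le_right _ _).trans ((min_le_right _ _).trans (min_le_right _ _)))
    rw [le_div_iff₀ hKD0] at this
    linarith only [this]
  have h12 := hDt.h12
  have h21 := hDt.h21
  obtain ⟨-, hG2, -⟩ := hG ε hε e0
  obtain ⟨δ, hδ⟩ : ∃ δ : ℝ, δ = 1 - ‖w‖ := ⟨_, rfl⟩
  obtain ⟨ℓ, hℓ⟩ : ∃ ℓ : ℝ, ℓ = θ2 - θ1 := ⟨_, rfl⟩
  obtain ⟨d, hd⟩ : ∃ d : ℝ, d = ad w θ1 θ2 := ⟨_, rfl⟩
  have hδK : KD * ε ≤ δ := by rw [hδ]; exact hDt.hw
  have hℓK : KD * ε ≤ ℓ := by rw [hℓ]; exact hDt.hI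
  have hεδ : ε ≤ δ := le_trans (by nlinarith only [hKD1, hε]) hδK
  have hεℓ : ε ≤ ℓ := le_trans (by nlinarith only [hKD1, hε]) hℓK
  have hδ0 : 0 < δ := by linarith only [hεδ, hε]
  have hℓ0 : 0 < ℓ := by linarith only [hεℓ, hε]
  have hδd : δ ≤ d := by rw [hδ, hd]; exact le_ad h12.le
  have hd0 : 0 < d := by linarith only [hδd, hδ0]
  have hw1 : ‖w‖ ≤ 1 := by linarith only [hδ0, hδ]
  have hwd : w ∈ disc := by
    unfold disc
    rw [Metric.mem_closedBall, dist_zero_right]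
    exact hw1
  have hδ1 : δ ≤ 1 := by rw [hδ]; linarith only [norm_nonneg w]
  have hd2 : d ≤ 2 := by
    have h1 : ad w θ1 θ2 ≤ ‖w - cir θ1‖ := ad_le le_rfl h12.le
    rw [hd]
    refine h1.trans ((norm_sub_le _ _).trans ?_)
    rw [norm_cir]
    linarith only [hw1]
  obtain ⟨T, hT⟩ : ∃ T : Finset Vtx, T = TD f ε := ⟨_, rfl⟩
  have hgh : gh w θ1 θ2 ^ (1 / 3 : ℝ) = (δ / (δ + d)) ^ (1 / 3 : ℝ) * (ℓ / (ℓ + d)) ^ (1 / 3 : ℝ) := by
    unfold gh
    rw [← hδ, ← hd, ← hℓ, Real.mul_rpow (by positivity) (by positivity)]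
  rw [hgh]
  have hle1 : Pr hf (ES T) (Sep f ε θ1 θ2 z) ≤ 1 := Pr_le_one okhalf _ _
  obtain ⟨P, hP⟩ : ∃ P : ℝ, P = Pr hf (ES T) (Sep f ε θ1 θ2 z) := ⟨_, rfl⟩
  rw [← hP] at hle1
  rw [← hT, ← hP]
  have hgoal : P ≤ (Q * (δ / (δ + d)) ^ (1 / 3 : ℝ)) * (Q * (ℓ / (ℓ + d)) ^ (1 / 3 : ℝ)) →
      P ≤ Q * Q * ((δ / (δ + d)) ^ (1 / 3 : ℝ) * (ℓ / (ℓ + d)) ^ (1 / 3 : ℝ)) := by
    intro h
    refine h.trans (le_of_eq (by ring))
  apply hgoal
  -- the estimates of the arms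
  have hone : ∀ (k : ℝ), 0 < k → k ≤ κ → C * (8 * K / k) ^ (1 / 3 : ℝ) ≤ Q → ∀ (x : ℝ) (v : Vtx), ε ≤ x →
      Win T v ⌊ρ / ε⌋ B α → ⌈K * x / ε⌉ ≤ ⌊k * d / ε⌋ →
      Pr hf (ES T) (XT T v ⌈K * x / ε⌉ ⌊k * d / ε⌋) ≤ Q * (x / (x + d)) ^ (1 / 3 : ℝ) := by
    intro k hk0 hkκ hkQ x v hx hvW hsm
    obtain ⟨q1, -, -, q4, -⟩ := small_le hε hx hd0 hK4 hk0 (by linarith only [hkκ, hκ1]) hsm
    have hRL : ⌊k * d / ε⌋ ≤ ⌊ρ / ε⌋ := by
      refine Int.floor_le_floor ?_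
      refine div_le_div_of_nonneg_right ?_ hε.le
      nlinarith only [mul_le_mul hkκ hd2 hd0.le hκ0.le, hκρ, hρ]
    have q5 := (hWin T v _ hvW _ _ q4 hsm hRL).1
    have hx0 : 0 < x := by linarith only [hx, hε]
    have q6 : (((⌈K * x / ε⌉ : ℤ) : ℝ) / (⌊k * d / ε⌋ : ℝ)) ^ (1 / 3 : ℝ) ≤
        (8 * K / k * (x / (x + d))) ^ (1 / 3 : ℝ) := by
      refine Real.rpow_le_rpow ?_ q1 (by norm_num)
      have : (0 : ℝ) ≤ ((⌈K * x / ε⌉ : ℤ) : ℝ) := by exact_mod_cast (by omega : (0 : ℤ) ≤ ⌈K * x / ε⌉)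
      have : (0 : ℝ) ≤ (⌊k * d / ε⌋ : ℝ) := by exact_mod_cast (by omega : (0 : ℤ) ≤ ⌊k * d / ε⌋)
      positivity
    rw [Real.mul_rpow (by positivity) (by positivity)] at q6
    calc Pr hf (ES T) (XT T v ⌈K * x / ε⌉ ⌊k * d / ε⌋)
        ≤ C * (((⌈K * x / ε⌉ : ℤ) : ℝ) / (⌊k * d / ε⌋ : ℝ)) ^ (1 / 3 : ℝ) := q5
      _ ≤ C * ((8 * K / k) ^ (1 / 3 : ℝ) * (x / (x + d)) ^ (1 / 3 : ℝ)) :=
          mul_le_mul_of_nonneg_left q6 hC.le
      _ = C * (8 * K / k) ^ (1 / 3 : ℝ) * (x / (x + d)) ^ (1 / 3 : ℝ) := by ring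
      _ ≤ Q * (x / (x + d)) ^ (1 / 3 : ℝ) := mul_le_mul_of_nonneg_right hkQ (by positivity)
  have hlarge : ∀ (k : ℝ), 0 < k → (1 + (K + 1) / k) ^ (1 / 3 : ℝ) ≤ Q → ∀ x : ℝ, ε ≤ x →
      ¬ ⌈K * x / ε⌉ ≤ ⌊k * d / ε⌋ → 1 ≤ Q * (x / (x + d)) ^ (1 / 3 : ℝ) := by
    intro k hk0 hkQ x hx hsm
    have hx0 : 0 < x := by linarith only [hx, hε]
    have q1 := large_le hε hx hd0 hk0 hsm
    have q2 : (1 : ℝ) ^ (1 / 3 : ℝ) ≤ ((1 + (K + 1) / k) * (x / (x + d))) ^ (1 / 3 : ℝ) :=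
      Real.rpow_le_rpow zero_le_one q1 (by norm_num)
    rw [Real.one_rpow, Real.mul_rpow (by positivity) (by positivity)] at q2
    exact q2.trans (mul_le_mul_of_nonneg_right hkQ (by positivity))
  -- the window of the arc
  obtain ⟨v2, hv2T, hv2, hv2W⟩ := hG2 ((θ1 + θ2) / 2)
  obtain ⟨q, hq⟩ : ∃ q : ℂ, q = cir ((θ1 + θ2) / 2) := ⟨_, rfl⟩
  rw [← hq] at hv2
  have hq1 : ‖q‖ = 1 := by rw [hq]; exact norm_cir _
  have hqd : q ∈ disc := by
    unfold disc
    rw [Metric.mem_closedBall, dist_zero_right]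
    exact hq1.le
  have hnI : ∀ u ∈ near f ε θ1 θ2, u ∈ T ∧ ‖pos ε u - pos ε v2‖ ≤ K * ℓ := by
    rintro u ⟨hu, θ, t1, t2, t3⟩
    refine ⟨by rw [hT]; exact hu, ?_⟩
    have h1 : ‖f (cir θ) - f q‖ ≤ H * (ℓ / 2) := by
      refine ((hl _ (cir_mem θ) _ hqd).2).trans (mul_le_mul_of_nonneg_left ?_ hH.le)
      rw [hq]
      refine (cir_up _ _).trans ?_
      rw [abs_le, hℓ]
      constructor <;> linarith only [t1, t2]
    have e : pos ε u - pos ε v2 = (pos ε u - f (cir θ)) + (f (cir θ) - f q) - (pos ε v2 - f q) := by ring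
    rw [e]
    refine (norm_sub_le _ _).trans ?_
    have h3 := norm_add_le (pos ε u - f (cir θ)) (f (cir θ) - f q)
    have h4 : (H + 4) * ℓ ≤ K * ℓ := by
      rw [hK]
      nlinarith only [hC1, hℓ0]
    nlinarith only [h1, h3, h4, t3, hv2, hεℓ, hH, hℓ0]
  have hceil : ∀ (x : ℝ) (u v : Vtx), ‖pos ε u - pos ε v‖ ≤ K * x → u ∈ BX v ⌈K * x / ε⌉ := by
    intro x u v h
    refine mem_of_norm hε (h.trans ?_)
    have := Int.le_ceil (K * x / ε)
    rw [div_le_iff₀ hε] at this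
    exact this
  by_cases sa : ⌈K * δ / ε⌉ ≤ ⌊κ * d / ε⌋
  · -- `δ` small
    obtain ⟨-, i0, i1, -, i2⟩ := small_le hε hεδ hd0 hK4 hκ0 (by linarith only [hκ1]) sa
    have iC : C1 * δ ≤ κ * d := by
      refine le_trans ?_ i0
      rw [hK]
      nlinarith only [hH, hδ0]
    have iH : H * δ ≤ κ * d := by
      refine le_trans ?_ i0
      rw [hK]
      nlinarith only [hC1, hδ0]
    have iδ : δ ≤ κ * d := by
      refine le_trans ?_ i0
      nlinarith only [hK4, hδ0]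
    have hδρ1 : 1 - ‖w‖ ≤ ρ1 := by
      rw [← hδ]
      have : κ * d ≤ κ * 2 := mul_le_mul_of_nonneg_left hd2 hκ0.le
      linarith only [this, iδ, hκρ1, hρ1]
    obtain ⟨b, θ', hb, hθ', hpath⟩ := hP1 ε z w hε e1 (by
      rw [← hδ]
      exact le_trans (mul_le_mul_of_nonneg_right hKD2 hε.le) hδK) hδρ1 (by
      rw [hDt.hz, sub_self, norm_zero]; positivity)
    rw [← hδ] at hθ' hpath
    -- the end is in the other arc
    have hout : cir θ' ∉ arc θ1 θ2 := by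
      rintro ⟨t, ht, hte⟩
      have h1 : ad w θ1 θ2 ≤ ‖w - cir t‖ := ad_le ht.1 ht.2
      rw [hte, ← hd, norm_sub_rev] at h1
      have : κ * d ≤ 1 / 4 * d := mul_le_mul_of_nonneg_right hκ1 hd0.le
      linarith only [this, h1, hθ', iC, hd0]
    obtain ⟨θ'', r1, r2, r3⟩ := rep hout
    have hbt : b ∈ touch f ε θ2 (θ1 + 2 * Real.pi) := ⟨θ'', r1, r2, by rw [r3]; exact hb⟩
    -- the window at the closest point
    obtain ⟨v1, hv1T, hv1, hv1W⟩ := hG2 (Complex.arg w)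
    obtain ⟨x, hx⟩ : ∃ x : ℂ, x = cir (Complex.arg w) := ⟨_, rfl⟩
    rw [← hx] at hv1
    have hxd : x ∈ disc := by rw [hx]; exact cir_mem _
    have hwx : ‖w - x‖ = δ := by
      have h1 : w = ‖w‖ * x := by
        rw [hx]
        unfold cir
        exact (Complex.norm_mul_exp_arg_mul_I w).symm
      have h2 : w - x = ((‖w‖ - 1 : ℝ) : ℂ) * x := by
        push_cast
        linear_combination h1
      rw [h2, norm_mul, hx, norm_cir, mul_one, Complex.norm_real, Real.norm_eq_abs, abs_sub_comm,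
        abs_of_nonneg (by linarith only [hw1]), hδ]
    -- what `Sep` gives
    have key : ∀ F, F ⊆ ES T → Sep f ε θ1 θ2 z F → ∃ u ∈ near f ε θ1 θ2, ∃ y ∈ T,
        ‖pos ε y - f w‖ ≤ C1 * δ ∧ Reach (F : Set Edg) u y := by
      intro F _ hSep
      have hn := hSep b hbt
      obtain ⟨e, heP, heT, u, hu, hr⟩ := cross hpath hn
      refine ⟨u, hu, src e, ?_, heP, hr⟩
      rw [hT]
      exact (mem_ES.1 heT).1
    have hux : ∀ u ∈ near f ε θ1 θ2, 2 * ((((⌊κ * d / ε⌋ - 1 : ℤ) : ℝ)) * ε) < ‖pos ε u - pos ε v1‖ := by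
      rintro u ⟨hu, θ, t1, t2, t3⟩
      have h1 : l * d ≤ ‖f (cir θ) - f w‖ := by
        refine le_trans (mul_le_mul_of_nonneg_left ?_ hl0.le) (hl _ (cir_mem θ) _ hwd).1
        rw [norm_sub_rev, hd]
        exact ad_le t1 t2
      have h2 : ‖f w - f x‖ ≤ H * δ := by
        rw [← hwx]
        exact (hl _ hwd _ hxd).2
      have h3 : ‖f (cir θ) - f w‖ ≤ ‖pos ε u - f (cir θ)‖ + ‖pos ε u - pos ε v1‖ + ‖pos ε v1 - f x‖ +
          ‖f w - f x‖ := by
        have e : f (cir θ) - f w = -(pos ε u - f (cir θ)) + (pos ε u - pos ε v1) + (pos ε v1 - f x) -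
            (f w - f x) := by ring
        rw [e]
        refine (norm_sub_le _ _).trans ?_
        have a1 := norm_add_le (-(pos ε u - f (cir θ)) + (pos ε u - pos ε v1)) (pos ε v1 - f x)
        have a2 := norm_add_le (-(pos ε u - f (cir θ))) (pos ε u - pos ε v1)
        rw [norm_neg] at a2
        linarith only [a1, a2, norm_sub_le (-(pos ε u - f (cir θ)) + (pos ε u - pos ε v1) + (pos ε v1 - f x)) (f w - f x)]
      have h4 : κ * d ≤ l / 20 * d := mul_le_mul_of_nonneg_right hκl hd0.le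
      push_cast
      nlinarith only [h1, h2, h3, h4, t3, hv1, iH, i1, i2, hε, hd0, hl0, hκ0]
    have hyx : ∀ y, ‖pos ε y - f w‖ ≤ C1 * δ → ‖pos ε y - pos ε v1‖ ≤ K * δ := by
      intro y hy
      have h2 : ‖f w - f x‖ ≤ H * δ := by
        rw [← hwx]
        exact (hl _ hwd _ hxd).2
      have e : pos ε y - pos ε v1 = (pos ε y - f w) + (f w - f x) - (pos ε v1 - f x) := by ring
      rw [e]
      refine (norm_sub_le _ _).trans ?_
      have a1 := norm_add_le (pos ε y - f w) (f w - f x)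
      rw [hK]
      nlinarith only [a1, h2, hy, hv1, hεδ, hδ0]
    have hwq : d ≤ ‖w - q‖ := by
      rw [hd, hq]
      exact ad_le (by linarith only [h12]) (by linarith only [h12])
    have hyq : ∀ y, ‖pos ε y - f w‖ ≤ C1 * δ →
        2 * ((((⌊κ * d / ε⌋ - 1 : ℤ) : ℝ)) * ε) < ‖pos ε y - pos ε v2‖ := by
      intro y hy
      have h1 : l * d ≤ ‖f w - f q‖ :=
        le_trans (mul_le_mul_of_nonneg_left hwq hl0.le) (hl _ hwd _ hqd).1
      have e : f w - f q = -(pos ε y - f w) + (pos ε y - pos ε v2) + (pos ε v2 - f q) := by ring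
      have h3 : ‖f w - f q‖ ≤ ‖pos ε y - f w‖ + ‖pos ε y - pos ε v2‖ + ‖pos ε v2 - f q‖ := by
        rw [e]
        have a1 := norm_add_le (-(pos ε y - f w) + (pos ε y - pos ε v2)) (pos ε v2 - f q)
        have a2 := norm_add_le (-(pos ε y - f w)) (pos ε y - pos ε v2)
        rw [norm_neg] at a2
        linarith only [a1, a2]
      have h4 : κ * d ≤ l / 20 * d := mul_le_mul_of_nonneg_right hκl hd0.le
      push_cast
      nlinarith only [h1, h3, h4, hy, hv2, iC, i1, i2, hε, hd0, hl0, hκ0]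
    have hA1 : ∀ F, F ⊆ ES T → Sep f ε θ1 θ2 z F →
        XT T v1 ⌈K * δ / ε⌉ ⌊κ * d / ε⌋ (F ∩ ES (T ∩ BX v1 ⌊κ * d / ε⌋)) := by
      intro F hF hSep
      obtain ⟨u, hu, y, hyT, hy, hr⟩ := key F hF hSep
      exact XT_exit hF sa hyT (hceil δ _ _ (hyx y hy)) (not_mem hε (hux u hu)) hr.symm
    have hB1 := hone κ hκ0 le_rfl hQ3 δ v1 hεδ (by rw [hT]; exact hv1W) sa
    by_cases sb : ⌈K * ℓ / ε⌉ ≤ ⌊κ * d / ε⌋
    · have hB2 := hone κ hκ0 le_rfl hQ3 ℓ v2 hεℓ (by rw [hT]; exact hv2W) sb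
      have hdis : ∀ x', x' ∈ BX v1 ⌊κ * d / ε⌋ → x' ∉ BX v2 ⌊κ * d / ε⌋ := by
        intro x' hx1 hx2
        have a1 := norm_of_mem hε hx1
        have a2 := norm_of_mem hε hx2
        have h1 : l * (d - δ) ≤ ‖f x - f q‖ := by
          refine le_trans (mul_le_mul_of_nonneg_left ?_ hl0.le) (hl _ hxd _ hqd).1
          have e : w - q = (w - x) + (x - q) := by ring
          have := norm_add_le (w - x) (x - q)
          rw [← e, hwx] at this
          linarith only [this, hwq]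
        have e : f x - f q = -(pos ε v1 - f x) + (-(pos ε x' - pos ε v1)) + (pos ε x' - pos ε v2) +
            (pos ε v2 - f q) := by ring
        have h3 : ‖f x - f q‖ ≤ ‖pos ε v1 - f x‖ + ‖pos ε x' - pos ε v1‖ + ‖pos ε x' - pos ε v2‖ +
            ‖pos ε v2 - f q‖ := by
          rw [e]
          have b1 := norm_add_le (-(pos ε v1 - f x) + (-(pos ε x' - pos ε v1)) + (pos ε x' - pos ε v2))
            (pos ε v2 - f q)
          have b2 := norm_add_le (-(pos ε v1 - f x) + (-(pos ε x' - pos ε v1))) (pos ε x' - pos ε v2)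
          have b3 := norm_add_le (-(pos ε v1 - f x)) (-(pos ε x' - pos ε v1))
          rw [norm_neg, norm_neg] at b3
          linarith only [b1, b2, b3]
        have h4 : κ * d ≤ l / 20 * d := mul_le_mul_of_nonneg_right hκl hd0.le
        have h5 : l * δ ≤ l * (κ * d) := mul_le_mul_of_nonneg_left iδ hl0.le
        have h6 : l * (κ * d) ≤ l * (1 / 4 * d) :=
          mul_le_mul_of_nonneg_left (mul_le_mul_of_nonneg_right hκ1 hd0.le) hl0.le
        have h7 : 0 < l * d := by positivity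
        nlinarith only [h1, h3, h4, h5, h6, h7, a1, a2, hv1, hv2, i1, i2, hε]
      have h1 : P ≤ Pr hf (ES T) (XT T v1 ⌈K * δ / ε⌉ ⌊κ * d / ε⌋) *
          Pr hf (ES T) (XT T v2 ⌈K * ℓ / ε⌉ ⌊κ * d / ε⌋) := by
        rw [hP]
        refine two_le _ hdis ?_
        intro F hF hSep
        refine ⟨hA1 F hF hSep, ?_⟩
        obtain ⟨u, hu, y, hyT, hy, hr⟩ := key F hF hSep
        exact XT_exit hF sb (hnI u hu).1 (hceil ℓ _ _ (hnI u hu).2) (not_mem hε (hyq y hy)) hr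
      exact h1.trans (mul_le_mul hB1 hB2 (Pr_nonneg okhalf _ _)
        ((Pr_nonneg okhalf _ _).trans hB1))
    · have h1 : P ≤ Pr hf (ES T) (XT T v1 ⌈K * δ / ε⌉ ⌊κ * d / ε⌋) := by
        rw [hP]
        exact one_le _ hA1
      have h3 := hlarge κ hκ0 hQ4 ℓ hεℓ sb
      calc P ≤ (Q * (δ / (δ + d)) ^ (1 / 3 : ℝ)) * 1 := by
            rw [mul_one]; exact h1.trans hB1
        _ ≤ _ := mul_le_mul_of_nonneg_left h3 (by positivity)
  · -- `δ` large
    have h3 := hlarge κ hκ0 hQ4 δ hεδ sa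
    by_cases sb : ⌈K * ℓ / ε⌉ ≤ ⌊κ' * d / ε⌋
    · obtain ⟨-, i0, i1, -, i2⟩ := small_le hε hεℓ hd0 hK4 hκ'0 (by linarith only [hκ'κ, hκ1]) sb
      have hB2 := hone κ' hκ'0 hκ'κ hQ2 ℓ v2 hεℓ (by rw [hT]; exact hv2W) sb
      have hdδ : κ * d ≤ (K + 1) * δ := by
        have := large_le hε hεδ hd0 hκ0 sa
        rw [← mul_div_assoc, le_div_iff₀ (by linarith only [hδ0, hd0]), one_mul, add_mul, one_mul] at this
        have h5 : d ≤ (K + 1) / κ * δ := by linarith only [this]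
        calc κ * d ≤ κ * ((K + 1) / κ * δ) := mul_le_mul_of_nonneg_left h5 hκ0.le
          _ = (K + 1) * δ := by field_simp
      -- the three paths
      obtain ⟨p1, hp1⟩ : ∃ p1 : ℂ, p1 = -((1 - η : ℝ) : ℂ) * q := ⟨_, rfl⟩
      have hp1n : ‖p1‖ = 1 - η := by
        rw [hp1, norm_mul, norm_neg, Complex.norm_real, hq1, mul_one, Real.norm_eq_abs,
          abs_of_nonneg (by linarith only [hη2])]
      have hp1d : p1 ∈ disc := by
        unfold disc
        rw [Metric.mem_closedBall, dist_zero_right, hp1n]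
        linarith only [hη0]
      obtain ⟨z0, hz0⟩ := face hε (f 0)
      obtain ⟨z1, hz1⟩ := face hε (f p1)
      have hKδ : K2 * ε ≤ 1 - ‖w‖ := by
        rw [← hδ]
        exact le_trans (mul_le_mul_of_nonneg_right hKD3 hε.le) hδK
      have hKη2 : K2 * ε ≤ η := le_trans (mul_le_mul_of_nonneg_right hKD3 hε.le) e3
      have hKη1 : K1 * ε ≤ η := le_trans (mul_le_mul_of_nonneg_right hKD2 hε.le) e3
      have path1 := hP2 ε z z0 w 0 hε e2 hKδ (by rw [norm_zero]; linarith only [hKη2, hη2])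
        (by rw [hDt.hz, sub_self, norm_zero]; positivity) hz0
      have path2 := hP2 ε z0 z1 0 p1 hε e2 (by rw [norm_zero]; linarith only [hKη2, hη2]) (by rw [hp1n]; linarith only [hKη2]) hz0 hz1
      obtain ⟨b, θ', hb, hθ', path3⟩ := hP1 ε z1 p1 hε e1 (by rw [hp1n]; linarith only [hKη1]) (by rw [hp1n]; linarith only [hη1]) hz1
      have e1η : 1 - ‖p1‖ = η := by rw [hp1n]; ring
      rw [e1η] at hθ' path3
      -- distances to `q`
      have hq2 : ‖p1 - q‖ = 2 - η := by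
        have : p1 - q = -((2 - η : ℝ) : ℂ) * q := by
          rw [hp1]
          push_cast
          ring
        rw [this, norm_mul, norm_neg, Complex.norm_real, hq1, mul_one, Real.norm_eq_abs,
          abs_of_nonneg (by linarith only [hη2])]
      have hseg1 : ∀ p ∈ segment ℝ w 0, p ∈ disc ∧ δ ≤ ‖p - q‖ := by
        intro p hp
        have h1 : ‖p‖ ≤ ‖w‖ := by
          obtain ⟨s, t, hs, ht, hst, rfl⟩ := hp
          rw [smul_zero, add_zero, norm_smul, Real.norm_eq_abs, abs_of_nonneg hs]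
          have := norm_nonneg w
          nlinarith only [this, hst, ht, hs]
        constructor
        · unfold disc
          rw [Metric.mem_closedBall, dist_zero_right]
          linarith only [h1, hw1]
        · have := norm_sub_norm_le q p
          rw [hq1, norm_sub_rev] at this
          linarith only [this, h1, hδ]
      have hseg2 : ∀ p ∈ segment ℝ 0 p1, p ∈ disc ∧ δ ≤ ‖p - q‖ := by
        intro p hp
        obtain ⟨s, t, hs, ht, hst, rfl⟩ := hp
        rw [smul_zero, zero_add]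
        constructor
        · unfold disc
          rw [Metric.mem_closedBall, dist_zero_right, norm_smul, Real.norm_eq_abs, abs_of_nonneg ht, hp1n]
          nlinarith only [hst, hs, ht, hη0, hη2]
        · have : t • p1 - q = -((1 + t * (1 - η) : ℝ) : ℂ) * q := by
            rw [hp1, Complex.real_smul]
            push_cast
            ring
          rw [this, norm_mul, norm_neg, Complex.norm_real, hq1, mul_one, Real.norm_eq_abs]
          have h2 : 0 ≤ t * (1 - η) := mul_nonneg ht (by linarith only [hη2])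
          rw [abs_of_nonneg (by linarith only [h2])]
          linarith only [h2, hδ1]
      have hlow : ∀ (y : Vtx) (p : ℂ), p ∈ disc → δ ≤ ‖p - q‖ → ‖pos ε y - f p‖ ≤ C2 * ε →
          l * δ / 2 ≤ ‖pos ε y - f q‖ := by
        intro y p hpd hpq hy
        have h1 : l * δ ≤ ‖f p - f q‖ := le_trans (mul_le_mul_of_nonneg_left hpq hl0.le) (hl _ hpd _ hqd).1
        have h2 : ‖f p - f q‖ ≤ ‖pos ε y - f q‖ + ‖pos ε y - f p‖ := by
          have e : f p - f q = (pos ε y - f q) - (pos ε y - f p) := by ring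
          rw [e]
          exact norm_sub_le _ _
        have h4 : C2 * ε ≤ l * δ / 2 := by
          have h5 : 2 * C2 ≤ KD * l := by
            rw [div_le_iff₀ hl0] at hKD4
            exact hKD4
          have h6 : 2 * C2 * ε ≤ KD * l * ε := mul_le_mul_of_nonneg_right h5 hε.le
          have h7 : l * (KD * ε) ≤ l * δ := mul_le_mul_of_nonneg_left hδK hl0.le
          nlinarith only [h6, h7]
        linarith only [h1, h2, h4, hy]
      have hpath : DReach (↑(ES T) ∩ {e : Edg | l * δ / 2 ≤ ‖pos ε (src e) - f q‖}) z b := by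
        rw [hT]
        refine (path1.mono ?_).trans ((path2.mono ?_).trans (path3.mono ?_))
        · rintro e ⟨he, p, hp, hpe⟩
          exact ⟨he, hlow _ p (hseg1 p hp).1 (hseg1 p hp).2 hpe⟩
        · rintro e ⟨he, p, hp, hpe⟩
          exact ⟨he, hlow _ p (hseg2 p hp).1 (hseg2 p hp).2 hpe⟩
        · rintro e ⟨he, hpe⟩
          refine ⟨he, ?_⟩
          rw [Set.mem_ofPred_eq] at hpe ⊢
          have h1 : l * (2 - η) ≤ ‖f p1 - f q‖ := by
            rw [← hq2]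
            exact (hl _ hp1d _ hqd).1
          have h2 : ‖f p1 - f q‖ ≤ ‖pos ε (src e) - f q‖ + ‖pos ε (src e) - f p1‖ := by
            have e' : f p1 - f q = (pos ε (src e) - f q) - (pos ε (src e) - f p1) := by ring
            rw [e']
            exact norm_sub_le _ _
          nlinarith only [h1, h2, hpe, hη2, hη3, hl0, hδ1]
      -- the end is in the other arc
      have hout : cir θ' ∉ arc θ1 θ2 := by
        rintro ⟨t, ht, hte⟩
        have h1 : ‖cir t - q‖ ≤ ℓ / 2 := by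
          rw [hq]
          refine (cir_up _ _).trans ?_
          rw [abs_le, hℓ]
          constructor <;> linarith only [ht.1, ht.2]
        have h2 : ‖p1 - q‖ ≤ ‖cir θ' - p1‖ + ‖cir t - q‖ := by
          have e : p1 - q = -(cir θ' - p1) + (cir t - q) := by rw [hte]; ring
          rw [e]
          refine (norm_add_le _ _).trans ?_
          rw [norm_neg]
        have h4 : ℓ ≤ κ' * d := by
          refine le_trans ?_ i0
          nlinarith only [hK4, hℓ0]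
        have h5 : κ' * d ≤ 1 / 4 * 2 := mul_le_mul (by linarith only [hκ'κ, hκ1]) hd2 hd0.le (by norm_num)
        rw [hq2] at h2
        nlinarith only [h1, h2, h4, h5, hθ', hη2, hη4, hC1]
      obtain ⟨θ'', r1, r2, r3⟩ := rep hout
      have hbt : b ∈ touch f ε θ2 (θ1 + 2 * Real.pi) := ⟨θ'', r1, r2, by rw [r3]; exact hb⟩
      have h1 : P ≤ Pr hf (ES T) (XT T v2 ⌈K * ℓ / ε⌉ ⌊κ' * d / ε⌋) := by
        rw [hP]
        refine one_le _ ?_
        intro F hF hSep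
        have hn := hSep b hbt
        rw [← hT] at hn
        obtain ⟨e, heP, heT, u, hu, hr⟩ := cross hpath hn
        refine XT_exit hF sb (hnI u hu).1 (hceil ℓ _ _ (hnI u hu).2) (not_mem hε ?_) hr
        rw [Set.mem_ofPred_eq] at heP
        have h5 : ‖pos ε (src e) - f q‖ ≤ ‖pos ε (src e) - pos ε v2‖ + ‖pos ε v2 - f q‖ := by
          have e' : pos ε (src e) - f q = (pos ε (src e) - pos ε v2) + (pos ε v2 - f q) := by ring
          rw [e']
          exact norm_add_le _ _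
        have h6 : 2 * ε ≤ l * δ / 4 := by
          have h5 : 8 ≤ KD * l := by
            rw [div_le_iff₀ hl0] at hKD5
            exact hKD5
          have h6 : 8 * ε ≤ KD * l * ε := mul_le_mul_of_nonneg_right h5 hε.le
          have h7 : l * (KD * ε) ≤ l * δ := mul_le_mul_of_nonneg_left hδK hl0.le
          nlinarith only [h6, h7]
        have h7 : 4 * (κ' * d) ≤ l * δ / 4 := by
          have h8 : κ' * (16 * (K + 1)) ≤ l * κ := by
            rw [le_div_iff₀ (by positivity)] at hκ'l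
            exact hκ'l
          have h9 : κ' * (16 * (K + 1)) * d ≤ l * κ * d := mul_le_mul_of_nonneg_right h8 hd0.le
          have h10 : l * (κ * d) ≤ l * ((K + 1) * δ) := mul_le_mul_of_nonneg_left hdδ hl0.le
          have h11 : (K + 1) * (16 * (κ' * d)) ≤ (K + 1) * (l * δ) := by nlinarith only [h9, h10]
          have h12 := le_of_mul_le_mul_left h11 (by linarith only [hK0])
          linarith only [h12]
        have h8 : 0 < κ' * d := by positivity
        push_cast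
        nlinarith only [h5, h6, h7, h8, heP, hv2, i1, i2, hε]
      calc P ≤ 1 * (Q * (ℓ / (ℓ + d)) ^ (1 / 3 : ℝ)) := by rw [one_mul]; exact h1.trans hB2
        _ ≤ _ := mul_le_mul_of_nonneg_right h3 (by positivity)
    · have h4 := hlarge κ' hκ'0 hQ5 ℓ hεℓ sb
      calc P ≤ 1 * 1 := by rw [one_mul]; exact hle1
        _ ≤ _ := mul_le_mul h3 h4 zero_le_one (zero_le_one.trans h3)

end Pool.Agent.J6H18.SL
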