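import Pool.Agent.J6H18.GD.Disc
import Pool.Agent.J6H18.GD.Cont

/-!
Project SL (helper18): Schramm's left-passage formula up to constants in `C^(1,α)` Jordan domains.
Definitions and statements of the parts.
-/

set_option autoImplicit false

namespace Pool.Agent.J6H18.SL

open Finset H974
open H973 (ES EV BX)
open Pool.Agent.Y989.SD (disc cir pos TD SmW near hf btT Win XT HT Lp Flat emb QB)
open TH976 (sd)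
open Pool.Agent.J6H18.GD (Jn Ct Rd GD eS)
open Pool.Agent.H389R2.CD (ArS)

/-! ## Harmonic measure in the disc (item HM) -/

/-- the arc of the unit circle -/
def arc (θ1 θ2 : ℝ) : Set ℂ := cir '' Set.Icc θ1 θ2

/-- the distance between `w` and the arc -/
noncomputable def ad (w : ℂ) (θ1 θ2 : ℝ) : ℝ := Metric.infDist w (arc θ1 θ2)

/-- an elementary function comparable to the harmonic measure of the arc seen from `w` -/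
noncomputable def gh (w : ℂ) (θ1 θ2 : ℝ) : ℝ :=
  (1 - ‖w‖) / (1 - ‖w‖ + ad w θ1 θ2) * ((θ2 - θ1) / (θ2 - θ1 + ad w θ1 θ2))

/-- the harmonic measure of the arc seen from `w` (integral of the Poisson kernel) -/
noncomputable def hmd (w : ℂ) (θ1 θ2 : ℝ) : ℝ :=
  (∫ t in θ1..θ2, (1 - ‖w‖ ^ 2) / ‖cir t - w‖ ^ 2) / (2 * Real.pi)

/-- Item HM. -/
def S_HM : Prop := ∃ c C : ℝ, 0 < c ∧ 0 < C ∧ ∀ (w : ℂ) (θ1 θ2 : ℝ), ‖w‖ < 1 → θ1 < θ2 →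
  θ2 < θ1 + 2 * Real.pi →
  c * gh w θ1 θ2 ≤ hmd w θ1 θ2 ∧ hmd w θ1 θ2 ≤ C * gh w θ1 θ2 ∧
    hmd w θ1 θ2 + hmd w θ2 (θ1 + 2 * Real.pi) = 1

/-! ## Faces. The face `(x, y)` is the unit square with lower left corner `(x, y)`; `DReach E f g`
means that a path of faces from `f` to `g` crosses only edges of `E`. -/

/-- the centre of the face `z` -/
noncomputable def cen (ε : ℝ) (z : Vtx) : ℂ := ⟨ε * (z.1 + 1 / 2), ε * (z.2 + 1 / 2)⟩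

/-- the closed square of the face `g` -/
def sqr (ε : ℝ) (g : Vtx) : Set ℂ :=
  {p | (ε * g.1 ≤ p.re ∧ p.re ≤ ε * (g.1 + 1)) ∧ (ε * g.2 ≤ p.im ∧ p.im ≤ ε * (g.2 + 1))}

/-- the faces whose square meets the boundary arc -/
def touch (f : ℂ → ℂ) (ε θ1 θ2 : ℝ) : Set Vtx :=
  {g | ∃ θ, θ1 ≤ θ ∧ θ ≤ θ2 ∧ f (cir θ) ∈ sqr ε g}

/-- the edges of the `F`-clusters of the vertices in `I` -/
def WI (F : Set Edg) (I : Set Vtx) : Set Edg := {e | e ∈ F ∧ ∃ u ∈ I, Reach F u (src e)}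

/-- the clusters of the boundary arc `[θ1, θ2]` separate the face `z` from the complementary
boundary arc `[θ2, θ1 + 2π]` -/
def Sep (f : ℂ → ℂ) (ε θ1 θ2 : ℝ) (z : Vtx) (F : Finset Edg) : Prop :=
  ∀ g ∈ touch f ε θ2 (θ1 + 2 * Real.pi),
    ¬ DReach (↑(ES (TD f ε)) \ WI ↑F (near f ε θ1 θ2)) z g

/-- the data of the four estimates -/
structure Dt (f : ℂ → ℂ) (K ε θ1 θ2 : ℝ) (z : Vtx) (w : ℂ) : Prop where
  e0 : 0 < ε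
  h12 : θ1 < θ2
  h21 : θ2 < θ1 + 2 * Real.pi
  hI : K * ε ≤ θ2 - θ1
  hJ : K * ε ≤ θ1 + 2 * Real.pi - θ2
  hw : K * ε ≤ 1 - ‖w‖
  hz : f w = cen ε z

/-- Item PL: lower bound for the probability. -/
def S_PL : Prop := ∀ (f g : ℂ → ℂ) (M α : ℝ), SmW f g M α → ∃ K c ε0 : ℝ, 0 < K ∧ 0 < c ∧ 0 < ε0 ∧
  ∀ (ε θ1 θ2 : ℝ) (z : Vtx) (w : ℂ), ε ≤ ε0 → Dt f K ε θ1 θ2 z w →
    c * gh w θ1 θ2 ^ (1 / 3 : ℝ) ≤ Pr hf (ES (TD f ε)) (Sep f ε θ1 θ2 z)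

/-- Item PU: upper bound for the probability. -/
def S_PU : Prop := ∀ (f g : ℂ → ℂ) (M α : ℝ), SmW f g M α → ∃ K C ε0 : ℝ, 0 < K ∧ 0 < C ∧ 0 < ε0 ∧
  ∀ (ε θ1 θ2 : ℝ) (z : Vtx) (w : ℂ), ε ≤ ε0 → Dt f K ε θ1 θ2 z w →
    Pr hf (ES (TD f ε)) (Sep f ε θ1 θ2 z) ≤ C * gh w θ1 θ2 ^ (1 / 3 : ℝ)

/-- Item DL: lower bound for the probability of the complement. -/
def S_DL : Prop := ∀ (f g : ℂ → ℂ) (M α : ℝ), SmW f g M α → ∃ K c ε0 : ℝ, 0 < K ∧ 0 < c ∧ 0 < ε0 ∧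
  ∀ (ε θ1 θ2 : ℝ) (z : Vtx) (w : ℂ), ε ≤ ε0 → Dt f K ε θ1 θ2 z w →
    c * gh w θ2 (θ1 + 2 * Real.pi) ^ (1 / 3 : ℝ) ≤
      Pr hf (ES (TD f ε)) (fun F => ¬ Sep f ε θ1 θ2 z F)

/-- Item DU: upper bound for the probability of the complement. -/
def S_DU : Prop := ∀ (f g : ℂ → ℂ) (M α : ℝ), SmW f g M α → ∃ K C ε0 : ℝ, 0 < K ∧ 0 < C ∧ 0 < ε0 ∧
  ∀ (ε θ1 θ2 : ℝ) (z : Vtx) (w : ℂ), ε ≤ ε0 → Dt f K ε θ1 θ2 z w →
    Pr hf (ES (TD f ε)) (fun F => ¬ Sep f ε θ1 θ2 z F) ≤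
      C * gh w θ2 (θ1 + 2 * Real.pi) ^ (1 / 3 : ℝ)

/-! ## Face paths in the domain (item FP) -/

/-- From a face close to the boundary there is a short path of faces to the boundary. -/
def S_FP1 : Prop := ∀ (f g : ℂ → ℂ) (M α : ℝ), SmW f g M α → ∃ K C ρ ε0 : ℝ,
  0 < K ∧ 0 < C ∧ 0 < ρ ∧ 0 < ε0 ∧
  ∀ (ε : ℝ) (z : Vtx) (w : ℂ), 0 < ε → ε ≤ ε0 → K * ε ≤ 1 - ‖w‖ → 1 - ‖w‖ ≤ ρ →
    ‖f w - cen ε z‖ ≤ 2 * ε →
    ∃ (b : Vtx) (θ : ℝ), f (cir θ) ∈ sqr ε b ∧ ‖cir θ - w‖ ≤ C * (1 - ‖w‖) ∧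
      DReach (↑(ES (TD f ε)) ∩ {e | ‖pos ε (src e) - f w‖ ≤ C * (1 - ‖w‖)}) z b

/-- Along a segment in the disc which stays away from the circle there is a path of faces. -/
def S_FP2 : Prop := ∀ (f g : ℂ → ℂ) (M α : ℝ), SmW f g M α → ∃ K C ε0 : ℝ,
  0 < K ∧ 0 < C ∧ 0 < ε0 ∧
  ∀ (ε : ℝ) (z z' : Vtx) (a b : ℂ), 0 < ε → ε ≤ ε0 → K * ε ≤ 1 - ‖a‖ → K * ε ≤ 1 - ‖b‖ →
    ‖f a - cen ε z‖ ≤ 2 * ε → ‖f b - cen ε z'‖ ≤ 2 * ε →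
    DReach (↑(ES (TD f ε)) ∩ {e | ∃ p ∈ segment ℝ a b, ‖pos ε (src e) - f p‖ ≤ C * ε}) z z'

/-! ## The lattices of faces (items WR, GDS) -/

/-- the faces with four corners in `T` -/
noncomputable def Sq (T : Finset Vtx) : Finset Vtx :=
  T.filter fun x => (x.1 + 1, x.2) ∈ T ∧ (x.1, x.2 + 1) ∈ T ∧ (x.1 + 1, x.2 + 1) ∈ T

/-- the faces with at least one corner in `T` -/
noncomputable def Pq (T : Finset Vtx) : Finset Vtx :=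
  ((T ∪ T.image fun x => (x.1 - 1, x.2)) ∪ T.image fun x => (x.1, x.2 - 1)) ∪
    T.image fun x => (x.1 - 1, x.2 - 1)

/-- Item WRP: windows of `Pq T`. -/
def S_WRP : Prop := ∀ B α : ℝ, 0 < α → ∃ B' : ℝ, ∀ (T : Finset Vtx) (v : Vtx) (L : ℤ), 100 ≤ L →
  Win T v L B α → ∃ v', v' ∈ BX v 5 ∧ Win (Pq T) v' (L - 50) B' α

/-- Item WRS: windows of `Sq T`. -/
def S_WRS : Prop := ∀ B α : ℝ, 0 < α → ∃ B' : ℝ, ∀ (T : Finset Vtx) (v : Vtx) (L : ℤ), 100 ≤ L →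
  Win T v L B α → ∀ b, btT (Sq T) b → b ∈ BX v 20 → ∃ w', b ∈ BX w' 3 ∧ Win (Sq T) w' (L - 50) B' α

/-- Item GDS: `Sq (TD f ε)` is a regular lattice domain. -/
def S_GDS : Prop := ∀ (f g : ℂ → ℂ) (M α : ℝ), SmW f g M α → ∃ c ε0 κ k : ℝ, 0 < c ∧ 0 < ε0 ∧
  ∀ ε : ℝ, 0 < ε → ε ≤ ε0 →
    GD (Sq (TD f ε)) (eS (Sq (TD f ε)) ⌊c / ε⌋₊) ⌊c / ε⌋₊ 500 κ k

/-- Item JNL: lower bound for the connection probability of two sets. -/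
def S_JNL : Prop := ∀ κ k : ℝ, ∃ c : ℝ, 0 < c ∧ ∀ (T : Finset Vtx) (L : ℕ),
  GD T (eS T L) L 500 κ k → ∀ (A B : Finset Vtx) (a b : Vtx) (r s D : ℕ),
  (∀ u ∈ A, u ∈ T) → (∀ u ∈ B, u ∈ T) → Ct A → Ct B → Rd A a r → Rd B b s → 1 ≤ D → sd a b = D →
    c * (((r : ℝ) / (r + D)) ^ (1 / 3 : ℝ) * ((s : ℝ) / (s + D)) ^ (1 / 3 : ℝ)) ≤
      Pr hf (ES T) (Jn A B)

/-! ## Half-circuits and dual arms (items HALF, DAP, DA2) -/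

/-- a closed dual arm around `v`, inside `T` -/
def DA (T : Finset Vtx) (v : Vtx) (r R : ℤ) (F : Finset Edg) : Prop :=
  ∃ f g : Vtx, f ∈ BX v r ∧ g ∉ BX v R ∧ DReach (↑(ES T) \ ↑F) f g

/-- Item HALF: if no closed dual arm leaves the neighbourhood of `v`, then the clusters of the
boundary vertices block the paths of faces. -/
def S_HALF : Prop := ∀ (T : Finset Vtx) (v : Vtx) (L r R : ℤ) (B α : ℝ) (I : Set Vtx),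
  Win T v L B α → 1 ≤ r → 100 * r ≤ R → R ≤ L →
  (∀ u, btT T u → u ∈ BX v R → u ∉ BX v r → u ∈ I) →
  ∀ F ⊆ ES T, DA T v (20 * r) (R / 20) F ∨
    ∀ f g : Vtx, f ∈ BX v r → g ∉ BX v R → ¬ DReach (↑(ES T) \ WI ↑F I) f g

/-- Item DAP: the probability of a closed dual arm. -/
def S_DAP : Prop := ∀ B α : ℝ, 0 < α → ∃ C : ℝ, 0 < C ∧ ∀ (T : Finset Vtx) (v : Vtx) (L : ℤ),
  Win T v L B α → ∀ r R : ℤ, 1 ≤ r → r ≤ R → 2 * R ≤ L →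
    Pr hf (ES T) (DA T v r R) ≤ C * ((r : ℝ) / R) ^ (1 / 3 : ℝ)

/-- Item DA2: disjoint dual arms are independent. -/
def S_DA2 : Prop := ∀ (T : Finset Vtx) (v v' : Vtx) (r r' R : ℤ), 0 ≤ r → 0 ≤ r' → r ≤ R → r' ≤ R →
  (∀ x, x ∈ BX v (R + 3) → x ∉ BX v' (R + 3)) →
    Pr hf (ES T) (fun F => DA T v r R F ∧ DA T v' r' R F) ≤
      Pr hf (ES T) (DA T v r R) * Pr hf (ES T) (DA T v' r' R)

end Pool.Agent.J6H18.SL
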