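import Pool.Agent.J6H18.SL.Stm

/-!
Project SL, item WR: the windows of the lattices of faces.
-/

set_option autoImplicit false

namespace Pool.Agent.J6H18.SL

open Finset H974
open H973 (ES EV BX mem_BX)
open Pool.Agent.Y989.SD (btT Win Lp Flat emb QB mem_QB)

theorem mem_Pq {T : Finset Vtx} {z : Vtx} : z ∈ Pq T ↔
    z ∈ T ∨ (z.1 + 1, z.2) ∈ T ∨ (z.1, z.2 + 1) ∈ T ∨ (z.1 + 1, z.2 + 1) ∈ T := by
  unfold Pq
  simp only [mem_union, mem_image, or_assoc]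
  have e1 : (∃ a ∈ T, (a.1 - 1, a.2) = z) ↔ (z.1 + 1, z.2) ∈ T := by
    constructor
    · rintro ⟨a, ha, rfl⟩
      have : ((a.1 - 1 + 1, a.2) : Vtx) = a := Prod.ext (by show a.1 - 1 + 1 = a.1; omega) rfl
      rw [this]
      exact ha
    · intro h
      exact ⟨_, h, Prod.ext (by show z.1 + 1 - 1 = z.1; omega) rfl⟩
  have e2 : (∃ a ∈ T, (a.1, a.2 - 1) = z) ↔ (z.1, z.2 + 1) ∈ T := by
    constructor
    · rintro ⟨a, ha, rfl⟩
      have : ((a.1, a.2 - 1 + 1) : Vtx) = a := Prod.ext rfl (by show a.2 - 1 + 1 = a.2; omega)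
      rw [this]
      exact ha
    · intro h
      exact ⟨_, h, Prod.ext rfl (by show z.2 + 1 - 1 = z.2; omega)⟩
  have e3 : (∃ a ∈ T, (a.1 - 1, a.2 - 1) = z) ↔ (z.1 + 1, z.2 + 1) ∈ T := by
    constructor
    · rintro ⟨a, ha, rfl⟩
      have : ((a.1 - 1 + 1, a.2 - 1 + 1) : Vtx) = a :=
        Prod.ext (by show a.1 - 1 + 1 = a.1; omega) (by show a.2 - 1 + 1 = a.2; omega)
      rw [this]
      exact ha
    · intro h
      exact ⟨_, h, Prod.ext (by show z.1 + 1 - 1 = z.1; omega) (by show z.2 + 1 - 1 = z.2; omega)⟩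
  rw [e1, e2, e3]

theorem mem_Sq {T : Finset Vtx} {z : Vtx} : z ∈ Sq T ↔
    z ∈ T ∧ (z.1 + 1, z.2) ∈ T ∧ (z.1, z.2 + 1) ∈ T ∧ (z.1 + 1, z.2 + 1) ∈ T := by
  unfold Sq
  rw [mem_filter]

/-- the four directions -/
def Dir (e : Vtx) : Prop := e = (0, 1) ∨ e = (1, 0) ∨ e = (0, -1) ∨ e = (-1, 0)

theorem emb_emb (e v a b : Vtx) : emb e (emb e v a) b = emb e v (b.1 + a.1, b.2 + a.2) := by
  unfold emb
  refine Prod.ext ?_ ?_
  · show v.1 + a.1 * e.2 + a.2 * e.1 + b.1 * e.2 + b.2 * e.1 =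
      v.1 + (b.1 + a.1) * e.2 + (b.2 + a.2) * e.1
    ring
  · show v.2 - a.1 * e.1 + a.2 * e.2 - b.1 * e.1 + b.2 * e.2 =
      v.2 - (b.1 + a.1) * e.1 + (b.2 + a.2) * e.2
    ring

/-- the corners of a face in the frame -/
theorem frame {e : Vtx} (he : Dir e) : ∃ s t : ℤ, (s = 1 ∨ s = -1) ∧ (t = 1 ∨ t = -1) ∧
    ∀ (T : Finset Vtx) (v y : Vtx),
      (emb e v y ∈ Pq T ↔ emb e v y ∈ T ∨ emb e v (y.1 + s, y.2) ∈ T ∨
        emb e v (y.1, y.2 + t) ∈ T ∨ emb e v (y.1 + s, y.2 + t) ∈ T) ∧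
      (emb e v y ∈ Sq T ↔ emb e v y ∈ T ∧ emb e v (y.1 + s, y.2) ∈ T ∧
        emb e v (y.1, y.2 + t) ∈ T ∧ emb e v (y.1 + s, y.2 + t) ∈ T) := by
  rcases he with rfl | rfl | rfl | rfl
  · refine ⟨1, 1, Or.inl rfl, Or.inl rfl, fun T v y => ?_⟩
    have e1 : ((emb (0, 1) v y).1 + 1, (emb (0, 1) v y).2) = emb (0, 1) v (y.1 + 1, y.2) :=
      Prod.ext (by simp only [emb]; ring) (by simp only [emb]; ring)
    have e2 : ((emb (0, 1) v y).1, (emb (0, 1) v y).2 + 1) = emb (0, 1) v (y.1, y.2 + 1) :=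
      Prod.ext (by simp only [emb]; ring) (by simp only [emb]; ring)
    have e3 : ((emb (0, 1) v y).1 + 1, (emb (0, 1) v y).2 + 1) = emb (0, 1) v (y.1 + 1, y.2 + 1) :=
      Prod.ext (by simp only [emb]; ring) (by simp only [emb]; ring)
    rw [mem_Pq, mem_Sq, e1, e2, e3]
    exact ⟨Iff.rfl, Iff.rfl⟩
  · refine ⟨-1, 1, Or.inr rfl, Or.inl rfl, fun T v y => ?_⟩
    have e1 : ((emb (1, 0) v y).1 + 1, (emb (1, 0) v y).2) = emb (1, 0) v (y.1, y.2 + 1) :=
      Prod.ext (by simp only [emb]; ring) (by simp only [emb]; ring)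
    have e2 : ((emb (1, 0) v y).1, (emb (1, 0) v y).2 + 1) = emb (1, 0) v (y.1 + -1, y.2) :=
      Prod.ext (by simp only [emb]; ring) (by simp only [emb]; ring)
    have e3 : ((emb (1, 0) v y).1 + 1, (emb (1, 0) v y).2 + 1) =
        emb (1, 0) v (y.1 + -1, y.2 + 1) :=
      Prod.ext (by simp only [emb]; ring) (by simp only [emb]; ring)
    rw [mem_Pq, mem_Sq, e1, e2, e3]
    constructor <;> tauto
  · refine ⟨-1, -1, Or.inr rfl, Or.inr rfl, fun T v y => ?_⟩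
    have e1 : ((emb (0, -1) v y).1 + 1, (emb (0, -1) v y).2) = emb (0, -1) v (y.1 + -1, y.2) :=
      Prod.ext (by simp only [emb]; ring) (by simp only [emb]; ring)
    have e2 : ((emb (0, -1) v y).1, (emb (0, -1) v y).2 + 1) = emb (0, -1) v (y.1, y.2 + -1) :=
      Prod.ext (by simp only [emb]; ring) (by simp only [emb]; ring)
    have e3 : ((emb (0, -1) v y).1 + 1, (emb (0, -1) v y).2 + 1) =
        emb (0, -1) v (y.1 + -1, y.2 + -1) :=
      Prod.ext (by simp only [emb]; ring) (by simp only [emb]; ring)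
    rw [mem_Pq, mem_Sq, e1, e2, e3]
    exact ⟨Iff.rfl, Iff.rfl⟩
  · refine ⟨1, -1, Or.inl rfl, Or.inr rfl, fun T v y => ?_⟩
    have e1 : ((emb (-1, 0) v y).1 + 1, (emb (-1, 0) v y).2) = emb (-1, 0) v (y.1, y.2 + -1) :=
      Prod.ext (by simp only [emb]; ring) (by simp only [emb]; ring)
    have e2 : ((emb (-1, 0) v y).1, (emb (-1, 0) v y).2 + 1) = emb (-1, 0) v (y.1 + 1, y.2) :=
      Prod.ext (by simp only [emb]; ring) (by simp only [emb]; ring)
    have e3 : ((emb (-1, 0) v y).1 + 1, (emb (-1, 0) v y).2 + 1) =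
        emb (-1, 0) v (y.1 + 1, y.2 + -1) :=
      Prod.ext (by simp only [emb]; ring) (by simp only [emb]; ring)
    rw [mem_Pq, mem_Sq, e1, e2, e3]
    constructor <;> tauto

/-- coordinates in the frame -/
theorem frame_inv {e : Vtx} (he : Dir e) {v b : Vtx} {n : ℤ} (hb : b ∈ BX v n) :
    ∃ x y : ℤ, b = emb e v (x, y) ∧ |x| ≤ n ∧ |y| ≤ n := by
  rw [mem_BX] at hb
  rcases he with rfl | rfl | rfl | rfl
  · exact ⟨b.1 - v.1, b.2 - v.2, Prod.ext (by simp only [emb]; ring) (by simp only [emb]; ring),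
      abs_le.2 ⟨by omega, by omega⟩, abs_le.2 ⟨by omega, by omega⟩⟩
  · exact ⟨v.2 - b.2, b.1 - v.1, Prod.ext (by simp only [emb]; ring) (by simp only [emb]; ring),
      abs_le.2 ⟨by omega, by omega⟩, abs_le.2 ⟨by omega, by omega⟩⟩
  · exact ⟨v.1 - b.1, v.2 - b.2, Prod.ext (by simp only [emb]; ring) (by simp only [emb]; ring),
      abs_le.2 ⟨by omega, by omega⟩, abs_le.2 ⟨by omega, by omega⟩⟩
  · exact ⟨b.2 - v.2, v.1 - b.1, Prod.ext (by simp only [emb]; ring) (by simp only [emb]; ring),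
      abs_le.2 ⟨by omega, by omega⟩, abs_le.2 ⟨by omega, by omega⟩⟩

/-- the distance in the frame -/
theorem frame_dist {e : Vtx} (he : Dir e) (v y y' : Vtx) {n : ℤ} (h1 : |y.1 - y'.1| ≤ n)
    (h2 : |y.2 - y'.2| ≤ n) : emb e v y ∈ BX (emb e v y') n := by
  rw [abs_le] at h1 h2
  rw [mem_BX]
  rcases he with rfl | rfl | rfl | rfl <;> simp only [emb] <;> constructor <;> constructor <;> omega

/-- boundary vertices in the frame -/
theorem frame_bt {e : Vtx} (he : Dir e) {S : Finset Vtx} {v y : Vtx} (h : btT S (emb e v y)) :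
    emb e v y ∈ S ∧ (emb e v (y.1 + 1, y.2) ∉ S ∨ emb e v (y.1 - 1, y.2) ∉ S ∨
      emb e v (y.1, y.2 + 1) ∉ S ∨ emb e v (y.1, y.2 - 1) ∉ S) := by
  refine ⟨h.1, ?_⟩
  have h2 := h.2
  rcases he with rfl | rfl | rfl | rfl
  · have e1 : ((emb (0, 1) v y).1 + 1, (emb (0, 1) v y).2) = emb (0, 1) v (y.1 + 1, y.2) :=
      Prod.ext (by simp only [emb]; ring) (by simp only [emb]; ring)
    have e2 : ((emb (0, 1) v y).1 - 1, (emb (0, 1) v y).2) = emb (0, 1) v (y.1 - 1, y.2) :=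
      Prod.ext (by simp only [emb]; ring) (by simp only [emb]; ring)
    have e3 : ((emb (0, 1) v y).1, (emb (0, 1) v y).2 + 1) = emb (0, 1) v (y.1, y.2 + 1) :=
      Prod.ext (by simp only [emb]; ring) (by simp only [emb]; ring)
    have e4 : ((emb (0, 1) v y).1, (emb (0, 1) v y).2 - 1) = emb (0, 1) v (y.1, y.2 - 1) :=
      Prod.ext (by simp only [emb]; ring) (by simp only [emb]; ring)
    rw [e1, e2, e3, e4] at h2
    exact h2
  · have e1 : ((emb (1, 0) v y).1 + 1, (emb (1, 0) v y).2) = emb (1, 0) v (y.1, y.2 + 1) :=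
      Prod.ext (by simp only [emb]; ring) (by simp only [emb]; ring)
    have e2 : ((emb (1, 0) v y).1 - 1, (emb (1, 0) v y).2) = emb (1, 0) v (y.1, y.2 - 1) :=
      Prod.ext (by simp only [emb]; ring) (by simp only [emb]; ring)
    have e3 : ((emb (1, 0) v y).1, (emb (1, 0) v y).2 + 1) = emb (1, 0) v (y.1 - 1, y.2) :=
      Prod.ext (by simp only [emb]; ring) (by simp only [emb]; ring)
    have e4 : ((emb (1, 0) v y).1, (emb (1, 0) v y).2 - 1) = emb (1, 0) v (y.1 + 1, y.2) :=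
      Prod.ext (by simp only [emb]; ring) (by simp only [emb]; ring)
    rw [e1, e2, e3, e4] at h2
    tauto
  · have e1 : ((emb (0, -1) v y).1 + 1, (emb (0, -1) v y).2) = emb (0, -1) v (y.1 - 1, y.2) :=
      Prod.ext (by simp only [emb]; ring) (by simp only [emb]; ring)
    have e2 : ((emb (0, -1) v y).1 - 1, (emb (0, -1) v y).2) = emb (0, -1) v (y.1 + 1, y.2) :=
      Prod.ext (by simp only [emb]; ring) (by simp only [emb]; ring)
    have e3 : ((emb (0, -1) v y).1, (emb (0, -1) v y).2 + 1) = emb (0, -1) v (y.1, y.2 - 1) :=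
      Prod.ext (by simp only [emb]; ring) (by simp only [emb]; ring)
    have e4 : ((emb (0, -1) v y).1, (emb (0, -1) v y).2 - 1) = emb (0, -1) v (y.1, y.2 + 1) :=
      Prod.ext (by simp only [emb]; ring) (by simp only [emb]; ring)
    rw [e1, e2, e3, e4] at h2
    tauto
  · have e1 : ((emb (-1, 0) v y).1 + 1, (emb (-1, 0) v y).2) = emb (-1, 0) v (y.1, y.2 - 1) :=
      Prod.ext (by simp only [emb]; ring) (by simp only [emb]; ring)
    have e2 : ((emb (-1, 0) v y).1 - 1, (emb (-1, 0) v y).2) = emb (-1, 0) v (y.1, y.2 + 1) :=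
      Prod.ext (by simp only [emb]; ring) (by simp only [emb]; ring)
    have e3 : ((emb (-1, 0) v y).1, (emb (-1, 0) v y).2 + 1) = emb (-1, 0) v (y.1 + 1, y.2) :=
      Prod.ext (by simp only [emb]; ring) (by simp only [emb]; ring)
    have e4 : ((emb (-1, 0) v y).1, (emb (-1, 0) v y).2 - 1) = emb (-1, 0) v (y.1 - 1, y.2) :=
      Prod.ext (by simp only [emb]; ring) (by simp only [emb]; ring)
    rw [e1, e2, e3, e4] at h2
    tauto

/-- the profile at a shifted column -/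
theorem flat_shift {α : ℝ} (hα : 0 < α) {x x0 L : ℤ} (hL : 100 ≤ L) (hx : |x| ≤ L - 50)
    (hx0 : |x0| ≤ 20) :
    |((x + x0 : ℤ) : ℝ)| * (|((x + x0 : ℤ) : ℝ)| / (L : ℝ)) ^ α ≤
      40 + 2 ^ (1 + α) * (|(x : ℝ)| * (|(x : ℝ)| / ((L - 50 : ℤ) : ℝ)) ^ α) := by
  have hLr : (100 : ℝ) ≤ (L : ℝ) := by exact_mod_cast hL
  have hL' : ((L - 50 : ℤ) : ℝ) = (L : ℝ) - 50 := by push_cast; ring
  have hxr : |(x : ℝ)| ≤ (L : ℝ) - 50 := by
    have : ((|x| : ℤ) : ℝ) ≤ ((L - 50 : ℤ) : ℝ) := by exact_mod_cast hx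
    rwa [Int.cast_abs, hL'] at this
  have hx0r : |(x0 : ℝ)| ≤ 20 := by
    have : ((|x0| : ℤ) : ℝ) ≤ ((20 : ℤ) : ℝ) := by exact_mod_cast hx0
    rw [Int.cast_abs] at this
    simpa using this
  rw [hL']
  obtain ⟨X, hX⟩ : ∃ X, X = |(x : ℝ)| := ⟨_, rfl⟩
  obtain ⟨Y, hY⟩ : ∃ Y, Y = |((x + x0 : ℤ) : ℝ)| := ⟨_, rfl⟩
  have hX0 : 0 ≤ X := hX ▸ abs_nonneg _
  have hY0 : 0 ≤ Y := hY ▸ abs_nonneg _
  have hYX : Y ≤ X + 20 := by
    rw [hY, hX]
    push_cast
    exact (abs_add_le _ _).trans (by linarith)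
  rw [← hX] at hxr ⊢
  rw [← hY]
  have hYL : Y ≤ L := by linarith
  have hr0 : 0 ≤ 2 ^ (1 + α) * (X * (X / ((L : ℝ) - 50)) ^ α) := by
    have : (0 : ℝ) ≤ X / ((L : ℝ) - 50) := div_nonneg hX0 (by linarith)
    positivity
  by_cases h20 : X ≤ 20
  · have h1 : (Y / (L : ℝ)) ^ α ≤ 1 :=
      Real.rpow_le_one (div_nonneg hY0 (by linarith)) ((div_le_one (by linarith)).2 hYL) hα.le
    have h2 : Y * (Y / (L : ℝ)) ^ α ≤ 40 * 1 :=
      mul_le_mul (by linarith) h1 (Real.rpow_nonneg (div_nonneg hY0 (by linarith)) _) (by norm_num)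
    linarith
  · push Not at h20
    have h1 : Y / (L : ℝ) ≤ 2 * (X / ((L : ℝ) - 50)) := by
      rw [← mul_div_assoc]
      exact div_le_div₀ (by linarith) (by linarith) (by linarith) (by linarith)
    have h2 : (Y / (L : ℝ)) ^ α ≤ 2 ^ α * (X / ((L : ℝ) - 50)) ^ α := by
      rw [← Real.mul_rpow (by norm_num) (div_nonneg hX0 (by linarith))]
      exact Real.rpow_le_rpow (div_nonneg hY0 (by linarith)) h1 hα.le
    have h3 : Y * (Y / (L : ℝ)) ^ α ≤ (2 * X) * (2 ^ α * (X / ((L : ℝ) - 50)) ^ α) :=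
      mul_le_mul (by linarith) h2 (Real.rpow_nonneg (div_nonneg hY0 (by linarith)) _) (by linarith)
    have h4 : (2 : ℝ) ^ (1 + α) = 2 * 2 ^ α := by
      rw [Real.rpow_add (by norm_num), Real.rpow_one]
    rw [h4]
    nlinarith [h3]

/-- recentring of a window -/
theorem recenter {T' : Finset Vtx} {e v : Vtx} (he : Dir e) {L : ℤ} (hL : 100 ≤ L) {h g : ℤ → ℤ}
    {s B α : ℝ} (hα : 0 < α) (hh : Lp 3 h) (hs : |s| ≤ 2) (hf : Flat h s B α L)
    (hg : ∀ x, |g (x + 1) - g x| ≤ 3) (hgh : ∀ x, |g x - h x| ≤ 4)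
    (hT : ∀ y : Vtx, |y.1| ≤ L - 1 → |y.2| ≤ 32 * L - 1 → (emb e v y ∈ T' ↔ g y.1 ≤ y.2))
    {x0 : ℤ} (hx0 : |x0| ≤ 20) (hgx : |g x0| ≤ 100) :
    Win T' (emb e v (x0, g x0)) (L - 50) (|B| * (41 + 2 ^ (1 + α)) + 148) α := by
  refine ⟨e, he, fun x => g (x + x0) - g x0, s, ⟨?_, ?_⟩, hs, ?_, ?_⟩
  · show g (0 + x0) - g x0 = 0
    rw [zero_add, sub_self]
  · intro x
    show |g (x + 1 + x0) - g x0 - (g (x + x0) - g x0)| ≤ 3
    have h1 := hg (x + x0)
    rw [show x + 1 + x0 = x + x0 + 1 by ring]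
    rw [abs_le] at h1 ⊢
    constructor <;> omega
  · intro x hx
    have h1 := hf (x + x0) (by
      rw [abs_le] at hx hx0 ⊢
      constructor <;> omega)
    have h2 := flat_shift hα hL hx hx0
    have h3 := hgh (x + x0)
    have h3' : |((g (x + x0) : ℤ) : ℝ) - (h (x + x0) : ℤ)| ≤ 4 := by
      have : ((|g (x + x0) - h (x + x0)| : ℤ) : ℝ) ≤ ((4 : ℤ) : ℝ) := by exact_mod_cast h3
      rw [Int.cast_abs, Int.cast_sub] at this
      simpa using this
    have h4 : |((g x0 : ℤ) : ℝ)| ≤ 100 := by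
      have : ((|g x0| : ℤ) : ℝ) ≤ ((100 : ℤ) : ℝ) := by exact_mod_cast hgx
      rw [Int.cast_abs] at this
      simpa using this
    have hx0r : |(x0 : ℝ)| ≤ 20 := by
      have : ((|x0| : ℤ) : ℝ) ≤ ((20 : ℤ) : ℝ) := by exact_mod_cast hx0
      rw [Int.cast_abs] at this
      simpa using this
    have h5 : |s * (x0 : ℝ)| ≤ 40 := by
      rw [abs_mul]
      calc |s| * |(x0 : ℝ)| ≤ 2 * 20 := mul_le_mul hs hx0r (abs_nonneg _) (by norm_num)
        _ = 40 := by norm_num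
    show |(((g (x + x0) - g x0 : ℤ)) : ℝ) - s * x| ≤ _
    obtain ⟨Q, hQ⟩ : ∃ Q, Q = |(x : ℝ)| * (|(x : ℝ)| / ((L - 50 : ℤ) : ℝ)) ^ α := ⟨_, rfl⟩
    rw [← hQ] at h2 ⊢
    have hQ0 : 0 ≤ Q := by
      rw [hQ]
      have : (0 : ℝ) ≤ ((L - 50 : ℤ) : ℝ) := by exact_mod_cast (by omega : (0 : ℤ) ≤ L - 50)
      positivity
    obtain ⟨Z, hZ⟩ : ∃ Z, Z = |((x + x0 : ℤ) : ℝ)| * (|((x + x0 : ℤ) : ℝ)| / (L : ℝ)) ^ α := ⟨_, rfl⟩
    rw [← hZ] at h1 h2
    have hZ0 : 0 ≤ Z := by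
      rw [hZ]
      have : (0 : ℝ) ≤ (L : ℝ) := by exact_mod_cast (by omega : (0 : ℤ) ≤ L)
      positivity
    have hBB : B * (1 + Z) ≤ |B| * (1 + Z) := mul_le_mul_of_nonneg_right (le_abs_self B) (by linarith)
    have hp : (0 : ℝ) < 2 ^ (1 + α) := by positivity
    have hB0 : 0 ≤ |B| := abs_nonneg B
    have h6 : |B| * (1 + Z) ≤ |B| * (41 + 2 ^ (1 + α) * Q) :=
      mul_le_mul_of_nonneg_left (by linarith) hB0
    have h7 : |B| * (41 + 2 ^ (1 + α) * Q) ≤ |B| * (41 + 2 ^ (1 + α)) * (1 + Q) := by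
      rw [mul_assoc]
      refine mul_le_mul_of_nonneg_left ?_ hB0
      nlinarith
    have h8 : |((h (x + x0) : ℤ) : ℝ) - s * ((x + x0 : ℤ) : ℝ)| ≤
        |B| * (41 + 2 ^ (1 + α)) * (1 + Q) := h1.trans (hBB.trans (h6.trans h7))
    have e : (((g (x + x0) - g x0 : ℤ)) : ℝ) - s * x =
        (((g (x + x0) : ℤ) : ℝ) - (h (x + x0) : ℤ)) +
          (((h (x + x0) : ℤ) : ℝ) - s * ((x + x0 : ℤ) : ℝ)) + s * (x0 : ℝ) - ((g x0 : ℤ) : ℝ) := by
      push_cast
      ring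
    rw [e]
    rw [abs_le] at h3' h4 h5 h8 ⊢
    have h9 : (|B| * (41 + 2 ^ (1 + α)) + 148) * (1 + Q) =
        |B| * (41 + 2 ^ (1 + α)) * (1 + Q) + 148 * (1 + Q) := by ring
    rw [h9]
    constructor <;> linarith
  · intro y hy
    rw [mem_QB] at hy
    rw [emb_emb]
    have h1 := hT (y.1 + x0, y.2 + g x0) (by
      show |y.1 + x0| ≤ L - 1
      rw [abs_le] at hx0 ⊢
      constructor <;> omega) (by
      show |y.2 + g x0| ≤ 32 * L - 1
      rw [abs_le] at hgx ⊢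
      constructor <;> omega)
    rw [h1]
    show g (y.1 + x0) ≤ y.2 + g x0 ↔ g (y.1 + x0) - g x0 ≤ y.2
    constructor <;> intro h <;> omega

theorem lp_abs {h : ℤ → ℤ} (hh : Lp 3 h) (n : ℕ) :
    |h n| ≤ 3 * n ∧ |h (-(n : ℤ))| ≤ 3 * n := by
  induction n with
  | zero => simp [hh.zero]
  | succ n ih =>
    obtain ⟨h1, h2⟩ := ih
    have h3 := hh.lip n
    have h4 := hh.lip (-((n : ℤ) + 1))
    rw [show -((n : ℤ) + 1) + 1 = -(n : ℤ) by ring] at h4
    push_cast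
    rw [abs_le] at h1 h2 h3 h4 ⊢
    rw [abs_le]
    refine ⟨⟨?_, ?_⟩, ?_, ?_⟩ <;> omega

theorem lp_bound {h : ℤ → ℤ} (hh : Lp 3 h) {x n : ℤ} (hx : |x| ≤ n) : |h x| ≤ 3 * n := by
  rw [abs_le] at hx
  rcases le_total 0 x with h0 | h0
  · have := (lp_abs hh x.toNat).1
    rw [Int.toNat_of_nonneg h0] at this
    omega
  · have := (lp_abs hh (-x).toNat).2
    rw [Int.toNat_of_nonneg (by omega : 0 ≤ -x), neg_neg] at this
    omega

/-- **Item WRP.** -/
theorem t_WRP : S_WRP := by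
  intro B α hα
  refine ⟨|B| * (41 + 2 ^ (1 + α)) + 148, fun T v L hL hW => ?_⟩
  obtain ⟨e, he, h, s, hh, hs, hf, hT⟩ := hW
  obtain ⟨σ, τ, hσ, hτ, hfr⟩ := frame he
  obtain ⟨g, hgd⟩ : ∃ g : ℤ → ℤ, g = fun x => min (h x) (h (x + σ)) - (if τ = 1 then 1 else 0) :=
    ⟨_, rfl⟩
  have hlip : ∀ x, |h (x + σ) - h x| ≤ 3 := by
    intro x
    rcases hσ with rfl | rfl
    · exact hh.lip x
    · have := hh.lip (x + -1)
      rw [show x + -1 + 1 = x by ring] at this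
      rw [abs_le] at this ⊢
      constructor <;> omega
  have hgh : ∀ x, |g x - h x| ≤ 4 := by
    intro x
    have h1 := hlip x
    rw [hgd]
    rw [abs_le] at h1 ⊢
    simp only
    split_ifs <;> constructor <;> omega
  have hg : ∀ x, |g (x + 1) - g x| ≤ 3 := by
    intro x
    have h1 := hh.lip x
    have h2 := hh.lip (x + σ)
    rw [hgd]
    simp only
    rw [show x + 1 + σ = x + σ + 1 by ring]
    rw [abs_le] at h1 h2 ⊢
    split_ifs <;> constructor <;> omega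
  have hg0 : |g 0| ≤ 4 := by
    have := hgh 0
    rwa [hh.zero, sub_zero] at this
  refine ⟨emb e v (0, g 0), ?_, recenter he hL hα hh hs hf hg hgh ?_ (by norm_num) (by omega)⟩
  · have h1 := frame_dist he v (0, g 0) (0, 0) (n := 5) (by simp) (by
      show |g 0 - 0| ≤ 5
      rw [sub_zero]
      omega)
    have h2 : emb e v (0, 0) = v := by
      unfold emb
      exact Prod.ext (by simp) (by simp)
    rwa [h2] at h1
  · intro y hy1 hy2
    have key : ∀ a b : ℤ, |a| ≤ L → |b| ≤ 32 * L → (emb e v (a, b) ∈ T ↔ h a ≤ b) := by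
      intro a b ha hb
      refine hT (a, b) ?_
      rw [mem_QB]
      rw [abs_le] at ha hb
      exact ⟨⟨by omega, by omega⟩, by show -(32 * L) ≤ b; omega, by show b ≤ 32 * L; omega⟩
    rw [(hfr T v y).1]
    rw [abs_le] at hy1 hy2
    have k1 := key y.1 y.2 (abs_le.2 ⟨by omega, by omega⟩) (abs_le.2 ⟨by omega, by omega⟩)
    have k2 := key (y.1 + σ) y.2 (abs_le.2 ⟨by omega, by omega⟩) (abs_le.2 ⟨by omega, by omega⟩)
    have k3 := key y.1 (y.2 + τ) (abs_le.2 ⟨by omega, by omega⟩) (abs_le.2 ⟨by omega, by omega⟩)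
    have k4 := key (y.1 + σ) (y.2 + τ) (abs_le.2 ⟨by omega, by omega⟩)
      (abs_le.2 ⟨by omega, by omega⟩)
    rw [k1, k2, k3, k4, hgd]
    simp only
    rcases hτ with rfl | rfl
    · rw [if_pos rfl]
      constructor <;> intro hh <;> omega
    · rw [if_neg (by norm_num)]
      constructor <;> intro hh <;> omega

/-- **Item WRS.** -/
theorem t_WRS : S_WRS := by
  intro B α hα
  refine ⟨|B| * (41 + 2 ^ (1 + α)) + 148, fun T v L hL hW b hb hbv => ?_⟩
  obtain ⟨e, he, h, s, hh, hs, hf, hT⟩ := hW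
  obtain ⟨σ, τ, hσ, hτ, hfr⟩ := frame he
  obtain ⟨g, hgd⟩ : ∃ g : ℤ → ℤ, g = fun x => max (h x) (h (x + σ)) + (if τ = -1 then 1 else 0) :=
    ⟨_, rfl⟩
  have hlip : ∀ x, |h (x + σ) - h x| ≤ 3 := by
    intro x
    rcases hσ with rfl | rfl
    · exact hh.lip x
    · have := hh.lip (x + -1)
      rw [show x + -1 + 1 = x by ring] at this
      rw [abs_le] at this ⊢
      constructor <;> omega
  have hgh : ∀ x, |g x - h x| ≤ 4 := by
    intro x
    have h1 := hlip x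
    rw [hgd]
    rw [abs_le] at h1 ⊢
    simp only
    split_ifs <;> constructor <;> omega
  have hg : ∀ x, |g (x + 1) - g x| ≤ 3 := by
    intro x
    have h1 := hh.lip x
    have h2 := hh.lip (x + σ)
    rw [hgd]
    simp only
    rw [show x + 1 + σ = x + σ + 1 by ring]
    rw [abs_le] at h1 h2 ⊢
    split_ifs <;> constructor <;> omega
  have hTS : ∀ y : Vtx, |y.1| ≤ L - 1 → |y.2| ≤ 32 * L - 1 →
      (emb e v y ∈ Sq T ↔ g y.1 ≤ y.2) := by
    intro y hy1 hy2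
    have key : ∀ a b : ℤ, |a| ≤ L → |b| ≤ 32 * L → (emb e v (a, b) ∈ T ↔ h a ≤ b) := by
      intro a b ha hb
      refine hT (a, b) ?_
      rw [mem_QB]
      rw [abs_le] at ha hb
      exact ⟨⟨by omega, by omega⟩, by show -(32 * L) ≤ b; omega, by show b ≤ 32 * L; omega⟩
    rw [(hfr T v y).2]
    rw [abs_le] at hy1 hy2
    have k1 := key y.1 y.2 (abs_le.2 ⟨by omega, by omega⟩) (abs_le.2 ⟨by omega, by omega⟩)
    have k2 := key (y.1 + σ) y.2 (abs_le.2 ⟨by omega, by omega⟩) (abs_le.2 ⟨by omega, by omega⟩)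
    have k3 := key y.1 (y.2 + τ) (abs_le.2 ⟨by omega, by omega⟩) (abs_le.2 ⟨by omega, by omega⟩)
    have k4 := key (y.1 + σ) (y.2 + τ) (abs_le.2 ⟨by omega, by omega⟩)
      (abs_le.2 ⟨by omega, by omega⟩)
    rw [k1, k2, k3, k4, hgd]
    simp only
    rcases hτ with rfl | rfl
    · rw [if_neg (by norm_num)]
      constructor <;> intro hh <;> omega
    · rw [if_pos rfl]
      constructor <;> intro hh <;> omega
  obtain ⟨x0, y0, rfl, hx0, hy0⟩ := frame_inv he hbv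
  have hgx : |g x0| ≤ 100 := by
    have h1 := hgh x0
    have h2 := lp_bound hh hx0
    rw [abs_le] at h1 h2 ⊢
    constructor <;> omega
  refine ⟨emb e v (x0, g x0), ?_, recenter he hL hα hh hs hf hg hgh hTS hx0 hgx⟩
  obtain ⟨b1, b2⟩ := frame_bt he hb
  have hx0' := hx0
  have hy0' := hy0
  rw [abs_le] at hx0' hy0'
  have m0 := hTS (x0, y0) (by show |x0| ≤ L - 1; omega) (by show |y0| ≤ 32 * L - 1; omega)
  have m1 := hTS (x0 + 1, y0) (by show |x0 + 1| ≤ L - 1; rw [abs_le]; constructor <;> omega)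
    (by show |y0| ≤ 32 * L - 1; omega)
  have m2 := hTS (x0 - 1, y0) (by show |x0 - 1| ≤ L - 1; rw [abs_le]; constructor <;> omega)
    (by show |y0| ≤ 32 * L - 1; omega)
  have m3 := hTS (x0, y0 + 1) (by show |x0| ≤ L - 1; omega)
    (by show |y0 + 1| ≤ 32 * L - 1; rw [abs_le]; constructor <;> omega)
  have m4 := hTS (x0, y0 - 1) (by show |x0| ≤ L - 1; omega)
    (by show |y0 - 1| ≤ 32 * L - 1; rw [abs_le]; constructor <;> omega)
  have c0 : g x0 ≤ y0 := m0.1 b1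
  have g1 := hg x0
  have g2 := hg (x0 - 1)
  rw [sub_add_cancel] at g2
  rw [abs_le] at g1 g2
  have c1 : y0 ≤ g x0 + 2 := by
    simp only at m1 m2 m3 m4 b2
    rw [m1, m2, m3, m4] at b2
    rcases b2 with h1 | h1 | h1 | h1 <;> omega
  refine frame_dist he v _ _ ?_ ?_
  · show |x0 - x0| ≤ 3
    rw [sub_self, abs_zero]
    norm_num
  · show |y0 - g x0| ≤ 3
    rw [abs_le]
    constructor <;> omega

end Pool.Agent.J6H18.SL
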